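import Mathlib

set_option autoImplicit false

namespace Pool.Agent.MP_116850_co

/-- no element of the set has its negative in the set (so `0` is not in it when `p` is odd) -/
def Anti {p : ℕ} (B : Finset (ZMod p)) : Prop := ∀ x ∈ B, -x ∉ B

/-- the number of elements of `S + x` outside `S` -/
def lam {p : ℕ} (S : Finset (ZMod p)) (x : ZMod p) : ℕ :=
  ((S.image (fun s => s + x)) \ S).card

/-- the norm of `u • B` -/
def tot {p : ℕ} (u : ZMod p) (B : Finset (ZMod p)) : ℕ :=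
  ∑ x ∈ B, (u * x).valMinAbs.natAbs

/-- some dilate has full interval of subset sums -/
def Std {p : ℕ} (B : Finset (ZMod p)) : Prop :=
  ∃ u : ZMod p, u ≠ 0 ∧ B.subsetSum.card = tot u B + 1

/-- a lower bound for `p ^ 2 * (1 - cos (2 * π * a / p))`, `0 ≤ a ≤ p / 2` -/
def cost (p a : ℕ) : ℕ := if 4 * a < p then 16 * a ^ 2 else 4 * a * p

/-- The property in question: every non-spanning `A` of size `⌊2 √(p-2)⌋` has a dilate of norm at
most `p - 2`. -/
def Good (p : ℕ) : Prop :=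
  ∀ A : Finset (ZMod p), (A.card : ℤ) = ⌊2 * Real.sqrt ((p : ℝ) - 2)⌋ →
    (∃ c : ZMod p, ∀ B ⊆ A, ∑ x ∈ B, x ≠ c) →
    ∃ b : ZMod p, b ≠ 0 ∧ ∑ a ∈ A, |(b * a).valMinAbs| ≤ (p : ℤ) - 2

end Pool.Agent.MP_116850_co
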