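import Mathlib
import Pool.Agent.MP_116850_co.Defs

set_option autoImplicit false

namespace Pool.Agent.MP_116850_co.BlockD

open Finset

/-! ### the search program -/

def tab : Nat := 0xbaa9a998a9989887a998988798878776a9989887988787769887877687767665a998988798878776988787768776766598878776877676658776766576656554a9989887988787769887877687767665988787768776766587767665766565549887877687767665877676657665655487767665766565547665655465545443a998988798878776988787768776766598878776877676658776766576656554988787768776766587767665766565548776766576656554766565546554544398878776877676658776766576656554877676657665655476656554655454438776766576656554766565546554544376656554655454436554544354434332a9989887988787769887877687767665988787768776766587767665766565549887877687767665877676657665655487767665766565547665655465545443988787768776766587767665766565548776766576656554766565546554544387767665766565547665655465545443766565546554544365545443544343329887877687767665877676657665655487767665766565547665655465545443877676657665655476656554655454437665655465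545443655454435443433287767665766565547665655465545443766565546554544365545443544343327665655465545443655454435443433265545443544343325443433243323221a998988798878776988787768776766598878776877676658776766576656554988787768776766587767665766565548776766576656554766565546554544398878776877676658776766576656554877676657665655476656554655454438776766576656554766565546554544376656554655454436554544354434332988787768776766587767665766565548776766576656554766565546554544387767665766565547665655465545443766565546554544365545443544343328776766576656554766565546554544376656554655454436554544354434332766565546554544365545443544343326554544354434332544343324332322198878776877676658776766576656554877676657665655476656554655454438776766576656554766565546554544376656554655454436554544354434332877676657665655476656554655454437665655465545443655454435443433276656554655454436554544354434332655454435443433254434332433232218776766576656554766565546554544376656554655454436554544354434332766565546554544365545443544343326554544354434332544343324332322176656554655454436554544354434332655454435443433254434332433232216554544354434332544343324332322154434332433232214332322132212110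

def tb (y : Nat) : Nat := Nat.land (Nat.shiftRight tab (Nat.mul 4 y)) 15

def popc (x : Nat) : Nat :=
  Nat.add (Nat.add (tb (Nat.land x 2047)) (tb (Nat.land (Nat.shiftRight x 11) 2047)))
    (Nat.add (tb (Nat.land (Nat.shiftRight x 22) 2047)) (tb (Nat.land (Nat.shiftRight x 33) 2047)))

def rot (p full S c : Nat) : Nat :=
  Nat.land (Nat.lor (Nat.shiftLeft S c) (Nat.shiftRight S (Nat.sub p c))) full

/-- `S` together with its translate by `c` -/
def ext (p full S c : Nat) : Nat := Nat.lor S (rot p full S c)

def fcl (p y : Nat) : Nat := Nat.min (Nat.mod y p) (Nat.sub p (Nat.mod y p))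

def nrm (p u : Nat) : List Nat → Nat
  | [] => 0
  | c :: M => Nat.add (nrm p u M) (fcl p (Nat.mul u c))

def srch (p : Nat) (M : List Nat) : Nat → Bool
  | 0 => false
  | u + 1 => cond (Nat.ble (Nat.add (nrm p (u + 1) M) 2) p) true (srch p M u)

def cnt (c : Nat) : List Nat → Nat
  | [] => 0
  | d :: M => cond (Nat.beq c d) (Nat.succ (cnt c M)) (cnt c M)

def fullc (p full S : Nat) (M : List Nat) : Nat → Bool
  | 0 => true
  | c + 1 => and (or (Nat.beq (ext p full S (c + 1)) full) (Nat.ble 2 (cnt (c + 1) M)))
      (fullc p full S M c)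

def leaf (p full h S : Nat) (M : List Nat) : Bool :=
  and (srch p M h) (fullc p full S M h)

def go (p full h dm : Nat) : Nat → Nat → Nat → List Nat → Bool
  | 0, r, S, M => cond (Nat.beq r 0) (leaf p full h S M) true
  | k + 1, r, S, M =>
    cond (Nat.beq r 0) (leaf p full h S M)
      (cond (Nat.blt (Nat.mul dm (k + 1)) r) true
        (and (go p full h dm k r S M)
          (cond (Nat.ble (Nat.add (popc (ext p full S (k + 2))) r) p)
            (and (go p full h dm k (Nat.pred r) (ext p full S (k + 2)) ((k + 2) :: M))
              (cond (and (Nat.ble 2 r) (and (Nat.beq dm 2) (Nat.ble (Nat.add (popc (ext p full (ext p full S (k + 2)) (k + 2))) (Nat.pred r)) p)))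
                (go p full h dm k (Nat.pred (Nat.pred r)) (ext p full (ext p full S (k + 2)) (k + 2)) ((k + 2) :: (k + 2) :: M))
                true))
            true)))

/-! ### population count -/

def pc (k x : ℕ) : ℕ := ∑ i ∈ range k, (x.testBit i).toNat

theorem tb_all : ∀ y < 2048, tb y = pc 11 y := by
  have h : ∀ y < 2048, tb y = (List.range 11).foldl (fun s i => s + (y.testBit i).toNat) 0 := by
    decide +kernel
  intro y hy
  rw [h y hy, pc]
  simp [sum_range_succ, List.range, List.range.loop]

theorem pc_add (a b x : ℕ) : pc (a + b) x = pc a (x &&& (2 ^ a - 1)) + pc b (x >>> a) := by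
  unfold pc
  rw [sum_range_add]
  congr 1
  · apply sum_congr rfl
    intro i hi
    rw [Nat.testBit_and, Nat.testBit_two_pow_sub_one]
    simp [mem_range.mp hi]
  · apply sum_congr rfl
    intro i _
    rw [Nat.testBit_shiftRight]

theorem pc_mask (a x : ℕ) : pc a (x &&& (2 ^ a - 1)) = pc a x := by
  unfold pc
  apply sum_congr rfl
  intro i hi
  rw [Nat.testBit_and, Nat.testBit_two_pow_sub_one]
  simp [mem_range.mp hi]

theorem popc_eq (x : ℕ) : popc x = pc 44 x := by
  have h1 : pc 44 x = pc 11 (x &&& 2047) + pc 33 (x >>> 11) := pc_add 11 33 x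
  have h2 : pc 33 (x >>> 11) = pc 11 ((x >>> 11) &&& 2047) + pc 22 (x >>> 11 >>> 11) :=
    pc_add 11 22 _
  have h3 : pc 22 (x >>> 22) = pc 11 ((x >>> 22) &&& 2047) + pc 11 (x >>> 22 >>> 11) :=
    pc_add 11 11 _
  rw [← Nat.shiftRight_add] at h2 h3
  have h4 : pc 11 (x >>> 33) = pc 11 ((x >>> 33) &&& 2047) := (pc_mask 11 _).symm
  rw [h1, h2, h3]
  norm_num only
  rw [h4]
  have hb : ∀ z : ℕ, z &&& 2047 < 2048 := fun z => lt_of_le_of_lt Nat.and_le_right (by norm_num)
  rw [← tb_all _ (hb _), ← tb_all _ (hb _), ← tb_all _ (hb _), ← tb_all _ (hb _)]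
  show _ = _
  unfold popc
  simp only [Nat.add_eq]
  have e1 : ∀ a b : ℕ, Nat.land a b = a &&& b := fun a b => rfl
  have e2 : ∀ a b : ℕ, Nat.shiftRight a b = a >>> b := fun a b => rfl
  simp only [e1, e2]
  ring

/-! ### classes -/

variable {p : ℕ} [Fact p.Prime]

def cls (x : ZMod p) : ℕ := x.valMinAbs.natAbs

theorem cls_neg (x : ZMod p) : cls (-x) = cls x := by
  unfold cls
  exact ZMod.natAbs_valMinAbs_neg x

theorem cls_eq_iff {h c : ℕ} (hp : p = 2 * h + 1) (hc : c ≤ h) (x : ZMod p) :
    cls x = c ↔ x = (c : ZMod p) ∨ x = -(c : ZMod p) := by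
  constructor
  · intro hx
    have h1 : ((x.valMinAbs : ℤ) : ZMod p) = x := ZMod.coe_valMinAbs x
    rcases Int.natAbs_eq x.valMinAbs with h2 | h2
    · left
      rw [← h1, h2]
      unfold cls at hx
      rw [hx]
      simp
    · right
      rw [← h1, h2]
      unfold cls at hx
      rw [hx]
      simp
  · have h3 : cls (c : ZMod p) = c := by
      unfold cls
      rw [ZMod.valMinAbs_natCast_of_le_half (by omega)]
      simp
    rintro (rfl | rfl)
    · exact h3
    · rw [cls_neg]; exact h3

theorem cls_nat_mul (u : ℕ) (x : ZMod p) : cls ((u : ZMod p) * x) = fcl p (u * cls x) := by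
  have h1 : x = (cls x : ZMod p) ∨ x = -(cls x : ZMod p) := by
    have h1 : ((x.valMinAbs : ℤ) : ZMod p) = x := ZMod.coe_valMinAbs x
    rcases Int.natAbs_eq x.valMinAbs with h2 | h2
    · left
      nth_rewrite 1 [← h1]
      rw [h2]
      unfold cls
      simp
    · right
      nth_rewrite 1 [← h1]
      rw [h2]
      unfold cls
      simp
  have h2 : cls ((u : ZMod p) * x) = cls ((u * cls x : ℕ) : ZMod p) := by
    rcases h1 with h1 | h1
    · nth_rewrite 1 [h1]
      push_cast
      rfl
    · nth_rewrite 1 [h1]
      rw [mul_neg, cls_neg]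
      push_cast
      rfl
  rw [h2]
  unfold cls fcl
  rw [ZMod.valMinAbs_natAbs_eq_min, ZMod.val_natCast]
  rfl


/-! ### subset sums -/

theorem mem_ss_insert {G : Type*} [AddCommGroup G] [DecidableEq G] {x z : G} {B : Finset G}
    (hx : x ∉ B) :
    z ∈ (insert x B).subsetSum ↔ z ∈ B.subsetSum ∨ z - x ∈ B.subsetSum := by
  rw [mem_subsetSum_iff, mem_subsetSum_iff, mem_subsetSum_iff]
  constructor
  · rintro ⟨C, hC, rfl⟩
    by_cases hxC : x ∈ C
    · right
      refine ⟨C.erase x, ?_, ?_⟩
      · intro y hy
        have h1 := mem_of_mem_erase hy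
        have h2 := ne_of_mem_erase hy
        have h3 := hC h1
        rcases mem_insert.mp h3 with h4 | h4
        · exact absurd h4 h2
        · exact h4
      · rw [← add_sum_erase C (fun b => b) hxC]
        abel
    · left
      refine ⟨C, ?_, rfl⟩
      intro y hy
      have h3 := hC hy
      rcases mem_insert.mp h3 with h4 | h4
      · exact absurd (h4 ▸ hy) hxC
      · exact h4
  · rintro (⟨C, hC, rfl⟩ | ⟨C, hC, h⟩)
    · exact ⟨C, hC.trans (subset_insert _ _), rfl⟩
    · refine ⟨insert x C, insert_subset_insert _ hC, ?_⟩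
      rw [sum_insert (fun h' => hx (hC h')), h]
      abel

theorem ss_grow {x : ZMod p} {B : Finset (ZMod p)} (hx : x ∉ B) (hx0 : x ≠ 0)
    (hB : B.subsetSum ≠ univ) : B.subsetSum.card + 1 ≤ (insert x B).subsetSum.card := by
  have hsub : B.subsetSum ⊆ (insert x B).subsetSum := subsetSum_mono (subset_insert _ _)
  apply card_lt_card
  refine ⟨hsub, ?_⟩
  intro hcon
  apply hB
  have hstep : ∀ z, z ∈ B.subsetSum → z + x ∈ B.subsetSum := by
    intro z hz
    apply hcon
    rw [mem_ss_insert hx]
    right
    simpa using hz
  have hmul : ∀ n : ℕ, (n : ZMod p) * x ∈ B.subsetSum := by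
    intro n
    induction n with
    | zero => simp
    | succ n ih =>
      have := hstep _ ih
      push_cast
      rw [add_mul, one_mul]
      exact this
  rw [eq_univ_iff_forall]
  intro z
  have h1 := hmul ((z * x⁻¹).val)
  rw [ZMod.natCast_val, ZMod.cast_id, mul_assoc, inv_mul_cancel₀ hx0, mul_one] at h1
  exact h1

theorem ss_bound {A B : Finset (ZMod p)} (hBA : B ⊆ A) (h0 : (0 : ZMod p) ∉ A)
    (hA : A.subsetSum ≠ univ) : B.subsetSum.card + A.card + 1 ≤ p + B.card := by
  have key : ∀ n : ℕ, ∀ B : Finset (ZMod p), B ⊆ A → B.card + n = A.card →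
      B.subsetSum.card + n + 1 ≤ p := by
    intro n
    induction n with
    | zero =>
      intro B hBA hc
      have h1 : B = A := eq_of_subset_of_card_le hBA (by omega)
      rw [h1]
      have h2 : A.subsetSum.card < (univ : Finset (ZMod p)).card :=
        card_lt_card (ssubset_univ_iff.mpr hA)
      rw [card_univ, ZMod.card] at h2
      omega
    | succ n ih =>
      intro B hBA hc
      have h1 : ∃ x ∈ A, x ∉ B := by
        by_contra hcon
        push Not at hcon
        have := card_le_card (show A ⊆ B from hcon)
        omega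
      obtain ⟨x, hxA, hxB⟩ := h1
      have h2 := ih (insert x B) (insert_subset hxA hBA) (by rw [card_insert_of_notMem hxB]; omega)
      have h3 : B.subsetSum ≠ univ := by
        intro hcon
        apply hA
        rw [eq_univ_iff_forall]
        intro z
        have : z ∈ B.subsetSum := by rw [hcon]; exact mem_univ _
        exact subsetSum_mono hBA this
      have h4 := ss_grow hxB (fun h => h0 (h ▸ hxA)) h3
      omega
  have h1 := card_le_card hBA
  have h2 := key (A.card - B.card) B hBA (by omega)
  omega

/-- the bit mask `S` describes the subset sums of `B` up to translation -/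
def Rel (S : ℕ) (B : Finset (ZMod p)) : Prop :=
  S < 2 ^ p ∧ ∃ t : ZMod p, ∀ i : ZMod p, S.testBit i.val = true ↔ i + t ∈ B.subsetSum

theorem testBit_rot {S c : ℕ} (hS : S < 2 ^ p) (hc : c < p) (i : ZMod p) :
    (rot p (2 ^ p - 1) S c).testBit i.val = S.testBit (i - (c : ZMod p)).val := by
  have e1 : rot p (2 ^ p - 1) S c = (S <<< c ||| S >>> (p - c)) &&& (2 ^ p - 1) := rfl
  have hi : i.val < p := ZMod.val_lt i
  rw [e1, Nat.testBit_and, Nat.testBit_two_pow_sub_one, Nat.testBit_or, Nat.testBit_shiftLeft,
    Nat.testBit_shiftRight]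
  simp only [hi, decide_true, Bool.and_true]
  have hcv : (c : ZMod p).val = c := ZMod.val_cast_of_lt hc
  by_cases hci : c ≤ i.val
  · have h1 : (i - (c : ZMod p)).val = i.val - c := by
      rw [ZMod.val_sub (by rw [hcv]; exact hci), hcv]
    have h2 : S.testBit (p - c + i.val) = false := by
      apply Nat.testBit_lt_two_pow
      exact lt_of_lt_of_le hS (Nat.pow_le_pow_right (by norm_num) (by omega))
    rw [h1, h2]
    simp [hci]
  · have h1 : (i - (c : ZMod p)).val = p - c + i.val := by
      have h3 : i - (c : ZMod p) = ((p - c + i.val : ℕ) : ZMod p) := by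
        push_cast [Nat.cast_sub hc.le]
        simp
        ring
      rw [h3]
      exact ZMod.val_cast_of_lt (by omega)
    rw [h1]
    simp [hci]

omit [Fact p.Prime] in
theorem ext_lt {S c : ℕ} (hS : S < 2 ^ p) : ext p (2 ^ p - 1) S c < 2 ^ p := by
  unfold ext
  have h1 : rot p (2 ^ p - 1) S c < 2 ^ p := by
    have e1 : rot p (2 ^ p - 1) S c = (S <<< c ||| S >>> (p - c)) &&& (2 ^ p - 1) := rfl
    rw [e1]
    have := @Nat.and_le_right (S <<< c ||| S >>> (p - c)) (2 ^ p - 1)
    have h2 : 0 < 2 ^ p := by positivity
    omega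
  exact Nat.or_lt_two_pow hS h1

theorem testBit_ext {S c : ℕ} (hS : S < 2 ^ p) (hc : c < p) (i : ZMod p) :
    (ext p (2 ^ p - 1) S c).testBit i.val =
      (S.testBit i.val || S.testBit (i - (c : ZMod p)).val) := by
  have e1 : ext p (2 ^ p - 1) S c = S ||| rot p (2 ^ p - 1) S c := rfl
  rw [e1, Nat.testBit_or, testBit_rot hS hc]

theorem Rel.step {S c : ℕ} {B : Finset (ZMod p)} (h : Rel S B) (hc : c < p) {x : ZMod p}
    (hx : x ∉ B) (hxc : x = (c : ZMod p) ∨ x = -(c : ZMod p)) :
    Rel (ext p (2 ^ p - 1) S c) (insert x B) := by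
  obtain ⟨hS, t, ht⟩ := h
  refine ⟨ext_lt hS, ?_⟩
  rcases hxc with rfl | rfl
  · refine ⟨t, fun i => ?_⟩
    rw [testBit_ext hS hc, Bool.or_eq_true, ht, ht, mem_ss_insert hx]
    have e : i - (c : ZMod p) + t = i + t - (c : ZMod p) := by ring
    rw [e]
  · refine ⟨t - c, fun i => ?_⟩
    rw [testBit_ext hS hc, Bool.or_eq_true, ht, ht, mem_ss_insert hx]
    have e : i - (c : ZMod p) + t = i + (t - (c : ZMod p)) := by ring
    have e2 : i + t = i + (t - (c : ZMod p)) - -(c : ZMod p) := by ring
    rw [e, e2]
    exact Or.comm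

theorem Rel.popc {S : ℕ} {B : Finset (ZMod p)} (h : Rel S B) (hp : p ≤ 44) :
    popc S = B.subsetSum.card := by
  obtain ⟨hS, t, ht⟩ := h
  rw [popc_eq]
  have h1 : pc 44 S = ((range p).filter (fun i => S.testBit i = true)).card := by
    unfold pc
    rw [card_filter]
    have h2 : range p ⊆ range 44 := range_subset_range.mpr hp
    rw [← sum_subset h2]
    · apply sum_congr rfl
      intro i _
      cases S.testBit i <;> rfl
    · intro i _ hi
      rw [mem_range, not_lt] at hi
      have : S.testBit i = false := by
        apply Nat.testBit_lt_two_pow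
        exact lt_of_lt_of_le hS (Nat.pow_le_pow_right (by norm_num) hi)
      rw [this]
      rfl
  rw [h1]
  apply card_bij (fun (i : ℕ) _ => (i : ZMod p) + t)
  · intro i hi
    rw [mem_filter, mem_range] at hi
    have h3 := (ht (i : ZMod p)).mp
    rw [ZMod.val_cast_of_lt hi.1] at h3
    exact h3 hi.2
  · intro i hi j hj hij
    rw [mem_filter, mem_range] at hi hj
    have h3 : (i : ZMod p) = (j : ZMod p) := add_right_cancel hij
    have h4 := congrArg ZMod.val h3
    rwa [ZMod.val_cast_of_lt hi.1, ZMod.val_cast_of_lt hj.1] at h4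
  · intro z hz
    refine ⟨(z - t).val, ?_, ?_⟩
    · rw [mem_filter, mem_range]
      refine ⟨ZMod.val_lt _, ?_⟩
      rw [ht]
      simpa using hz
    · simp

theorem Rel.full {S : ℕ} {B : Finset (ZMod p)} (h : Rel S B) (hfull : S = 2 ^ p - 1) :
    B.subsetSum = univ := by
  obtain ⟨_, t, ht⟩ := h
  rw [eq_univ_iff_forall]
  intro z
  have h1 := (ht (z - t)).mp
  rw [hfull, Nat.testBit_two_pow_sub_one] at h1
  have h2 := h1 (by simpa using ZMod.val_lt (z - t))
  simpa using h2

/-! ### the leaf test -/

theorem nrm_eq (u : ℕ) (M : List ℕ) (B : Finset (ZMod p)) (hM : (M : Multiset ℕ) = B.val.map cls) :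
    nrm p u M = ∑ x ∈ B, cls ((u : ZMod p) * x) := by
  have h1 : ∀ M : List ℕ, nrm p u M = ((M : Multiset ℕ).map (fun c => fcl p (u * c))).sum := by
    intro M
    induction M with
    | nil => rfl
    | cons c M ih =>
      show nrm p u M + fcl p (u * c) = _
      rw [ih]
      simp [add_comm]
  rw [h1, hM, Multiset.map_map]
  unfold Finset.sum
  congr 1
  apply Multiset.map_congr rfl
  intro x _
  rw [cls_nat_mul]
  rfl

theorem cnt_eq (c : ℕ) (M : List ℕ) : cnt c M = M.count c := by
  induction M with
  | nil => rfl
  | cons d M ih =>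
    rw [List.count_cons]
    show cond (Nat.beq c d) (Nat.succ (cnt c M)) (cnt c M) = _
    by_cases h : c = d
    · subst h
      rw [Nat.beq_refl]
      simp [ih]
    · have h2 : Nat.beq c d = false := by
        rw [← Bool.not_eq_true]
        intro h3
        exact h (Nat.eq_of_beq_eq_true h3)
      rw [h2]
      have h4 : (d == c) = false := by simpa using fun h5 : d = c => h h5.symm
      simp [ih, h4]

omit [Fact p.Prime] in
theorem srch_sound (M : List ℕ) : ∀ n : ℕ, srch p M n = true →
    ∃ u : ℕ, 0 < u ∧ u ≤ n ∧ nrm p u M + 2 ≤ p := by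
  intro n
  induction n with
  | zero => intro h; exact absurd h (by simp [srch])
  | succ n ih =>
    intro h
    unfold srch at h
    cases h1 : Nat.ble (Nat.add (nrm p (n + 1) M) 2) p with
    | true => exact ⟨n + 1, by omega, le_rfl, Nat.le_of_ble_eq_true h1⟩
    | false =>
      rw [h1] at h
      obtain ⟨u, h2, h3, h4⟩ := ih h
      exact ⟨u, h2, by omega, h4⟩

omit [Fact p.Prime] in
theorem fullc_sound {S : ℕ} (M : List ℕ) : ∀ n : ℕ, fullc p (2 ^ p - 1) S M n = true →
    ∀ c : ℕ, 1 ≤ c → c ≤ n → ext p (2 ^ p - 1) S c = 2 ^ p - 1 ∨ 2 ≤ M.count c := by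
  intro n
  induction n with
  | zero => intro _ c h1 h2; omega
  | succ n ih =>
    intro h c h1 h2
    unfold fullc at h
    rw [Bool.and_eq_true, Bool.or_eq_true] at h
    obtain ⟨h3, h4⟩ := h
    by_cases hc : c = n + 1
    · subst hc
      rcases h3 with h3 | h3
      · left; exact Nat.eq_of_beq_eq_true h3
      · right
        have := Nat.le_of_ble_eq_true h3
        rwa [cnt_eq] at this
    · exact ih h4 c h1 (by omega)

/-- what the search establishes -/
def Claim (h : ℕ) (A : Finset (ZMod p)) : Prop :=
  (∃ u : ℕ, 0 < u ∧ u ≤ h ∧ (∑ x ∈ A, cls ((u : ZMod p) * x)) + 2 ≤ p) ∧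
    ∀ x, x ≠ 0 → x ∉ A → (insert x A).subsetSum = univ

theorem leaf_sound {h S : ℕ} (hp : p = 2 * h + 1) {M : List ℕ} {A : Finset (ZMod p)}
    (hR : Rel S A) (hM : (M : Multiset ℕ) = A.val.map cls)
    (hl : leaf p (2 ^ p - 1) h S M = true) : Claim h A := by
  unfold leaf at hl
  rw [Bool.and_eq_true] at hl
  constructor
  · obtain ⟨u, h1, h2, h3⟩ := srch_sound M h hl.1
    exact ⟨u, h1, h2, by rw [← nrm_eq u M A hM]; exact h3⟩
  · intro x hx0 hxA
    have hc1 : 1 ≤ cls x := by
      rw [Nat.one_le_iff_ne_zero]
      intro h0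
      unfold cls at h0
      rw [Int.natAbs_eq_zero, ZMod.valMinAbs_eq_zero] at h0
      exact hx0 h0
    have hc2 : cls x ≤ h := by
      have := ZMod.natAbs_valMinAbs_le x
      unfold cls
      omega
    have hxc := (cls_eq_iff hp hc2 x).mp rfl
    rcases fullc_sound M h hl.2 (cls x) hc1 hc2 with h1 | h1
    · exact (hR.step (by omega) hxA hxc).full h1
    · exfalso
      have h2 : (M : Multiset ℕ).count (cls x) = M.count (cls x) := Multiset.coe_count _ _
      rw [hM, Multiset.count_map] at h2
      have h3 : 2 ≤ (A.filter (fun a => cls x = cls a)).card := by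
        rw [← h2] at h1
        exact h1
      have h4 : A.filter (fun a => cls x = cls a) ⊆ {-x} := by
        intro a ha
        rw [mem_filter] at ha
        rw [mem_singleton]
        have h5 := (cls_eq_iff hp hc2 a).mp ha.2.symm
        rcases hxc with h6 | h6 <;> rcases h5 with h7 | h7
        · exact absurd (by rw [h6, ← h7]; exact ha.1) hxA
        · rw [h7]
          exact congrArg Neg.neg h6.symm
        · rw [h7]
          have := congrArg Neg.neg h6
          rw [neg_neg] at this
          exact this.symm
        · exact absurd (by rw [h6, ← h7]; exact ha.1) hxA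
      have h5 := card_le_card h4
      rw [card_singleton] at h5
      omega


/-! ### soundness of the search -/

/-- the part of `A` already treated when the classes `2, ..., k + 1` remain -/
def Bk (A : Finset (ZMod p)) (k : ℕ) : Finset (ZMod p) :=
  A.filter (fun x => cls x = 1 ∨ k + 1 < cls x)

theorem Bk_subset (A : Finset (ZMod p)) (k : ℕ) : Bk A k ⊆ A := filter_subset _ _

theorem cls_pos {x : ZMod p} (hx0 : x ≠ 0) : 1 ≤ cls x := by
  rw [Nat.one_le_iff_ne_zero]
  intro h0
  unfold cls at h0
  rw [Int.natAbs_eq_zero, ZMod.valMinAbs_eq_zero] at h0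
  exact hx0 h0

theorem Bk_zero {A : Finset (ZMod p)} (h0 : (0 : ZMod p) ∉ A) : Bk A 0 = A := by
  unfold Bk
  apply filter_true_of_mem
  intro x hx
  have := cls_pos (x := x) (fun h => h0 (h ▸ hx))
  omega

theorem mem_Bk {A : Finset (ZMod p)} {k : ℕ} {x : ZMod p} :
    x ∈ Bk A k ↔ x ∈ A ∧ (cls x = 1 ∨ k + 1 < cls x) := mem_filter

theorem Bk_step {h k : ℕ} (hp : p = 2 * h + 1) (hk : k + 2 ≤ h) (A : Finset (ZMod p)) (x : ZMod p) :
    x ∈ Bk A k ↔ x ∈ Bk A (k + 1) ∨
      (x ∈ A ∧ (x = ((k + 2 : ℕ) : ZMod p) ∨ x = -((k + 2 : ℕ) : ZMod p))) := by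
  rw [mem_Bk, mem_Bk, ← cls_eq_iff hp hk x]
  constructor
  · rintro ⟨h1, h2⟩
    by_cases h3 : cls x = k + 2
    · right; exact ⟨h1, h3⟩
    · left; exact ⟨h1, by omega⟩
  · rintro (⟨h1, h2⟩ | ⟨h1, h2⟩)
    · exact ⟨h1, by omega⟩
    · exact ⟨h1, by omega⟩

theorem remaining_le {h k dm : ℕ} (hp : p = 2 * h + 1) {A : Finset (ZMod p)}
    (h0 : (0 : ZMod p) ∉ A) (hdm : dm = 2 ∨ (dm = 1 ∧ ∀ x ∈ A, -x ∉ A)) :
    A.card ≤ (Bk A (k + 1)).card + dm * (k + 1) := by
  have h1 : (A \ Bk A (k + 1)).card ≤ dm * (Icc 2 (k + 2)).card := by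
    apply card_le_mul_card_image_of_maps_to (f := cls)
    · intro x hx
      rw [mem_sdiff, mem_Bk] at hx
      rw [mem_Icc]
      have := cls_pos (x := x) (fun h => h0 (h ▸ hx.1))
      have h2 : ¬ (cls x = 1 ∨ k + 1 + 1 < cls x) := fun h => hx.2 ⟨hx.1, h⟩
      omega
    · intro c _
      have hsub : ((A \ Bk A (k + 1)).filter (fun x => cls x = c)) ⊆
          {(c : ZMod p), -(c : ZMod p)} := by
        intro x hx
        rw [mem_filter] at hx
        rw [mem_insert, mem_singleton]
        have hch : c ≤ h := by
          rw [← hx.2]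
          have := ZMod.natAbs_valMinAbs_le x
          unfold cls
          omega
        exact (cls_eq_iff hp hch x).mp hx.2
      rcases hdm with hdm | ⟨hdm, hA⟩
      · rw [hdm]
        exact (card_le_card hsub).trans card_le_two
      · rw [hdm, card_le_one]
        intro x hx y hy
        have hx1 := hsub hx
        have hy1 := hsub hy
        rw [mem_filter, mem_sdiff] at hx hy
        rw [mem_insert, mem_singleton] at hx1 hy1
        rcases hx1 with hx1 | hx1 <;> rcases hy1 with hy1 | hy1
        · rw [hx1, hy1]
        · exact absurd (by rw [hx1, ← hy1]; exact hy.1.1) (hA x hx.1.1)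
        · exact absurd (by rw [hy1, ← hx1]; exact hx.1.1) (hA y hy.1.1)
        · rw [hx1, hy1]
  rw [Nat.card_Icc] at h1
  have h2 := card_sdiff_add_card_eq_card (Bk_subset A (k + 1))
  have h3 : k + 2 + 1 - 2 = k + 1 := by omega
  rw [h3] at h1
  omega

theorem go_sound {h dm : ℕ} (hp : p = 2 * h + 1) (hp44 : p ≤ 44) {A : Finset (ZMod p)}
    (h0 : (0 : ZMod p) ∉ A) (hA : A.subsetSum ≠ univ)
    (hdm : dm = 2 ∨ (dm = 1 ∧ ∀ x ∈ A, -x ∉ A)) :
    ∀ k r S : ℕ, ∀ M : List ℕ, k + 1 ≤ h → r + (Bk A k).card = A.card → Rel S (Bk A k) →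
      (M : Multiset ℕ) = (Bk A k).val.map cls → go p (2 ^ p - 1) h dm k r S M = true →
      Claim h A := by
  intro k
  induction k with
  | zero =>
    intro r S M hk hr hR hM hgo
    rw [Bk_zero h0] at hr hR hM
    have hr0 : r = 0 := by omega
    subst hr0
    exact leaf_sound hp hR hM hgo
  | succ k ih =>
    intro r S M hk hr hR hM hgo
    unfold go at hgo
    cases hr0 : Nat.beq r 0 with
    | true =>
      have hr1 : r = 0 := Nat.eq_of_beq_eq_true hr0
      rw [hr0] at hgo
      have hBA : Bk A (k + 1) = A := eq_of_subset_of_card_le (Bk_subset _ _) (by omega)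
      rw [hBA] at hR hM
      exact leaf_sound hp hR hM hgo
    | false =>
      have hr1 : r ≠ 0 := Nat.ne_of_beq_eq_false hr0
      rw [hr0] at hgo
      simp only [cond_false] at hgo
      cases hb : Nat.blt (Nat.mul dm (k + 1)) r with
      | true =>
        exfalso
        have h1 : Nat.mul dm (k + 1) < r := by
          have := Nat.le_of_ble_eq_true hb
          omega
        have h2 : dm * (k + 1) < r := h1
        have h3 := remaining_le (k := k) hp h0 hdm
        omega
      | false =>
        rw [hb] at hgo
        simp only [cond_false, Bool.and_eq_true] at hgo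
        obtain ⟨hgo1, hgo2⟩ := hgo
        have hk2 : k + 2 ≤ h := by omega
        have hcz : ((k + 2 : ℕ) : ZMod p) ≠ 0 := by
          intro hz
          have h4 := (ZMod.natCast_eq_zero_iff _ _).mp hz
          have h5 := Nat.le_of_dvd (by omega) h4
          omega
        have hne : ((k + 2 : ℕ) : ZMod p) ≠ -((k + 2 : ℕ) : ZMod p) := by
          intro hz
          have h6 : ((2 * (k + 2) : ℕ) : ZMod p) = 0 := by
            push_cast
            push_cast at hz
            linear_combination hz
          have h4 := (ZMod.natCast_eq_zero_iff _ _).mp h6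
          have h5 := Nat.le_of_dvd (by omega) h4
          omega
        have hcp : k + 2 < p := by omega
        set z : ZMod p := ((k + 2 : ℕ) : ZMod p) with hz
        have hstep := Bk_step (p := p) hp hk2 A
        rw [← hz] at hstep
        have hzc : cls z = k + 2 := (cls_eq_iff hp hk2 z).mpr (Or.inl rfl)
        have hzn : z ∉ Bk A (k + 1) := by rw [mem_Bk, hzc]; omega
        have hzn' : -z ∉ Bk A (k + 1) := by rw [mem_Bk, cls_neg, hzc]; omega
        -- one element
        have one : ∀ x : ZMod p, (x = z ∨ x = -z) → x ∈ A → -x ∉ A → Claim h A := by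
          intro x hx hxA hxn
          have hxB : x ∉ Bk A (k + 1) := by rcases hx with rfl | rfl <;> assumption
          have hB : Bk A k = insert x (Bk A (k + 1)) := by
            ext y
            rw [mem_insert, hstep]
            constructor
            · rintro (hy | ⟨hyA, hy⟩)
              · right; exact hy
              · left
                rcases hx with rfl | rfl <;> rcases hy with rfl | rfl
                · rfl
                · exact absurd hyA hxn
                · exact absurd hyA (by simpa using hxn)
                · rfl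
            · rintro (hy | hy)
              · right
                subst hy
                exact ⟨hxA, hx⟩
              · left; exact hy
          have hR' := hR.step hcp hxB hx
          rw [← hB] at hR'
          have hcard : (Bk A k).card = (Bk A (k + 1)).card + 1 := by
            rw [hB, card_insert_of_notMem hxB]
          have hpop := hR'.popc hp44
          have hbd := ss_bound (Bk_subset A k) h0 hA
          have hle : Nat.ble (Nat.add (popc (ext p (2 ^ p - 1) S (k + 2))) r) p = true := by
            apply Nat.ble_eq_true_of_le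
            rw [hpop]
            have hcl := card_le_card (Bk_subset A k)
            show _ + r ≤ p
            omega
          rw [hle] at hgo2
          simp only [cond_true, Bool.and_eq_true] at hgo2
          refine ih (Nat.pred r) _ _ (by omega) ?_ hR' ?_ hgo2.1
          · rw [Nat.pred_eq_sub_one]
            omega
          · rw [hB, insert_val_of_notMem hxB, Multiset.map_cons, ← hM, ← Multiset.cons_coe]
            congr 1
            rcases hx with rfl | rfl
            · exact hzc.symm
            · rw [cls_neg]; exact hzc.symm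
        by_cases hx1 : z ∈ A
        · by_cases hx2 : -z ∈ A
          · -- both
            have hdm2 : dm = 2 := by
              rcases hdm with hdm | ⟨_, hdm⟩
              · exact hdm
              · exact absurd hx2 (hdm z hx1)
            have hzB : -z ∉ insert z (Bk A (k + 1)) := by
              rw [mem_insert]
              rintro (h5 | h5)
              · exact hne h5.symm
              · exact hzn' h5
            have hB : Bk A k = insert (-z) (insert z (Bk A (k + 1))) := by
              ext y
              rw [mem_insert, mem_insert, hstep]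
              constructor
              · rintro (hy | ⟨hyA, hy⟩)
                · right; right; exact hy
                · rcases hy with rfl | rfl
                  · right; left; rfl
                  · left; rfl
              · rintro (hy | hy | hy)
                · right
                  subst hy
                  exact ⟨hx2, Or.inr rfl⟩
                · right
                  subst hy
                  exact ⟨hx1, Or.inl rfl⟩
                · left; exact hy
            have hR1 := hR.step hcp hzn (Or.inl rfl)
            have hR' := hR1.step hcp hzB (Or.inr rfl)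
            rw [← hB] at hR'
            have hcard1 : (insert z (Bk A (k + 1))).card = (Bk A (k + 1)).card + 1 :=
              card_insert_of_notMem hzn
            have hcard : (Bk A k).card = (Bk A (k + 1)).card + 2 := by
              rw [hB, card_insert_of_notMem hzB, hcard1]
            have hcl := card_le_card (Bk_subset A k)
            have hpop := hR'.popc hp44
            have hpop1 := hR1.popc hp44
            have hbd := ss_bound (Bk_subset A k) h0 hA
            have hbd1 := ss_bound (insert_subset hx1 (Bk_subset A (k + 1))) h0 hA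
            have hle1 : Nat.ble (Nat.add (popc (ext p (2 ^ p - 1) S (k + 2))) r) p = true := by
              apply Nat.ble_eq_true_of_le
              rw [hpop1]
              show _ + r ≤ p
              omega
            rw [hle1] at hgo2
            simp only [cond_true, Bool.and_eq_true] at hgo2
            have hle2 : Nat.ble (Nat.add (popc (ext p (2 ^ p - 1)
                (ext p (2 ^ p - 1) S (k + 2)) (k + 2))) (Nat.pred r)) p = true := by
              apply Nat.ble_eq_true_of_le
              rw [hpop, Nat.pred_eq_sub_one]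
              show _ + (r - 1) ≤ p
              omega
            have hr2 : Nat.ble 2 r = true := Nat.ble_eq_true_of_le (by omega)
            have hd2 : Nat.beq dm 2 = true := by rw [hdm2]; rfl
            rw [hle2, hr2, hd2] at hgo2
            have hgo3 := hgo2.2
            simp only [Bool.and_self, cond_true] at hgo3
            refine ih (Nat.pred (Nat.pred r)) _ _ (by omega) ?_ hR' ?_ hgo3
            · rw [Nat.pred_eq_sub_one, Nat.pred_eq_sub_one]
              omega
            · rw [hB, insert_val_of_notMem hzB, insert_val_of_notMem hzn, Multiset.map_cons,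
                Multiset.map_cons, ← hM, ← Multiset.cons_coe, ← Multiset.cons_coe, cls_neg, hzc]
          · exact one z (Or.inl rfl) hx1 hx2
        · by_cases hx2 : -z ∈ A
          · exact one (-z) (Or.inr rfl) hx2 (by rwa [neg_neg])
          · have hB : Bk A k = Bk A (k + 1) := by
              ext y
              rw [hstep]
              constructor
              · rintro (hy | ⟨hyA, hy⟩)
                · exact hy
                · rcases hy with rfl | rfl
                  · exact absurd hyA hx1
                  · exact absurd hyA hx2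
              · exact Or.inl
            rw [← hB] at hr hR hM
            exact ih r S M (by omega) hr hR hM hgo1


/-! ### conclusion -/

theorem dil {v : ZMod p} (hv : v ≠ 0) {A : Finset (ZMod p)}
    (h : (A.image (fun x => v * x)).subsetSum = univ) : A.subsetSum = univ := by
  rw [eq_univ_iff_forall]
  intro z
  have h1 : v * z ∈ (A.image (fun x => v * x)).subsetSum := by rw [h]; exact mem_univ _
  obtain ⟨C, hC, hs⟩ := mem_subsetSum_iff.mp h1
  rw [mem_subsetSum_iff]
  refine ⟨C.image (fun x => v⁻¹ * x), ?_, ?_⟩
  · intro x hx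
    obtain ⟨w, hw, rfl⟩ := mem_image.mp hx
    obtain ⟨a, ha, rfl⟩ := mem_image.mp (hC hw)
    show v⁻¹ * (v * a) ∈ A
    rw [← mul_assoc, inv_mul_cancel₀ hv, one_mul]
    exact ha
  · rw [sum_image, ← mul_sum, hs, ← mul_assoc, inv_mul_cancel₀ hv, one_mul]
    intro a _ b _ hab
    exact mul_left_cancel₀ (inv_ne_zero hv) hab

theorem Rel_empty : Rel 1 (∅ : Finset (ZMod p)) := by
  have hp0 : p ≠ 0 := (Fact.out : p.Prime).ne_zero
  refine ⟨Nat.one_lt_two_pow hp0, 0, fun i => ?_⟩
  rw [add_zero, Nat.testBit_one_eq_true_iff_self_eq_zero, ZMod.val_eq_zero, mem_subsetSum_iff]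
  constructor
  · rintro rfl
    exact ⟨∅, subset_refl _, sum_empty⟩
  · rintro ⟨B, hB, h2⟩
    rw [subset_empty.mp hB, sum_empty] at h2
    exact h2.symm

theorem exists_claim {h n : ℕ} (hp : p = 2 * h + 1) (hp44 : p ≤ 44) (hn : 1 ≤ n)
    (he1 : ext p (2 ^ p - 1) 1 1 = 3) (he2 : ext p (2 ^ p - 1) 3 1 = 7)
    (hr1 : go p (2 ^ p - 1) h 1 (h - 1) (n - 1) 3 [1] = true)
    (hr2 : 2 ≤ n → go p (2 ^ p - 1) h 2 (h - 1) (n - 2) 7 [1, 1] = true)
    {A : Finset (ZMod p)} (h0 : (0 : ZMod p) ∉ A) (hcard : A.card = n)
    (hA : A.subsetSum ≠ univ) :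
    ∃ v : ZMod p, v ≠ 0 ∧ Claim h (A.image (fun x => v * x)) := by
  have hpp : p.Prime := Fact.out
  have hh : 1 ≤ h := by
    have := hpp.two_le
    omega
  have hone : cls (1 : ZMod p) = 1 := by
    have h1 := (cls_eq_iff (c := 1) hp hh (1 : ZMod p)).mpr (Or.inl (by simp))
    exact h1
  have h1n : (1 : ZMod p) ≠ -1 := by
    intro hz
    have h6 : ((2 : ℕ) : ZMod p) = 0 := by
      push_cast
      linear_combination hz
    have h4 := (ZMod.natCast_eq_zero_iff _ _).mp h6
    have h5 := Nat.le_of_dvd (by omega) h4
    omega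
  have hcls1 : ∀ x : ZMod p, cls x = 1 ↔ x = 1 ∨ x = -1 := by
    intro x
    have := cls_eq_iff (c := 1) hp hh x
    simpa using this
  have hclsle : ∀ x : ZMod p, ¬ (h < cls x) := by
    intro x
    have := ZMod.natAbs_valMinAbs_le x
    unfold cls
    omega
  -- common data for a dilate
  have common : ∀ y ∈ A, (0 : ZMod p) ∉ A.image (fun x => y⁻¹ * x) ∧
      (A.image (fun x => y⁻¹ * x)).card = n ∧ (A.image (fun x => y⁻¹ * x)).subsetSum ≠ univ ∧
      (1 : ZMod p) ∈ A.image (fun x => y⁻¹ * x) ∧ y⁻¹ ≠ 0 := by
    intro y hy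
    have hy0 : y ≠ 0 := fun h => h0 (h ▸ hy)
    have hv : y⁻¹ ≠ 0 := inv_ne_zero hy0
    refine ⟨?_, ?_, ?_, ?_, hv⟩
    · intro hmem
      obtain ⟨a, ha, hz⟩ := mem_image.mp hmem
      rcases mul_eq_zero.mp hz with h1 | h1
      · exact hv h1
      · exact h0 (h1 ▸ ha)
    · rw [card_image_of_injective _ (fun a b hab => mul_left_cancel₀ hv hab), hcard]
    · exact fun hcon => hA (dil hv hcon)
    · exact mem_image.mpr ⟨y, hy, inv_mul_cancel₀ hy0⟩
  have hR1 : Rel 3 ({1} : Finset (ZMod p)) := by
    have := (Rel_empty (p := p)).step (c := 1) (x := 1) (by omega) (notMem_empty _)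
      (Or.inl (by simp))
    rw [he1] at this
    simpa using this
  by_cases hd : ∃ y ∈ A, -y ∈ A
  · obtain ⟨y, hy, hy'⟩ := hd
    obtain ⟨c0, c1, c2, c3, c4⟩ := common y hy
    refine ⟨y⁻¹, c4, ?_⟩
    have hy0 : y ≠ 0 := fun h => h0 (h ▸ hy)
    have c5 : (-1 : ZMod p) ∈ A.image (fun x => y⁻¹ * x) := by
      refine mem_image.mpr ⟨-y, hy', ?_⟩
      show y⁻¹ * -y = -1
      rw [mul_neg, inv_mul_cancel₀ hy0]
    have hBk : Bk (A.image (fun x => y⁻¹ * x)) (h - 1) = {-1, 1} := by
      ext x
      rw [mem_Bk, mem_insert, mem_singleton, hcls1]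
      have := hclsle x
      constructor
      · rintro ⟨_, (h1 | h1) | h1⟩
        · right; exact h1
        · left; exact h1
        · omega
      · rintro (rfl | rfl)
        · exact ⟨c5, Or.inl (Or.inr rfl)⟩
        · exact ⟨c3, Or.inl (Or.inl rfl)⟩
    have hm1 : (-1 : ZMod p) ∉ ({1} : Finset (ZMod p)) := by
      rw [mem_singleton]
      exact fun h => h1n h.symm
    have hn2 : 2 ≤ n := by
      rw [← c1]
      have := card_le_card (Bk_subset (A.image (fun x => y⁻¹ * x)) (h - 1))
      rw [hBk, card_insert_of_notMem hm1, card_singleton] at this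
      exact this
    have hR2 := hR1.step (c := 1) (x := -1) (by omega) hm1 (Or.inr (by simp))
    rw [he2] at hR2
    apply go_sound hp hp44 c0 c2 (Or.inl rfl) (h - 1) (n - 2) 7 [1, 1] (by omega) _ _ _ (hr2 hn2)
    · rw [hBk, c1, card_insert_of_notMem hm1, card_singleton]
      omega
    · rw [hBk]
      exact hR2
    · rw [hBk, insert_val_of_notMem hm1]
      simp [cls_neg, hone]
      rfl
  · push Not at hd
    have hne : A.Nonempty := by
      rw [← card_pos]
      omega
    obtain ⟨y, hy⟩ := hne
    obtain ⟨c0, c1, c2, c3, c4⟩ := common y hy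
    refine ⟨y⁻¹, c4, ?_⟩
    have hy0 : y ≠ 0 := fun h => h0 (h ▸ hy)
    have hanti : ∀ x ∈ A.image (fun x => y⁻¹ * x), -x ∉ A.image (fun x => y⁻¹ * x) := by
      intro x hx hx'
      obtain ⟨a, ha, rfl⟩ := mem_image.mp hx
      obtain ⟨b, hb, hab⟩ := mem_image.mp hx'
      have h1 : b = -a := by
        apply mul_left_cancel₀ c4
        show y⁻¹ * b = y⁻¹ * -a
        rw [mul_neg]
        exact hab
      exact hd a ha (h1 ▸ hb)
    have hBk : Bk (A.image (fun x => y⁻¹ * x)) (h - 1) = {1} := by
      ext x
      rw [mem_Bk, mem_singleton, hcls1]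
      have := hclsle x
      constructor
      · rintro ⟨h2, (h1 | h1) | h1⟩
        · exact h1
        · exact absurd (h1 ▸ h2) (hanti 1 c3)
        · omega
      · rintro rfl
        exact ⟨c3, Or.inl (Or.inl rfl)⟩
    apply go_sound hp hp44 c0 c2 (Or.inr ⟨rfl, hanti⟩) (h - 1) (n - 1) 3 [1] (by omega) _ _ _ hr1
    · rw [hBk, c1, card_singleton]
      omega
    · rw [hBk]
      exact hR1
    · rw [hBk]
      simp [hone]

theorem good_of_run {h m : ℕ} (hp : p = 2 * h + 1) (hp44 : p ≤ 44) (hm2 : 2 ≤ m)
    (hm : ⌊2 * Real.sqrt ((p : ℝ) - 2)⌋ = (m : ℤ))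
    (he1 : ext p (2 ^ p - 1) 1 1 = 3) (he2 : ext p (2 ^ p - 1) 3 1 = 7)
    (hr1 : go p (2 ^ p - 1) h 1 (h - 1) (m - 1 - 1) 3 [1] = true)
    (hr2 : 2 ≤ m - 1 → go p (2 ^ p - 1) h 2 (h - 1) (m - 1 - 2) 7 [1, 1] = true) :
    Good p := by
  intro A hA hns
  rw [hm] at hA
  have hAm : A.card = m := by exact_mod_cast hA
  have hAs : A.subsetSum ≠ univ := by
    obtain ⟨c, hc⟩ := hns
    intro hcon
    have h1 : c ∈ A.subsetSum := by rw [hcon]; exact mem_univ _
    obtain ⟨B, hB, hs⟩ := mem_subsetSum_iff.mp h1
    exact hc B hB hs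
  by_cases h0 : (0 : ZMod p) ∈ A
  · have h1 : (0 : ZMod p) ∉ A.erase 0 := notMem_erase _ _
    have h2 : (A.erase 0).card = m - 1 := by rw [card_erase_of_mem h0, hAm]
    have h3 : (A.erase 0).subsetSum ≠ univ := by rwa [subsetSum_erase_zero]
    obtain ⟨v, hv, ⟨u, hu0, huh, hsum⟩, _⟩ :=
      exists_claim hp hp44 (by omega) he1 he2 hr1 hr2 h1 h2 h3
    have hu : (u : ZMod p) ≠ 0 := by
      intro hz
      have h4 := (ZMod.natCast_eq_zero_iff _ _).mp hz
      have h5 := Nat.le_of_dvd (by omega) h4
      omega
    refine ⟨u * v, mul_ne_zero hu hv, ?_⟩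
    rw [sum_image (fun a _ b _ hab => mul_left_cancel₀ hv hab)] at hsum
    rw [← add_sum_erase A _ h0, mul_zero, ZMod.valMinAbs_zero, abs_zero, zero_add]
    have h4 : ∑ x ∈ A.erase 0, |((u : ZMod p) * v * x).valMinAbs| =
        ((∑ x ∈ A.erase 0, cls ((u : ZMod p) * (v * x)) : ℕ) : ℤ) := by
      rw [Nat.cast_sum]
      apply sum_congr rfl
      intro x _
      unfold cls
      rw [Int.natCast_natAbs, mul_assoc]
    rw [h4]
    omega
  · exfalso
    have hne : A.Nonempty := by
      rw [← card_pos]
      omega
    obtain ⟨x, hx⟩ := hne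
    have h1 : (0 : ZMod p) ∉ A.erase x := fun h => h0 (mem_of_mem_erase h)
    have h2 : (A.erase x).card = m - 1 := by rw [card_erase_of_mem hx, hAm]
    have h3 : (A.erase x).subsetSum ≠ univ := by
      intro hcon
      apply hAs
      rw [eq_univ_iff_forall]
      intro z
      have : z ∈ (A.erase x).subsetSum := by rw [hcon]; exact mem_univ _
      exact subsetSum_mono (erase_subset _ _) this
    obtain ⟨v, hv, _, hcl⟩ := exists_claim hp hp44 (by omega) he1 he2 hr1 hr2 h1 h2 h3
    have hx0 : x ≠ 0 := fun h => h0 (h ▸ hx)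
    have h4 := hcl (v * x) (mul_ne_zero hv hx0) (by
      intro hmem
      obtain ⟨a, ha, hz⟩ := mem_image.mp hmem
      have : a = x := mul_left_cancel₀ hv hz
      exact (notMem_erase x A) (this ▸ ha))
    have h5 : insert (v * x) ((A.erase x).image (fun x => v * x)) = A.image (fun x => v * x) := by
      rw [← image_insert, insert_erase hx]
    rw [h5] at h4
    exact hAs (dil hv h4)

theorem floor_val {q m : ℕ} (h1 : m * m ≤ 4 * (q - 2)) (h2 : 4 * (q - 2) < (m + 1) * (m + 1))
    (hq : 2 ≤ q) : ⌊2 * Real.sqrt ((q : ℝ) - 2)⌋ = (m : ℤ) := by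
  have hq' : ((q - 2 : ℕ) : ℝ) = (q : ℝ) - 2 := by push_cast [Nat.cast_sub hq]; ring
  rw [← hq', Int.floor_eq_iff]
  have h0 : (0 : ℝ) ≤ ((q - 2 : ℕ) : ℝ) := Nat.cast_nonneg _
  have hs := Real.mul_self_sqrt h0
  have hs0 := Real.sqrt_nonneg ((q - 2 : ℕ) : ℝ)
  have h1' : (m : ℝ) * m ≤ 4 * ((q - 2 : ℕ) : ℝ) := by exact_mod_cast h1
  have h2' : 4 * ((q - 2 : ℕ) : ℝ) < ((m : ℝ) + 1) * (m + 1) := by exact_mod_cast h2
  have hm0 : (0 : ℝ) ≤ m := Nat.cast_nonneg _
  constructor
  · push_cast
    nlinarith
  · push_cast
    nlinarith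


theorem good_3 : Good 3 := by
  have : Fact (Nat.Prime 3) := ⟨by norm_num⟩
  refine good_of_run (p := 3) (h := 1) (m := 2) (by norm_num) (by norm_num) (by norm_num)
    (floor_val (by norm_num) (by norm_num) (by norm_num)) (by decide +kernel)
    (by decide +kernel) (by decide +kernel) ?_
  exact fun h => absurd h (by norm_num)

theorem good_5 : Good 5 := by
  have : Fact (Nat.Prime 5) := ⟨by norm_num⟩
  refine good_of_run (p := 5) (h := 2) (m := 3) (by norm_num) (by norm_num) (by norm_num)
    (floor_val (by norm_num) (by norm_num) (by norm_num)) (by decide +kernel)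
    (by decide +kernel) (by decide +kernel) ?_
  exact fun _ => by decide +kernel

theorem good_7 : Good 7 := by
  have : Fact (Nat.Prime 7) := ⟨by norm_num⟩
  refine good_of_run (p := 7) (h := 3) (m := 4) (by norm_num) (by norm_num) (by norm_num)
    (floor_val (by norm_num) (by norm_num) (by norm_num)) (by decide +kernel)
    (by decide +kernel) (by decide +kernel) ?_
  exact fun _ => by decide +kernel

theorem good_11 : Good 11 := by
  have : Fact (Nat.Prime 11) := ⟨by norm_num⟩
  refine good_of_run (p := 11) (h := 5) (m := 6) (by norm_num) (by norm_num) (by norm_num)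
    (floor_val (by norm_num) (by norm_num) (by norm_num)) (by decide +kernel)
    (by decide +kernel) (by decide +kernel) ?_
  exact fun _ => by decide +kernel

theorem good_13 : Good 13 := by
  have : Fact (Nat.Prime 13) := ⟨by norm_num⟩
  refine good_of_run (p := 13) (h := 6) (m := 6) (by norm_num) (by norm_num) (by norm_num)
    (floor_val (by norm_num) (by norm_num) (by norm_num)) (by decide +kernel)
    (by decide +kernel) (by decide +kernel) ?_
  exact fun _ => by decide +kernel

theorem good_19 : Good 19 := by
  have : Fact (Nat.Prime 19) := ⟨by norm_num⟩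
  refine good_of_run (p := 19) (h := 9) (m := 8) (by norm_num) (by norm_num) (by norm_num)
    (floor_val (by norm_num) (by norm_num) (by norm_num)) (by decide +kernel)
    (by decide +kernel) (by decide +kernel) ?_
  exact fun _ => by decide +kernel

theorem good_23 : Good 23 := by
  have : Fact (Nat.Prime 23) := ⟨by norm_num⟩
  refine good_of_run (p := 23) (h := 11) (m := 9) (by norm_num) (by norm_num) (by norm_num)
    (floor_val (by norm_num) (by norm_num) (by norm_num)) (by decide +kernel)
    (by decide +kernel) (by decide +kernel) ?_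
  exact fun _ => by decide +kernel

theorem good_29 : Good 29 := by
  have : Fact (Nat.Prime 29) := ⟨by norm_num⟩
  refine good_of_run (p := 29) (h := 14) (m := 10) (by norm_num) (by norm_num) (by norm_num)
    (floor_val (by norm_num) (by norm_num) (by norm_num)) (by decide +kernel)
    (by decide +kernel) (by decide +kernel) ?_
  exact fun _ => by decide +kernel

theorem good_31 : Good 31 := by
  have : Fact (Nat.Prime 31) := ⟨by norm_num⟩
  refine good_of_run (p := 31) (h := 15) (m := 10) (by norm_num) (by norm_num) (by norm_num)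
    (floor_val (by norm_num) (by norm_num) (by norm_num)) (by decide +kernel)
    (by decide +kernel) (by decide +kernel) ?_
  exact fun _ => by decide +kernel

theorem good_37 : Good 37 := by
  have : Fact (Nat.Prime 37) := ⟨by norm_num⟩
  refine good_of_run (p := 37) (h := 18) (m := 11) (by norm_num) (by norm_num) (by norm_num)
    (floor_val (by norm_num) (by norm_num) (by norm_num)) (by decide +kernel)
    (by decide +kernel) (by decide +kernel) ?_
  exact fun _ => by decide +kernel

theorem good_41 : Good 41 := by
  have : Fact (Nat.Prime 41) := ⟨by norm_num⟩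
  refine good_of_run (p := 41) (h := 20) (m := 12) (by norm_num) (by norm_num) (by norm_num)
    (floor_val (by norm_num) (by norm_num) (by norm_num)) (by decide +kernel)
    (by decide +kernel) (by decide +kernel) ?_
  exact fun _ => by decide +kernel

theorem good_43 : Good 43 := by
  have : Fact (Nat.Prime 43) := ⟨by norm_num⟩
  refine good_of_run (p := 43) (h := 21) (m := 12) (by norm_num) (by norm_num) (by norm_num)
    (floor_val (by norm_num) (by norm_num) (by norm_num)) (by decide +kernel)
    (by decide +kernel) (by decide +kernel) ?_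
  exact fun _ => by decide +kernel

theorem good_small (p : ℕ) (hp : p.Prime) (h2 : p ≠ 2) (h17 : p ≠ 17) (h43 : p ≤ 43) :
    Good p := by
  interval_cases p
  · exact absurd hp (by norm_num)
  · exact absurd hp (by norm_num)
  · exact absurd rfl h2
  · exact good_3
  · exact absurd hp (by norm_num)
  · exact good_5
  · exact absurd hp (by norm_num)
  · exact good_7
  · exact absurd hp (by norm_num)
  · exact absurd hp (by norm_num)
  · exact absurd hp (by norm_num)
  · exact good_11
  · exact absurd hp (by norm_num)
  · exact good_13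
  · exact absurd hp (by norm_num)
  · exact absurd hp (by norm_num)
  · exact absurd hp (by norm_num)
  · exact absurd rfl h17
  · exact absurd hp (by norm_num)
  · exact good_19
  · exact absurd hp (by norm_num)
  · exact absurd hp (by norm_num)
  · exact absurd hp (by norm_num)
  · exact good_23
  · exact absurd hp (by norm_num)
  · exact absurd hp (by norm_num)
  · exact absurd hp (by norm_num)
  · exact absurd hp (by norm_num)
  · exact absurd hp (by norm_num)
  · exact good_29
  · exact absurd hp (by norm_num)
  · exact good_31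
  · exact absurd hp (by norm_num)
  · exact absurd hp (by norm_num)
  · exact absurd hp (by norm_num)
  · exact absurd hp (by norm_num)
  · exact absurd hp (by norm_num)
  · exact good_37
  · exact absurd hp (by norm_num)
  · exact absurd hp (by norm_num)
  · exact absurd hp (by norm_num)
  · exact good_41
  · exact absurd hp (by norm_num)
  · exact good_43

theorem ng1 : (11 : ZMod 17) ∉ ({0, 1, 3, 4, 5, 12, 14} : Finset (ZMod 17)).subsetSum := by
  have e : ({0, 1, 3, 4, 5, 12, 14} : Finset (ZMod 17)) =
    insert 0 (insert 1 (insert 3 (insert 4 (insert 5 (insert 12 (insert 14 ∅)))))) := by rfl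
  have h7 : (14 : ZMod 17) ∉ (∅ : Finset (ZMod 17)) := notMem_empty _
  have h6 : (12 : ZMod 17) ∉ (insert 14 ∅ : Finset (ZMod 17)) := by decide
  have h5 : (5 : ZMod 17) ∉ (insert 12 (insert 14 ∅) : Finset (ZMod 17)) := by decide
  have h4 : (4 : ZMod 17) ∉ (insert 5 (insert 12 (insert 14 ∅)) : Finset (ZMod 17)) := by decide
  have h3 : (3 : ZMod 17) ∉ (insert 4 (insert 5 (insert 12 (insert 14 ∅))) :
    Finset (ZMod 17)) := by decide
  have h2 : (1 : ZMod 17) ∉ (insert 3 (insert 4 (insert 5 (insert 12 (insert 14 ∅)))) :
    Finset (ZMod 17)) := by decide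
  have h1 : (0 : ZMod 17) ∉ (insert 1 (insert 3 (insert 4 (insert 5 (insert 12
    (insert 14 ∅))))) : Finset (ZMod 17)) := by decide
  have h0 : ∀ z : ZMod 17, z ∈ (∅ : Finset (ZMod 17)).subsetSum ↔ z = 0 := by
    intro z
    rw [mem_subsetSum_iff]
    constructor
    · rintro ⟨B, hB, h2⟩
      rw [subset_empty.mp hB, sum_empty] at h2
      exact h2.symm
    · rintro rfl
      exact ⟨∅, subset_refl _, sum_empty⟩
  rw [e]
  simp only [mem_ss_insert h1, mem_ss_insert h2, mem_ss_insert h3, mem_ss_insert h4,
    mem_ss_insert h5, mem_ss_insert h6, mem_ss_insert h7, h0, not_or]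
  repeat' apply And.intro
  all_goals decide

theorem ng2 : ∀ b : ZMod 17, b ≠ 0 → ¬ (∑ a ∈ ({0, 1, 3, 4, 5, 12, 14} : Finset (ZMod 17)),
    |(b * a).valMinAbs| ≤ ((17 : ℕ) : ℤ) - 2) := by decide +kernel

theorem ng3 : (({0, 1, 3, 4, 5, 12, 14} : Finset (ZMod 17)).card : ℤ) = ((7 : ℕ) : ℤ) := by
  decide +kernel

theorem not_good_17 : ¬ Good 17 := by
  intro h
  obtain ⟨b, hb, hs⟩ := h ({0, 1, 3, 4, 5, 12, 14} : Finset (ZMod 17))
    (ng3.trans (floor_val (by norm_num) (by norm_num) (by norm_num)).symm)
    ⟨11, fun B hB hs => ng1 (mem_subsetSum_iff.mpr ⟨B, hB, hs⟩)⟩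
  exact ng2 b hb hs

end Pool.Agent.MP_116850_co.BlockD
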