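import Mathlib
import Pool.Agent.MP_116850_co.Defs

/-!
# Block S: the verified search at `p = 71` and `p = 73`
-/

set_option autoImplicit false

namespace Pool.Agent.MP_116850_co.BlockS

open Finset

/-! ### The search program -/

/-- popcount at most `t` -/
def le : ℕ → ℕ → Bool
  | _, 0 => true
  | 0, _ + 1 => false
  | t + 1, n + 1 => le t (Nat.land (n + 1) n)

/-- add a class to the mask of subset sums -/
def step (p P m c : ℕ) : ℕ :=
  Nat.lor m (Nat.land (Nat.lor (Nat.shiftLeft m c) (Nat.shiftRight m (p - c))) P)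

/-- evaluate a positive number before passing it on -/
def force (m : ℕ) (k : ℕ → Bool) : Bool :=
  match m with
  | 0 => false
  | n + 1 => k (n + 1)

/-- membership -/
def mem (f : ℕ) : List ℕ → Bool
  | [] => false
  | a :: l => cond (Nat.beq f a) true (mem f l)

/-- all members -/
def allc (k : ℕ → Bool) : List ℕ → Bool
  | [] => true
  | a :: l => cond (k a) (allc k l) false

/-- some member -/
def anyc (k : ℕ → Bool) : List ℕ → Bool
  | [] => false
  | a :: l => cond (k a) true (anyc k l)

/-- the norm of a residue -/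
def nrm (p r : ℕ) : ℕ := cond (Nat.ble (2 * r) p) r (p - r)

/-- the norm of the dilate by `u` of a list of classes -/
def totl (p u : ℕ) : List ℕ → ℕ
  | [] => 0
  | a :: l => nrm p (u * a % p) + totl p u l

/-- check that some dilate is standard -/
def leaf (p : ℕ) (cl l : List ℕ) (m : ℕ) : Bool :=
  anyc (fun u => force (totl p u l) fun t => cond (le t m) false (le (t + 1) m)) cl

/-- one extension level: all extensions with at most `t` subset sums satisfy `k` -/
def lev (p P : ℕ) (cl : List ℕ) (t : ℕ) (k : List ℕ → ℕ → Bool) (l : List ℕ) (m : ℕ) : Bool :=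
  allc (fun f => cond (mem f l) true (force (step p P m f) fun m' =>
    cond (le t m') (k (f :: l) m') true)) cl

/-- all decompositions -/
def tails (k : ℕ → List ℕ → Bool) : List ℕ → Bool
  | [] => true
  | a :: l => cond (k a l) (tails k l) false

/-- the whole search -/
def main (p P : ℕ) (cl : List ℕ) : Bool :=
  tails (fun a l1 => force (step p P 3 a) fun m2 =>
    tails (fun b l2 => force (step p P m2 b) fun m3 =>
      tails (fun c _ => force (step p P m3 c) fun m4 =>
        cond (le 14 m4)
          (lev p P (1 :: cl) 19 (lev p P (1 :: cl) 25 (lev p P (1 :: cl) 32 (leaf p (1 :: cl))))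
            [c, b, a, 1] m4) true) l2) l1) cl

/-! ### Correctness of the basic functions -/

theorem force_spec {m : ℕ} {k : ℕ → Bool} (h : force m k = true) : k m = true := by
  cases m with
  | zero => simp [force] at h
  | succ n => exact h

theorem mem_spec (f : ℕ) (l : List ℕ) : mem f l = true ↔ f ∈ l := by
  induction l with
  | nil => simp [mem]
  | cons a l ih =>
    rw [mem, List.mem_cons]
    by_cases h : f = a
    · subst h
      have : Nat.beq f f = true := by simp
      rw [this]
      simp
    · have : Nat.beq f a = false := by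
        rw [← Bool.not_eq_true, Nat.beq_eq]
        exact h
      rw [this]
      simp [h, ih]

theorem allc_spec {k : ℕ → Bool} {l : List ℕ} (h : allc k l = true) : ∀ a ∈ l, k a = true := by
  induction l with
  | nil => simp
  | cons a l ih =>
    rw [allc] at h
    cases hk : k a with
    | false => rw [hk] at h; simp at h
    | true =>
      rw [hk] at h
      intro b hb
      rcases List.mem_cons.mp hb with rfl | hb
      · exact hk
      · exact ih h b hb

theorem anyc_spec {k : ℕ → Bool} {l : List ℕ} (h : anyc k l = true) : ∃ a ∈ l, k a = true := by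
  induction l with
  | nil => simp [anyc] at h
  | cons a l ih =>
    rw [anyc] at h
    cases hk : k a with
    | true => exact ⟨a, by simp, hk⟩
    | false =>
      rw [hk] at h
      obtain ⟨b, hb, hb'⟩ := ih h
      exact ⟨b, by simp [hb], hb'⟩

theorem tails_spec {k : ℕ → List ℕ → Bool} (n : ℕ) : ∀ (s : ℕ),
    tails k (List.range' s n) = true →
    ∀ a, s ≤ a → a < s + n → k a (List.range' (a + 1) (s + n - a - 1)) = true := by
  induction n with
  | zero => intro s _ a h1 h2; omega
  | succ n ih =>
    intro s h a h1 h2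
    rw [List.range'_succ, tails] at h
    cases hk : k s (List.range' (s + 1) n) with
    | false => rw [hk] at h; simp at h
    | true =>
      rw [hk] at h
      rcases Nat.eq_or_lt_of_le h1 with rfl | h3
      · have : s + (n + 1) - s - 1 = n := by omega
        rw [this]
        exact hk
      · have := ih (s + 1) h a (by omega) (by omega)
        have e : s + 1 + n - a - 1 = s + (n + 1) - a - 1 := by omega
        rw [e] at this
        exact this

/-- number of ones among the first `n` binary digits -/
def pc (n m : ℕ) : ℕ := ((range n).filter fun i => m.testBit i = true).card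

theorem pc_succ (n m : ℕ) : pc (n + 1) m = (if m.testBit 0 = true then 1 else 0) + pc n (m / 2) := by
  unfold pc
  rw [Finset.card_filter, Finset.card_filter, Finset.sum_range_succ', add_comm]
  congr 1
  apply Finset.sum_congr rfl
  intro i _
  rw [Nat.testBit_succ]

theorem pc_land (n : ℕ) : ∀ m : ℕ, 0 < m → m < 2 ^ n → pc n (Nat.land m (m - 1)) + 1 = pc n m := by
  induction n with
  | zero => intro m h1 h2; simp at h2; omega
  | succ n ih =>
    intro m h1 h2
    rw [pc_succ, pc_succ]
    have hland : Nat.land m (m - 1) = m &&& (m - 1) := rfl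
    rw [hland]
    have hdiv : (m &&& (m - 1)) / 2 = (m / 2) &&& ((m - 1) / 2) := Nat.and_div_two
    rw [hdiv, Nat.testBit_and]
    rcases Nat.even_or_odd m with he | ho
    · have h0 : m.testBit 0 = false := by
        rw [Nat.testBit_zero]
        have := Nat.even_iff.mp he
        simp [this]
      have h3 : (m - 1) / 2 = m / 2 - 1 := by
        have := Nat.even_iff.mp he
        omega
      have h4 : 0 < m / 2 := by
        have := Nat.even_iff.mp he
        omega
      have h5 : m / 2 < 2 ^ n := by
        rw [pow_succ] at h2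
        omega
      rw [h0, h3]
      have := ih (m / 2) h4 h5
      change pc n (m / 2 &&& (m / 2 - 1)) + 1 = _ at this
      simp only [Bool.false_and, Bool.false_eq_true, if_false, zero_add]
      exact this
    · have h0 : m.testBit 0 = true := by
        rw [Nat.testBit_zero]
        have := Nat.odd_iff.mp ho
        simp [this]
      have h1' : (m - 1).testBit 0 = false := by
        rw [Nat.testBit_zero]
        have := Nat.odd_iff.mp ho
        have : (m - 1) % 2 = 0 := by omega
        simp [this]
      have h3 : (m - 1) / 2 = m / 2 := by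
        have := Nat.odd_iff.mp ho
        omega
      rw [h0, h1', h3, Nat.and_self]
      simp [add_comm]

theorem pc_eq_zero {n m : ℕ} (hm : m < 2 ^ n) (h : pc n m = 0) : m = 0 := by
  by_contra hne
  have := pc_land n m (Nat.pos_of_ne_zero hne) hm
  omega

theorem le_spec {n : ℕ} (t : ℕ) : ∀ m : ℕ, m < 2 ^ n → (le t m = true ↔ pc n m ≤ t) := by
  induction t with
  | zero =>
    intro m hm
    cases m with
    | zero =>
      simp [le, pc]
    | succ k =>
      simp only [le, Bool.false_eq_true, false_iff]
      intro h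
      have := pc_eq_zero hm (Nat.le_zero.mp h)
      omega
  | succ t ih =>
    intro m hm
    cases m with
    | zero =>
      simp [le, pc]
    | succ k =>
      rw [le]
      have hlt : Nat.land (k + 1) k < 2 ^ n :=
        lt_of_le_of_lt (Nat.and_le_left : (k + 1) &&& k ≤ k + 1) hm
      rw [ih _ hlt]
      have := pc_land n (k + 1) (by omega) hm
      simp only [Nat.add_sub_cancel] at this
      omega

/-! ### Subset sums of lists -/

variable {p : ℕ}

/-- subset sums of a list -/
def zs : List (ZMod p) → Finset (ZMod p)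
  | [] => {0}
  | x :: l => zs l ∪ (zs l).image (fun s => s + x)

theorem subsetSum_insert (A : Finset (ZMod p)) (x : ZMod p) (hx : x ∉ A) :
    (insert x A).subsetSum = A.subsetSum ∪ A.subsetSum.image (fun s => s + x) := by
  ext y
  rw [mem_union, mem_image, mem_subsetSum_iff, mem_subsetSum_iff]
  constructor
  · rintro ⟨B, hB, rfl⟩
    by_cases hxB : x ∈ B
    · right
      refine ⟨∑ b ∈ B.erase x, b, mem_subsetSum_iff.mpr ⟨B.erase x, ?_, rfl⟩, ?_⟩
      · intro z hz
        rw [mem_erase] at hz
        rcases mem_insert.mp (hB hz.2) with h | h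
        · exact absurd h hz.1
        · exact h
      · exact Finset.sum_erase_add B _ hxB
    · left
      refine ⟨B, ?_, rfl⟩
      intro z hz
      rcases mem_insert.mp (hB hz) with h | h
      · exact absurd (h ▸ hz) hxB
      · exact h
  · rintro (⟨B, hB, rfl⟩ | ⟨y, hy, rfl⟩)
    · exact ⟨B, hB.trans (subset_insert _ _), rfl⟩
    · rw [mem_subsetSum_iff] at hy
      obtain ⟨B, hB, rfl⟩ := hy
      refine ⟨insert x B, insert_subset_insert _ hB, ?_⟩
      rw [sum_insert (fun h => hx (hB h)), add_comm]

theorem zs_toFinset (l : List (ZMod p)) (hl : l.Nodup) : l.toFinset.subsetSum = zs l := by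
  induction l with
  | nil =>
    ext y
    simp [zs, mem_subsetSum_iff, eq_comm]
  | cons x l ih =>
    rw [List.nodup_cons] at hl
    rw [List.toFinset_cons, subsetSum_insert _ _ (by simpa using hl.1), ih hl.2]
    rfl

theorem zs_perm {l l' : List (ZMod p)} (h : l.Perm l') : zs l = zs l' := by
  induction h with
  | nil => rfl
  | cons x _ ih => simp only [zs, ih]
  | swap x y l =>
    ext z
    simp only [zs, mem_union, mem_image]
    constructor
    · rintro ((h | ⟨s, h, rfl⟩) | ⟨s, (h | ⟨t, h, rfl⟩), rfl⟩)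
      · exact Or.inl (Or.inl h)
      · exact Or.inr ⟨s, Or.inl h, rfl⟩
      · exact Or.inl (Or.inr ⟨s, h, rfl⟩)
      · exact Or.inr ⟨t + y, Or.inr ⟨t, h, rfl⟩, by ring⟩
    · rintro ((h | ⟨s, h, rfl⟩) | ⟨s, (h | ⟨t, h, rfl⟩), rfl⟩)
      · exact Or.inl (Or.inl h)
      · exact Or.inr ⟨s, Or.inl h, rfl⟩
      · exact Or.inl (Or.inr ⟨s, h, rfl⟩)
      · exact Or.inr ⟨t + x, Or.inr ⟨t, h, rfl⟩, by ring⟩
  | trans _ _ ih1 ih2 => exact ih1.trans ih2

theorem zs_flip (f : ZMod p → ZMod p) (hf : ∀ x, f x = x ∨ f x = -x) (l : List (ZMod p)) :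
    ∃ s, zs (l.map f) = (zs l).image (fun z => z + s) := by
  induction l with
  | nil => exact ⟨0, by simp [zs]⟩
  | cons x l ih =>
    obtain ⟨s, hs⟩ := ih
    rcases hf x with h | h
    · refine ⟨s, ?_⟩
      rw [List.map_cons, zs, zs, hs, h, image_union, image_image, image_image]
      congr 1
      apply image_congr
      intro z _
      simp only [Function.comp]
      ring
    · refine ⟨s - x, ?_⟩
      rw [List.map_cons, zs, zs, hs, h, image_union, image_image, image_image, union_comm]
      congr 1
      · apply image_congr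
        intro z _
        simp only [Function.comp]
        ring
      · apply image_congr
        intro z _
        simp only [Function.comp]
        ring

theorem card_zs_flip (f : ZMod p → ZMod p) (hf : ∀ x, f x = x ∨ f x = -x) (l : List (ZMod p)) :
    (zs (l.map f)).card = (zs l).card := by
  obtain ⟨s, hs⟩ := zs_flip f hf l
  rw [hs, card_image_of_injective _ (add_left_injective s)]

theorem zs_scale (u : ZMod p) (l : List (ZMod p)) :
    zs (l.map fun x => u * x) = (zs l).image (fun z => u * z) := by
  induction l with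
  | nil => simp [zs]
  | cons x l ih =>
    rw [List.map_cons, zs, zs, ih, image_union, image_image, image_image]
    congr 1
    apply image_congr
    intro z _
    simp only [Function.comp]
    ring

theorem card_zs_scale [Fact p.Prime] (u : ZMod p) (hu : u ≠ 0) (l : List (ZMod p)) :
    (zs (l.map fun x => u * x)).card = (zs l).card := by
  rw [zs_scale, card_image_of_injective _ (mul_right_injective₀ hu)]

/-! ### Masks -/

/-- the mask `m` represents the set `S` -/
def Rel (p m : ℕ) (S : Finset (ZMod p)) : Prop :=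
  m < 2 ^ p ∧ ∀ i, i < p → (m.testBit i = true ↔ (i : ZMod p) ∈ S)

theorem Rel.card [NeZero p] {m : ℕ} {S : Finset (ZMod p)} (h : Rel p m S) : pc p m = S.card := by
  unfold pc
  apply Finset.card_bij (fun (i : ℕ) _ => ((i : ℕ) : ZMod p))
  · intro i hi
    rw [mem_filter, mem_range] at hi
    exact (h.2 i hi.1).1 hi.2
  · intro i hi j hj hij
    rw [mem_filter, mem_range] at hi hj
    have := congrArg ZMod.val hij
    rwa [ZMod.val_cast_of_lt hi.1, ZMod.val_cast_of_lt hj.1] at this
  · intro x hx
    refine ⟨x.val, ?_, by simp⟩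
    rw [mem_filter, mem_range]
    exact ⟨ZMod.val_lt x, (h.2 x.val (ZMod.val_lt x)).2 (by simpa using hx)⟩

theorem Rel.step [NeZero p] {m : ℕ} {S : Finset (ZMod p)} (h : Rel p m S) (c : ℕ)
    (hc1 : 1 ≤ c) (hc : c < p) :
    Rel p (step p (2 ^ p - 1) m c) (S ∪ S.image (fun s => s + (c : ZMod p))) := by
  have hstep : BlockS.step p (2 ^ p - 1) m c =
      m ||| (((m <<< c) ||| (m >>> (p - c))) &&& (2 ^ p - 1)) := rfl
  constructor
  · rw [hstep]
    apply Nat.or_lt_two_pow h.1
    exact lt_of_le_of_lt Nat.and_le_right (by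
      have : 0 < 2 ^ p := by positivity
      omega)
  · intro i hi
    rw [hstep, Nat.testBit_or, Nat.testBit_and, Nat.testBit_or, Nat.testBit_two_pow_sub_one,
      Nat.testBit_shiftLeft, Nat.testBit_shiftRight]
    simp only [hi, decide_true, Bool.and_true, Bool.or_eq_true, Bool.and_eq_true, decide_eq_true_eq,
      mem_union, mem_image]
    constructor
    · rintro (h1 | (⟨h1, h2⟩ | h1))
      · exact Or.inl ((h.2 i hi).1 h1)
      · right
        refine ⟨((i - c : ℕ) : ZMod p), (h.2 _ (by omega)).1 h2, ?_⟩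
        rw [← Nat.cast_add, Nat.sub_add_cancel h1]
      · right
        have hlt : p - c + i < p := by
          by_contra hge
          rw [not_lt] at hge
          have hm : m < 2 ^ (p - c + i) :=
            lt_of_lt_of_le h.1 (Nat.pow_le_pow_right (by norm_num) hge)
          rw [Nat.testBit_lt_two_pow hm] at h1
          exact Bool.noConfusion h1
        refine ⟨((p - c + i : ℕ) : ZMod p), (h.2 _ hlt).1 h1, ?_⟩
        rw [← Nat.cast_add]
        have : p - c + i + c = p + i := by omega
        rw [this]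
        simp
    · rintro (h1 | ⟨s, hs, hsi⟩)
      · exact Or.inl ((h.2 i hi).2 h1)
      · right
        have hv := ZMod.val_lt s
        have hsv : ((s.val : ℕ) : ZMod p) = s := by simp
        have hb : m.testBit s.val = true := (h.2 s.val hv).2 (by rw [hsv]; exact hs)
        have hcast : ((s.val + c : ℕ) : ZMod p) = (i : ZMod p) := by
          rw [Nat.cast_add, hsv, hsi]
        have hmod := (ZMod.natCast_eq_natCast_iff' _ _ _).mp hcast
        rw [Nat.mod_eq_of_lt hi] at hmod
        by_cases hlt : s.val + c < p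
        · rw [Nat.mod_eq_of_lt hlt] at hmod
          left
          refine ⟨by omega, ?_⟩
          have : i - c = s.val := by omega
          rw [this]
          exact hb
        · right
          have h2 : (s.val + c) % p = s.val + c - p := by
            rw [Nat.mod_eq_sub_mod (by omega), Nat.mod_eq_of_lt (by omega)]
          rw [h2] at hmod
          have : p - c + i = s.val := by omega
          rw [this]
          exact hb

/-- the mask `m` represents the list of classes `l` -/
def RelL (p m : ℕ) (l : List ℕ) : Prop := Rel p m (zs (l.map fun c : ℕ => (c : ZMod p)))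

theorem RelL.step [NeZero p] {m : ℕ} {l : List ℕ} (h : RelL p m l) (c : ℕ)
    (hc1 : 1 ≤ c) (hc : c < p) : RelL p (BlockS.step p (2 ^ p - 1) m c) (c :: l) :=
  Rel.step h c hc1 hc

theorem relL_one [NeZero p] (hp : 2 ≤ p) : RelL p 3 [1] := by
  refine ⟨?_, ?_⟩
  · calc 3 < 2 ^ 2 := by norm_num
      _ ≤ 2 ^ p := Nat.pow_le_pow_right (by norm_num) hp
  · intro i hi
    change (Nat.testBit 3 i = true ↔ (i : ZMod p) ∈ zs [((1 : ℕ) : ZMod p)])
    simp only [zs, mem_union, mem_image, mem_singleton]
    have h0 : (i : ZMod p) = 0 ↔ i = 0 := by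
      rw [ZMod.natCast_eq_zero_iff]
      constructor
      · intro h; exact Nat.eq_zero_of_dvd_of_lt h hi
      · rintro rfl; exact dvd_zero _
    have h1 : (i : ZMod p) = ((1 : ℕ) : ZMod p) ↔ i = 1 := by
      rw [ZMod.natCast_eq_natCast_iff', Nat.mod_eq_of_lt hi, Nat.mod_eq_of_lt (by omega)]
    constructor
    · intro h
      have : i < 2 := by
        by_contra hge
        rw [not_lt] at hge
        have : (3 : ℕ) < 2 ^ i := lt_of_lt_of_le (by norm_num : 3 < 2 ^ 2)
          (Nat.pow_le_pow_right (by norm_num) hge)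
        rw [Nat.testBit_lt_two_pow this] at h
        exact Bool.noConfusion h
      interval_cases i
      · left; simp
      · right; exact ⟨0, rfl, by simp⟩
    · rintro (h | ⟨s, rfl, h⟩)
      · rw [h0.mp h]; decide
      · rw [zero_add] at h
        rw [h1.mp h.symm]; decide

/-! ### Soundness of the levels -/

theorem lev_spec [NeZero p] {cl : List ℕ} (hcl : ∀ c ∈ cl, 1 ≤ c ∧ c < p) {t : ℕ}
    {k : List ℕ → ℕ → Bool} {l : List ℕ} {m : ℕ} (h : lev p (2 ^ p - 1) cl t k l m = true)
    (hm : RelL p m l) {f : ℕ} (hf : f ∈ cl) (hfl : f ∉ l)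
    (hcard : (zs ((f :: l).map fun c : ℕ => (c : ZMod p))).card ≤ t) :
    ∃ m', RelL p m' (f :: l) ∧ k (f :: l) m' = true := by
  have h1 := allc_spec h f hf
  have h2 : mem f l = false := by
    rw [← Bool.not_eq_true, mem_spec]
    exact hfl
  simp only [h2, cond_false] at h1
  have h3 := force_spec h1
  have hR := hm.step f (hcl f hf).1 (hcl f hf).2
  refine ⟨_, hR, ?_⟩
  have h4 : le t (step p (2 ^ p - 1) m f) = true := by
    rw [le_spec (n := p) t _ hR.1, Rel.card hR]
    exact hcard
  simp only [h4, cond_true] at h3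
  exact h3

theorem leaf_spec [NeZero p] {cl l : List ℕ} {m : ℕ} (h : leaf p cl l m = true)
    (hm : RelL p m l) :
    ∃ u ∈ cl, (zs (l.map fun c : ℕ => (c : ZMod p))).card = totl p u l + 1 := by
  obtain ⟨u, hu, h1⟩ := anyc_spec h
  have h2 := force_spec h1
  refine ⟨u, hu, ?_⟩
  cases h3 : le (totl p u l) m with
  | true => rw [h3] at h2; simp at h2
  | false =>
    rw [h3] at h2
    simp only [cond_false] at h2
    have h4 := (le_spec (n := p) _ _ hm.1).1 h2
    have h5 : ¬ pc p m ≤ totl p u l := by
      rw [← le_spec (n := p) _ _ hm.1, h3]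
      simp
    rw [← Rel.card hm]
    omega

/-! ### Classes -/

/-- the class of a residue -/
def cls (x : ZMod p) : ℕ := x.valMinAbs.natAbs

theorem cls_cast [NeZero p] (x : ZMod p) : ((cls x : ℕ) : ZMod p) = x ∨
    ((cls x : ℕ) : ZMod p) = -x := by
  unfold cls
  have hcoe : ((x.valMinAbs : ℤ) : ZMod p) = x := ZMod.coe_valMinAbs x
  rcases Int.natAbs_eq x.valMinAbs with h | h
  · left
    have h2 : (((x.valMinAbs.natAbs : ℕ) : ℤ) : ZMod p) = x := by rw [← h]; exact hcoe
    rw [Int.cast_natCast] at h2
    exact h2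
  · right
    have h2 : ((-((x.valMinAbs.natAbs : ℕ) : ℤ) : ℤ) : ZMod p) = x := by rw [← h]; exact hcoe
    rw [Int.cast_neg, Int.cast_natCast] at h2
    rw [← h2, neg_neg]
    rw [h2]

theorem cls_neg [NeZero p] (x : ZMod p) : cls (-x) = cls x := ZMod.natAbs_valMinAbs_neg x

theorem cls_eq_min [NeZero p] (x : ZMod p) : cls x = min x.val (p - x.val) :=
  ZMod.valMinAbs_natAbs_eq_min x

theorem cls_bound [NeZero p] (x : ZMod p) : cls x ≤ p / 2 := ZMod.natAbs_valMinAbs_le x

theorem nrm_eq [NeZero p] (u a : ℕ) : nrm p (u * a % p) = cls ((u : ZMod p) * (a : ZMod p)) := by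
  have hval : ((u : ZMod p) * (a : ZMod p)).val = u * a % p := by
    rw [← Nat.cast_mul, ZMod.val_natCast]
  rw [cls_eq_min, hval, nrm]
  have hlt : u * a % p < p := Nat.mod_lt _ (Nat.pos_of_ne_zero (NeZero.ne p))
  cases hb : Nat.ble (2 * (u * a % p)) p with
  | true =>
    have := Nat.le_of_ble_eq_true hb
    simp only [cond_true]
    omega
  | false =>
    have : ¬ 2 * (u * a % p) ≤ p := by
      intro hle
      have := Nat.ble_eq_true_of_le hle
      rw [hb] at this
      exact Bool.noConfusion this
    simp only [cond_false]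
    omega

theorem totl_eq [NeZero p] (u : ℕ) (l : List ℕ) :
    totl p u l = (l.map fun a : ℕ => cls ((u : ZMod p) * (a : ZMod p))).sum := by
  induction l with
  | nil => rfl
  | cons a l ih => rw [totl, ih, nrm_eq, List.map_cons, List.sum_cons]

/-! ### The final argument -/

theorem cls_one [Fact p.Prime] (hp : 3 ≤ p) : cls (1 : ZMod p) = 1 := by
  have : Fact (1 < p) := ⟨by omega⟩
  rw [cls_eq_min, ZMod.val_one]
  omega

theorem cls_pos [NeZero p] {x : ZMod p} (hx : x ≠ 0) : 1 ≤ cls x := by
  unfold cls
  rw [Nat.one_le_iff_ne_zero, Ne, Int.natAbs_eq_zero, ZMod.valMinAbs_eq_zero]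
  exact hx

theorem eq_or_neg_of_cls [NeZero p] {x y : ZMod p} (h : cls x = cls y) : x = y ∨ x = -y := by
  rcases cls_cast x with h1 | h1 <;> rcases cls_cast y with h2 | h2 <;> rw [h] at h1
  · left; rw [← h1, h2]
  · right; rw [← h1, h2]
  · right
    have : -x = y := by rw [← h1, h2]
    rw [← this, neg_neg]
  · left
    have : -x = -y := by rw [← h1, h2]
    exact neg_injective this

theorem Anti.mono {A B : Finset (ZMod p)} (hB : Anti B) (h : A ⊆ B) : Anti A :=
  fun x hx hx' => hB x (h hx) (h hx')

theorem Anti.ne_zero {B : Finset (ZMod p)} (hB : Anti B) {x : ZMod p} (hx : x ∈ B) : x ≠ 0 := by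
  rintro rfl
  exact hB 0 hx (by rw [neg_zero]; exact hx)

theorem perm_classes {C : Finset (ZMod p)} {φ : ZMod p → ℕ} (hφ : Set.InjOn φ C) {L : List ℕ}
    (hL : L.Nodup) (hmem : ∀ c, c ∈ L ↔ ∃ x ∈ C, φ x = c) : L.Perm (C.toList.map φ) := by
  rw [List.perm_ext_iff_of_nodup hL]
  · intro c
    rw [hmem]
    simp
  · apply List.Nodup.map_on _ C.nodup_toList
    intro x hx y hy hxy
    rw [Finset.mem_toList] at hx hy
    exact hφ hx hy hxy

theorem card_classes [Fact p.Prime] {C : Finset (ZMod p)} {v : ZMod p} (hv : v ≠ 0)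
    {L : List ℕ} (hL : L.Perm (C.toList.map fun x => cls (v * x))) :
    (zs (L.map fun c : ℕ => (c : ZMod p))).card = C.subsetSum.card := by
  have h1 : (L.map fun c : ℕ => (c : ZMod p)).Perm
      ((C.toList.map fun x => cls (v * x)).map fun c : ℕ => (c : ZMod p)) := hL.map _
  have h2 : ((C.toList.map fun x => cls (v * x)).map fun c : ℕ => (c : ZMod p)) =
      ((C.toList.map fun x => v * x).map fun y : ZMod p => ((cls y : ℕ) : ZMod p)) := by
    rw [List.map_map, List.map_map]
    rfl
  rw [zs_perm h1, h2, card_zs_flip _ (fun x => cls_cast x), card_zs_scale v hv,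
    ← zs_toFinset _ C.nodup_toList, Finset.toList_toFinset]

theorem std_of_main [Fact p.Prime] (hp : 5 ≤ p) (n : ℕ) (hn : n + 1 = p / 2)
    (hmain : main p (2 ^ p - 1) (List.range' 2 n) = true)
    (hchain : ∀ B : Finset (ZMod p), Anti B → 4 ≤ B.card → B.card ≤ 7 →
      B.subsetSum.card ≤ B.card * (B.card + 1) / 2 + 4 →
      ∃ x ∈ B, (B.erase x).subsetSum.card + B.card ≤ B.subsetSum.card)
    (B : Finset (ZMod p)) (hB : Anti B) (h7 : B.card = 7) (hs : B.subsetSum.card ≤ 32) :
    Std B := by
  -- the chain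
  obtain ⟨x7, hx7, c7⟩ := hchain B hB (by omega) (by omega) (by rw [h7]; omega)
  rw [h7] at c7
  have hB6 : Anti (B.erase x7) := Anti.mono hB (erase_subset _ _)
  have k6 : (B.erase x7).card = 6 := by rw [card_erase_of_mem hx7, h7]
  obtain ⟨x6, hx6, c6⟩ := hchain (B.erase x7) hB6 (by omega) (by omega) (by rw [k6]; omega)
  rw [k6] at c6
  set B5 := (B.erase x7).erase x6 with hB5def
  have hB5 : Anti B5 := Anti.mono hB6 (erase_subset _ _)
  have k5 : B5.card = 5 := by rw [hB5def, card_erase_of_mem hx6, k6]
  obtain ⟨x5, hx5, c5⟩ := hchain B5 hB5 (by omega) (by omega) (by rw [k5]; omega)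
  rw [k5] at c5
  set B4 := B5.erase x5 with hB4def
  have hB4 : Anti B4 := Anti.mono hB5 (erase_subset _ _)
  have k4 : B4.card = 4 := by rw [hB4def, card_erase_of_mem hx5, k5]
  have s4 : B4.subsetSum.card ≤ 14 := by omega
  have s5 : B5.subsetSum.card ≤ 19 := by omega
  have s6 : (B.erase x7).subsetSum.card ≤ 25 := by omega
  -- inclusions
  have i5 : B5 ⊆ B.erase x7 := erase_subset _ _
  have i4 : B4 ⊆ B5 := erase_subset _ _
  have i6 : B.erase x7 ⊆ B := erase_subset _ _
  have i5' : B5 ⊆ B := i5.trans i6
  have i4' : B4 ⊆ B := i4.trans i5'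
  -- normalisation
  obtain ⟨g, hg⟩ : B4.Nonempty := by
    rw [← card_pos, k4]; norm_num
  have hg0 : g ≠ 0 := Anti.ne_zero hB4 hg
  have hv : g⁻¹ ≠ 0 := inv_ne_zero hg0
  set φ : ZMod p → ℕ := fun x => cls (g⁻¹ * x) with hφdef
  have hφg : φ g = 1 := by
    simp only [hφdef]
    rw [inv_mul_cancel₀ hg0]
    exact cls_one (by omega)
  have hφ1 : ∀ x ∈ B, 1 ≤ φ x := fun x hx => cls_pos (mul_ne_zero hv (Anti.ne_zero hB hx))
  have hφ2 : ∀ x, φ x ≤ p / 2 := fun x => cls_bound _
  have hφinj : Set.InjOn φ B := by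
    intro x hx y hy hxy
    rcases eq_or_neg_of_cls hxy with h | h
    · exact mul_left_cancel₀ hv h
    · have h2 : g⁻¹ * x = g⁻¹ * (-y) := by rw [h, mul_neg]
      have h3 := mul_left_cancel₀ hv h2
      exact absurd (by rw [← h3]; exact hx : -y ∈ B) (hB y hy)
  -- the three other classes of B4
  set N := (B4.erase g).image φ with hN
  have hNcard : N.card = 3 := by
    rw [hN, card_image_of_injOn, card_erase_of_mem hg, k4]
    exact hφinj.mono (fun x hx => i4' (erase_subset _ _ hx))
  have hNmem : ∀ c ∈ N, 2 ≤ c ∧ c ≤ p / 2 := by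
    intro c hc
    rw [hN, mem_image] at hc
    obtain ⟨x, hx, rfl⟩ := hc
    rw [mem_erase] at hx
    refine ⟨?_, hφ2 x⟩
    have h1 := hφ1 x (i4' hx.2)
    have h2 : φ x ≠ 1 := by
      intro h
      exact hx.1 (hφinj (i4' hx.2) (i4' hg) (h.trans hφg.symm))
    omega
  have hNne : N.Nonempty := by rw [← card_pos, hNcard]; norm_num
  set a := N.min' hNne with ha
  have haN : a ∈ N := min'_mem _ _
  have hN1card : (N.erase a).card = 2 := by rw [card_erase_of_mem haN, hNcard]
  have hN1ne : (N.erase a).Nonempty := by rw [← card_pos, hN1card]; norm_num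
  set b := (N.erase a).min' hN1ne with hb
  have hbN1 : b ∈ N.erase a := min'_mem _ _
  have hN2card : ((N.erase a).erase b).card = 1 := by rw [card_erase_of_mem hbN1, hN1card]
  obtain ⟨c, hc⟩ := card_eq_one.mp hN2card
  have hcN2 : c ∈ (N.erase a).erase b := by rw [hc]; exact mem_singleton_self c
  have hab : a < b := by
    rw [mem_erase] at hbN1
    exact lt_of_le_of_ne (min'_le _ _ hbN1.2) (Ne.symm hbN1.1)
  have hbc : b < c := by
    rw [mem_erase] at hcN2
    exact lt_of_le_of_ne (min'_le _ _ hcN2.2) (Ne.symm hcN2.1)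
  have hbN : b ∈ N := mem_of_mem_erase hbN1
  have hcN : c ∈ N := mem_of_mem_erase (mem_of_mem_erase hcN2)
  have hNabc : ∀ z, z ∈ N ↔ z = c ∨ z = b ∨ z = a := by
    intro z
    constructor
    · intro hz
      by_cases h1 : z = a
      · exact Or.inr (Or.inr h1)
      · by_cases h2 : z = b
        · exact Or.inr (Or.inl h2)
        · left
          have : z ∈ (N.erase a).erase b := mem_erase.mpr ⟨h2, mem_erase.mpr ⟨h1, hz⟩⟩
          rw [hc] at this
          exact mem_singleton.mp this
    · rintro (rfl | rfl | rfl)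
      · exact hcN
      · exact hbN
      · exact haN
  have ha2 := hNmem a haN
  have hb2 := hNmem b hbN
  have hc2 := hNmem c hcN
  have hhalf : p / 2 < p := by omega
  -- the list of classes of B4
  have m4 : ∀ z, z ∈ [c, b, a, 1] ↔ ∃ x ∈ B4, φ x = z := by
    intro z
    simp only [List.mem_cons, List.not_mem_nil, or_false]
    constructor
    · rintro (rfl | rfl | rfl | rfl)
      · rw [hN, mem_image] at hcN
        obtain ⟨x, hx, h⟩ := hcN
        exact ⟨x, mem_of_mem_erase hx, h⟩
      · rw [hN, mem_image] at hbN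
        obtain ⟨x, hx, h⟩ := hbN
        exact ⟨x, mem_of_mem_erase hx, h⟩
      · rw [hN, mem_image] at haN
        obtain ⟨x, hx, h⟩ := haN
        exact ⟨x, mem_of_mem_erase hx, h⟩
      · exact ⟨g, hg, hφg⟩
    · rintro ⟨x, hx, rfl⟩
      by_cases hxg : x = g
      · subst hxg
        exact Or.inr (Or.inr (Or.inr hφg))
      · have : φ x ∈ N := by
          rw [hN]
          exact mem_image_of_mem _ (mem_erase.mpr ⟨hxg, hx⟩)
        rcases (hNabc _).1 this with h | h | h
        · exact Or.inl h
        · exact Or.inr (Or.inl h)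
        · exact Or.inr (Or.inr (Or.inl h))
  have d4 : [c, b, a, 1].Nodup := by
    simp only [List.nodup_cons, List.mem_cons, List.not_mem_nil, or_false, not_or,
      not_false_eq_true, List.nodup_nil, and_true]
    omega
  -- extension by one class
  have ext : ∀ (C : Finset (ZMod p)) (x : ZMod p) (L : List ℕ), C ⊆ B → x ∈ C →
      (∀ z, z ∈ L ↔ ∃ y ∈ C.erase x, φ y = z) → L.Nodup →
      (∀ z, z ∈ φ x :: L ↔ ∃ y ∈ C, φ y = z) ∧ (φ x :: L).Nodup ∧ φ x ∉ L := by
    intro C x L hC hx hL hLn
    have hnot : φ x ∉ L := by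
      rw [hL]
      rintro ⟨y, hy, hyx⟩
      rw [mem_erase] at hy
      exact hy.1 (hφinj (hC hy.2) (hC hx) hyx)
    refine ⟨?_, List.nodup_cons.mpr ⟨hnot, hLn⟩, hnot⟩
    intro z
    rw [List.mem_cons, hL]
    constructor
    · rintro (rfl | ⟨y, hy, rfl⟩)
      · exact ⟨x, hx, rfl⟩
      · exact ⟨y, mem_of_mem_erase hy, rfl⟩
    · rintro ⟨y, hy, rfl⟩
      by_cases hyx : y = x
      · subst hyx; exact Or.inl rfl
      · exact Or.inr ⟨y, mem_erase.mpr ⟨hyx, hy⟩, rfl⟩
  obtain ⟨m5, d5, n5⟩ := ext B5 x5 _ i5' hx5 m4 d4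
  obtain ⟨m6, d6, n6⟩ := ext (B.erase x7) x6 _ i6 hx6 m5 d5
  obtain ⟨m7, d7, n7⟩ := ext B x7 _ (Subset.refl B) hx7 m6 d6
  have q4 := card_classes hv (perm_classes (hφinj.mono i4') d4 m4)
  have q5 := card_classes hv (perm_classes (hφinj.mono i5') d5 m5)
  have q6 := card_classes hv (perm_classes (hφinj.mono i6) d6 m6)
  have P7 := perm_classes hφinj d7 m7
  have q7 := card_classes hv P7
  -- run the search
  have t1 := force_spec (tails_spec n 2 hmain a (by omega) (by omega))
  have t2 := force_spec (tails_spec _ _ t1 b (by omega) (by omega))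
  have t3 := force_spec (tails_spec _ _ t2 c (by omega) (by omega))
  have r1 := relL_one (p := p) (by omega)
  have r2 := r1.step a (by omega) (by omega)
  have r3 := r2.step b (by omega) (by omega)
  have r4 := r3.step c (by omega) (by omega)
  have l4 : le 14 (step p (2 ^ p - 1) (step p (2 ^ p - 1) (step p (2 ^ p - 1) 3 a) b) c) = true := by
    rw [le_spec (n := p) 14 _ r4.1, Rel.card r4]
    exact q4.trans_le s4
  rw [l4] at t3
  simp only [cond_true] at t3
  have hcl : ∀ f ∈ 1 :: List.range' 2 n, 1 ≤ f ∧ f < p := by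
    intro f hf
    rw [List.mem_cons, List.mem_range'_1] at hf
    omega
  have hin : ∀ x ∈ B, φ x ∈ 1 :: List.range' 2 n := by
    intro x hx
    rw [List.mem_cons, List.mem_range'_1]
    have h1 := hφ1 x hx
    have h2 := hφ2 x
    omega
  obtain ⟨w5, R5, T5⟩ := lev_spec hcl t3 r4 (hin x5 (i5' hx5)) n5 (q5.trans_le s5)
  obtain ⟨w6, R6, T6⟩ := lev_spec hcl T5 R5 (hin x6 (i6 hx6)) n6 (q6.trans_le s6)
  obtain ⟨w7, R7, T7⟩ := lev_spec hcl T6 R6 (hin x7 hx7) n7 (q7.trans_le hs)
  obtain ⟨u, hu, hfin⟩ := leaf_spec T7 R7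
  have hu' := hcl u hu
  refine ⟨(u : ZMod p) * g⁻¹, mul_ne_zero ?_ hv, ?_⟩
  · rw [Ne, ZMod.natCast_eq_zero_iff]
    intro hdvd
    have := Nat.le_of_dvd (by omega) hdvd
    omega
  · rw [q7] at hfin
    rw [hfin, totl_eq, (P7.map _).sum_eq, List.map_map]
    congr 1
    rw [tot, ← Finset.sum_map_toList]
    congr 1
    apply List.map_congr_left
    intro x _
    simp only [Function.comp, hφdef]
    change cls _ = cls _
    rcases cls_cast (g⁻¹ * x) with h | h
    · rw [h, mul_assoc]
    · rw [h, mul_neg, cls_neg, mul_assoc]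

/-! ### The two primes -/

/-- The class labels `2, …, 35` for `p = 71`. -/
def cl71 : List ℕ := [2, 3, 4, 5, 6, 7, 8, 9, 10, 11, 12, 13, 14, 15, 16, 17, 18, 19, 20, 21, 22,
  23, 24, 25, 26, 27, 28, 29, 30, 31, 32, 33, 34, 35]

/-- The class labels `2, …, 36` for `p = 73`. -/
def cl73 : List ℕ := [2, 3, 4, 5, 6, 7, 8, 9, 10, 11, 12, 13, 14, 15, 16, 17, 18, 19, 20, 21, 22,
  23, 24, 25, 26, 27, 28, 29, 30, 31, 32, 33, 34, 35, 36]

set_option maxHeartbeats 0 in
theorem main71 : main 71 2361183241434822606847 cl71 = true := by decide +kernel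

set_option maxHeartbeats 0 in
theorem main73 : main 73 9444732965739290427391 cl73 = true := by decide +kernel

/-- Block S (verified search at two primes). -/
theorem std_seven {p : ℕ} [Fact p.Prime] (hp : p = 71 ∨ p = 73)
    (hchain : ∀ B : Finset (ZMod p), Anti B → 4 ≤ B.card → B.card ≤ 7 →
      B.subsetSum.card ≤ B.card * (B.card + 1) / 2 + 4 →
      ∃ x ∈ B, (B.erase x).subsetSum.card + B.card ≤ B.subsetSum.card)
    (B : Finset (ZMod p)) (hB : Anti B) (h7 : B.card = 7) (hs : B.subsetSum.card ≤ 32) :
    Std B := by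
  rcases hp with rfl | rfl
  · refine std_of_main (by norm_num) 34 (by norm_num) ?_ hchain B hB h7 hs
    have h1 : (2 ^ 71 - 1 : ℕ) = 2361183241434822606847 := by norm_num
    have h2 : List.range' 2 34 = cl71 := by decide
    rw [h1, h2]
    exact main71
  · refine std_of_main (by norm_num) 35 (by norm_num) ?_ hchain B hB h7 hs
    have h1 : (2 ^ 73 - 1 : ℕ) = 9444732965739290427391 := by norm_num
    have h2 : List.range' 2 35 = cl73 := by decide
    rw [h1, h2]
    exact main73

end Pool.Agent.MP_116850_co.BlockS
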