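import Pool.Agent.MP_116850_co.Defs
import Pool.Agent.MP_116850_co.BlockS
import Pool.Agent.MP_116850_co.BlockD

set_option autoImplicit false

namespace Pool.Agent.MP_116850_co

/-- Block D (small primes, verified search). -/
theorem good_small (p : ℕ) (hp : p.Prime) (h2 : p ≠ 2) (h17 : p ≠ 17) (h43 : p ≤ 43) :
    Good p := BlockD.good_small p hp h2 h17 h43

theorem not_good_17 : ¬ Good 17 := BlockD.not_good_17

/-- Block S (verified search at two primes). -/
theorem std_seven {p : ℕ} [Fact p.Prime] (hp : p = 71 ∨ p = 73)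
    (hchain : ∀ B : Finset (ZMod p), Anti B → 4 ≤ B.card → B.card ≤ 7 →
      B.subsetSum.card ≤ B.card * (B.card + 1) / 2 + 4 →
      ∃ x ∈ B, (B.erase x).subsetSum.card + B.card ≤ B.subsetSum.card)
    (B : Finset (ZMod p)) (hB : Anti B) (h7 : B.card = 7) (hs : B.subsetSum.card ≤ 32) :
    Std B := BlockS.std_seven hp hchain B hB h7 hs

end Pool.Agent.MP_116850_co
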