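import Pool.Agent.MP_116850_co.Steps2
import Pool.Agent.MP_116850_co.SpecDS

set_option autoImplicit false

namespace Pool.Agent.MP_116850_co

open Finset
open scoped Pointwise

variable {p : ℕ}

/-- splitting a set into two sets without opposite elements -/
theorem split_anti [hp : Fact p.Prime] (h2p : p ≠ 2) (n : ℕ) : ∀ D : Finset (ZMod p),
    D.card = n → (0 : ZMod p) ∉ D → ∃ N X : Finset (ZMod p), N ⊆ D ∧ X ⊆ D ∧ Disjoint N X ∧
      Anti N ∧ Anti X ∧ N.card = n - n / 2 ∧ X.card = n / 2 := by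
  have hp2 : (2 : ZMod p) ≠ 0 := by
    intro h
    have : (p : ℕ) ∣ 2 := (ZMod.natCast_eq_zero_iff 2 p).mp (by exact_mod_cast h)
    exact h2p ((Nat.prime_dvd_prime_iff_eq hp.out Nat.prime_two).mp this)
  induction n using Nat.strong_induction_on with
  | _ n ih =>
    intro D hD h0
    by_cases hA : Anti D
    · obtain ⟨X, hX, hXc⟩ := exists_subset_card_eq (s := D) (n := n / 2) (by omega)
      refine ⟨D \ X, X, sdiff_subset, hX, sdiff_disjoint, hA.subset sdiff_subset, hA.subset hX,
        ?_, hXc⟩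
      rw [card_sdiff_of_subset hX, hXc, hD]
    · unfold Anti at hA
      push Not at hA
      obtain ⟨x, hx, hnx⟩ := hA
      have hx0 : x ≠ 0 := fun h => h0 (h ▸ hx)
      have hne : x ≠ -x := by
        intro h
        have h3 : (2 : ZMod p) * x = 0 := by
          rw [two_mul]
          nth_rewrite 1 [h]
          ring
        rcases mul_eq_zero.mp h3 with h | h
        · exact hp2 h
        · exact hx0 h
      have hc : ((D.erase x).erase (-x)).card = n - 2 := by
        rw [card_erase_of_mem (mem_erase.mpr ⟨hne.symm, hnx⟩), card_erase_of_mem hx, hD]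
        omega
      have hn2 : 2 ≤ n := by
        have : ({x, -x} : Finset (ZMod p)) ⊆ D := by
          intro y hy
          rcases mem_insert.mp hy with rfl | hy
          · exact hx
          · rw [mem_singleton] at hy; rw [hy]; exact hnx
        have := card_le_card this
        rw [card_pair hne] at this
        omega
      obtain ⟨N, X, hN, hX, hd, aN, aX, cN, cX⟩ := ih (n - 2) (by omega) _ hc
        (fun h => h0 (mem_of_mem_erase (mem_of_mem_erase h)))
      have hsub : (D.erase x).erase (-x) ⊆ D := (erase_subset _ _).trans (erase_subset _ _)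
      have hxN : x ∉ N := fun h => by
        have := hN h
        simp at this
      have hxX : x ∉ X := fun h => by
        have := hX h
        simp at this
      have hnN : -x ∉ N := fun h => by
        have := hN h
        simp at this
      have hnX : -x ∉ X := fun h => by
        have := hX h
        simp at this
      refine ⟨insert x N, insert (-x) X, ?_, ?_, ?_, ?_, ?_, ?_, ?_⟩
      · exact insert_subset hx (hN.trans hsub)
      · exact insert_subset hnx (hX.trans hsub)
      · rw [disjoint_insert_left, disjoint_insert_right]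
        refine ⟨?_, hnN, hd⟩
        rw [mem_insert]
        push Not
        exact ⟨hne, hxX⟩
      · intro y hy hny
        rcases mem_insert.mp hy with rfl | hy
        · rcases mem_insert.mp hny with h | h
          · exact hne h.symm
          · exact hnN h
        · rcases mem_insert.mp hny with h | h
          · apply hnN
            rw [← h, neg_neg]
            exact hy
          · exact aN y hy h
      · intro y hy hny
        rcases mem_insert.mp hy with rfl | hy
        · rcases mem_insert.mp hny with h | h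
          · rw [neg_neg] at h; exact hne h
          · rw [neg_neg] at h; exact hxX h
        · rcases mem_insert.mp hny with h | h
          · apply hxX
            rw [neg_inj] at h
            rw [← h]
            exact hy
          · exact aX y hy h
      · rw [card_insert_of_notMem hxN, cN]; omega
      · rw [card_insert_of_notMem hnX, cX]; omega

/-- disjoint subsets of a non-spanning set -/
theorem cd_pair [hp : Fact p.Prime] {D N X : Finset (ZMod p)} (hD : ∃ c, c ∉ D.subsetSum)
    (hN : N ⊆ D) (hX : X ⊆ D) (hd : Disjoint N X) :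
    N.subsetSum.card + X.subsetSum.card ≤ p := by
  obtain ⟨c, hc⟩ := hD
  have hsub : N.subsetSum + X.subsetSum ⊆ (univ : Finset (ZMod p)).erase c := by
    intro a ha
    rw [mem_add] at ha
    obtain ⟨y, hy, z, hz, rfl⟩ := ha
    rw [mem_erase]
    refine ⟨?_, mem_univ _⟩
    rintro rfl
    apply hc
    rw [mem_subsetSum_iff] at hy hz ⊢
    obtain ⟨Y, hY, rfl⟩ := hy
    obtain ⟨Z, hZ, rfl⟩ := hz
    refine ⟨Y ∪ Z, union_subset (hY.trans hN) (hZ.trans hX), ?_⟩
    rw [sum_union (disjoint_of_subset_left hY (disjoint_of_subset_right hZ hd))]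
  have h1 := card_le_card hsub
  rw [card_erase_of_mem (mem_univ _), card_univ, ZMod.card] at h1
  have h2 := ZMod.cauchy_davenport hp.out (subsetSum_nonempty (A := N))
    (subsetSum_nonempty (A := X))
  have := hp.out.pos
  omega

/-- numeric version of `finish` -/
theorem finish' [hp : Fact p.Prime] (h2p : p ≠ 2) {D N X : Finset (ZMod p)}
    (hD : ∃ c, c ∉ D.subsetSum) (hN : N ⊆ D) (hX : X ⊆ D) (hd : Disjoint N X)
    (aN : Anti N) (aX : Anti X) (hstd : Std N) (k w : ℕ) (hk : N.card = k) (hw : w + 1 ≤ X.card)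
    (hPk : P1 p k) (hPw : P1 p w)
    (hnum : 2 * p < w * (w + 1) + 2 + 2 * (k * (k + 1) + 2)) (hnum2 : p ≤ 2 * (k * (k + 1) + 2)) :
    ∃ u : ZMod p, u ≠ 0 ∧ tot u D + 2 ≤ p := by
  refine finish h2p D N X hD hN hstd ?_ ?_
  · intro x hx
    rw [mem_sdiff]
    exact ⟨hX hx, fun h => (disjoint_left.mp hd) h hx⟩
  · intro W hW hWc
    obtain ⟨W', hW', hWc'⟩ := exists_subset_card_eq (s := W) (n := w) (by omega)
    have h1 : W'.subsetSum.card ≤ W.subsetSum.card := card_le_card (subsetSum_mono hW')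
    have h2 := subsetSum_card_pos W
    have aW' : Anti W' := aX.subset (hW'.trans hW)
    by_cases hL : 2 * N.subsetSum.card ≤ p
    · have h3 := hPk N aN hk hL
      by_cases hW2 : 2 * W'.subsetSum.card ≤ p
      · have h4 := hPw W' aW' hWc' hW2
        omega
      · omega
    · omega

theorem asm_even [hp : Fact p.Prime] (h2p : p ≠ 2) (k s J : ℕ) (hpk : p = k * k + k + 2 + s)
    (hs : s ≤ k) (hk : 3 ≤ k) (hJ3 : 3 ≤ J) (hJ : s + 6 < 2 * min k J)
    (hR2 : ∀ j, 2 ≤ j → j ≤ k → R2 p j) (hR1 : ∀ j, 4 ≤ j → j ≤ k → j ≤ J → R1 p j)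
    {D N X : Finset (ZMod p)} (hD : ∃ c, c ∉ D.subsetSum) (hN : N ⊆ D) (hX : X ⊆ D)
    (hd : Disjoint N X) (aN : Anti N) (aX : Anti X) (cN : N.card = k) (cX : X.card = k) :
    ∃ u : ZMod p, u ≠ 0 ∧ tot u D + 2 ≤ p := by
  have hP1 := p1_all h2p k hR2
  have hP2 := p2_all h2p J k hJ3 hR2 hR1
  wlog hle : N.subsetSum.card ≤ X.subsetSum.card generalizing N X
  · exact this hX hN hd.symm aX aN cX cN (by omega)
  have h1 := cd_pair hD hN hX hd
  have h2 : 2 * N.subsetSum.card ≤ p := by omega
  have e1 : k * (k + 1) = k * k + k := by ring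
  have hstd : Std N := by
    by_contra hns
    have h3 := hP2 k le_rfl N aN cN h2 hns
    rw [e1] at h3
    omega
  have hkk : 3 * k ≤ k * k := Nat.mul_le_mul_right k hk
  obtain ⟨i, rfl⟩ : ∃ i, k = i + 1 := ⟨k - 1, by omega⟩
  refine finish' h2p hD hN hX hd aN aX hstd (i + 1) i cN (by omega) (hP1 _ le_rfl)
    (hP1 i (by omega)) ?_ ?_
  · nlinarith
  · nlinarith

theorem asm_even_drop [hp : Fact p.Prime] (h2p : p ≠ 2) (i s J : ℕ)
    (hpk : p = (i + 1) * (i + 1) + (i + 1) + 2 + s)
    (hi : 4 ≤ i) (hJ3 : 4 ≤ J) (hJ : s + 8 < 2 * min i J)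
    (hnum : 5 * (i + 1) + 2 * s < (i + 1) * (i + 1) + 2)
    (hR2 : ∀ j, 2 ≤ j → j ≤ i → R2 p j) (hR1 : ∀ j, 4 ≤ j → j ≤ i → j ≤ J → R1 p j)
    {D N X : Finset (ZMod p)} (hD : ∃ c, c ∉ D.subsetSum) (hN : N ⊆ D) (hX : X ⊆ D)
    (hd : Disjoint N X) (aN : Anti N) (aX : Anti X) (cN : N.card = i + 1)
    (cX : X.card = i + 1) :
    ∃ u : ZMod p, u ≠ 0 ∧ tot u D + 2 ≤ p := by
  have hP1 := p1_all h2p i hR2
  have hP2 := p2_all h2p J i (by omega) hR2 hR1
  wlog hle : N.subsetSum.card ≤ X.subsetSum.card generalizing N X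
  · exact this hX hN hd.symm aX aN cX cN (by omega)
  have h1 := cd_pair hD hN hX hd
  have h2 : 2 * N.subsetSum.card ≤ p := by omega
  have hstd : ∃ x ∈ N, Std (N.erase x) := by
    by_contra hns
    push Not at hns
    have hpar : ∀ x ∈ N, i * (i + 1) + 2 + 2 * min i J ≤
        2 * (N.erase x).subsetSum.card + 6 := by
      intro x hx
      have h3 : (N.erase x).subsetSum.card ≤ N.subsetSum.card :=
        card_le_card (subsetSum_mono (erase_subset x N))
      exact hP2 i le_rfl _ (aN.erase x) (by rw [card_erase_of_mem hx, cN]; rfl) (by omega)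
        (hns x hx)
    have hmono : ∀ x ∈ N, (N.erase x).subsetSum.card ≤ N.subsetSum.card := fun x _ =>
      card_le_card (subsetSum_mono (erase_subset x N))
    have hne : N.Nonempty := card_pos.mp (by omega)
    obtain ⟨x0, hx0⟩ := hne
    have h3 := hpar x0 hx0
    have h3' := hmono x0 hx0
    have e1 : N.card * (N.card - 1) = i * (i + 1) := by
      rw [cN, show i + 1 - 1 = i by omega]; ring
    have e2 : (i + 1) * (i + 1) = i * (i + 1) + (i + 1) := by ring
    obtain ⟨x, hx, hxs⟩ := cd_step aN (by omega) (by rw [e1]; omega) (by rw [e1]; omega)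
    have h4 := hpar x hx
    rw [cN] at hxs
    omega
  obtain ⟨x, hx, hstd⟩ := hstd
  refine finish' h2p hD ((erase_subset x N).trans hN) hX
    (disjoint_of_subset_left (erase_subset x N) hd) (aN.erase x) aX hstd i i
    (by rw [card_erase_of_mem hx, cN]; rfl) (by omega) (hP1 _ le_rfl) (hP1 i (by omega)) ?_ ?_
  · nlinarith
  · nlinarith

/-- the final step in the odd case -/
theorem odd_finish [hp : Fact p.Prime] (h2p : p ≠ 2) (i s : ℕ)
    (hpk : p = (i + 2) * (i + 2) + 2 + s) (hi : 5 ≤ i) (hs : s ≤ i + 2)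
    (hP1 : ∀ j ≤ i + 1, P1 p j)
    {D N X : Finset (ZMod p)} (hD : ∃ c, c ∉ D.subsetSum) (hN : N ⊆ D) (hX : X ⊆ D)
    (hd : Disjoint N X) (aN : Anti N) (aX : Anti X) (cN : N.card = i + 2)
    (cX : X.card = i + 1) (hstd : Std X ∨ ∃ x ∈ N, Std (N.erase x)) :
    ∃ u : ZMod p, u ≠ 0 ∧ tot u D + 2 ≤ p := by
  rcases hstd with hstd | ⟨x, hx, hstd⟩
  · refine finish' h2p hD hX hN hd.symm aX aN hstd (i + 1) (i + 1) cX (by omega)
      (hP1 _ le_rfl) (hP1 _ le_rfl) ?_ ?_
    · nlinarith
    · nlinarith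
  · refine finish' h2p hD ((erase_subset x N).trans hN) hX
      (disjoint_of_subset_left (erase_subset x N) hd) (aN.erase x) aX hstd (i + 1) i
      (by rw [card_erase_of_mem hx, cN]; rfl) (by omega) (hP1 _ le_rfl) (hP1 i (by omega)) ?_ ?_
    · nlinarith
    · nlinarith

/-- one of the two sets is standard (odd case) -/
theorem odd_std [hp : Fact p.Prime] (i s μ : ℕ)
    (hpk : p = (i + 2) * (i + 2) + 2 + s) (hi : 5 ≤ i) (hμ : 4 ≤ μ)
    (hs : s + 8 ≤ 2 * μ)
    (hP2 : ∀ B : Finset (ZMod p), Anti B → B.card = i + 1 → 2 * B.subsetSum.card ≤ p →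
      ¬ Std B → (i + 1) * (i + 2) + 2 + 2 * μ ≤ 2 * B.subsetSum.card + 6)
    {D N X : Finset (ZMod p)} (hD : ∃ c, c ∉ D.subsetSum) (hN : N ⊆ D) (hX : X ⊆ D)
    (hd : Disjoint N X) (aN : Anti N) (aX : Anti X) (cN : N.card = i + 2)
    (cX : X.card = i + 1) : Std X ∨ ∃ x ∈ N, Std (N.erase x) := by
  by_contra hcon
  push Not at hcon
  obtain ⟨hnX, hnN⟩ := hcon
  have h1 := cd_pair hD hN hX hd
  have e2 : (i + 2) * (i + 2) = (i + 1) * (i + 2) + (i + 2) := by ring
  have e1 : N.card * (N.card - 1) = (i + 1) * (i + 2) := by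
    rw [cN, show i + 2 - 1 = i + 1 by omega]; ring
  have hmono : ∀ x ∈ N, (N.erase x).subsetSum.card ≤ N.subsetSum.card := fun x _ =>
    card_le_card (subsetSum_mono (erase_subset x N))
  have hcard : ∀ x ∈ N, (N.erase x).card = i + 1 := fun x hx => by
    rw [card_erase_of_mem hx, cN]; rfl
  have hne : N.Nonempty := card_pos.mp (by omega)
  obtain ⟨x0, hx0⟩ := hne
  have h3' := hmono x0 hx0
  by_cases hX2 : 2 * X.subsetSum.card ≤ p
  · have h2 := hP2 X aX cX hX2 hnX
    have h4 : (i + 1) * (i + 2) + 4 ≤ 2 * N.subsetSum.card := by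
      by_contra hcon
      have := hP2 _ (aN.erase x0) (hcard x0 hx0) (by omega) (hnN x0 hx0)
      omega
    obtain ⟨x, hx, hxs⟩ := cd_step aN (by omega) (by rw [e1]; omega) (by rw [e1]; omega)
    rw [cN] at hxs
    have := hP2 _ (aN.erase x) (hcard x hx) (by omega) (hnN x hx)
    omega
  · have h4 : (i + 1) * (i + 2) + 4 ≤ 2 * N.subsetSum.card := by
      by_contra hcon
      have := hP2 _ (aN.erase x0) (hcard x0 hx0) (by omega) (hnN x0 hx0)
      omega
    obtain ⟨x, hx, hxs⟩ := cd_step aN (by omega) (by rw [e1]; omega) (by rw [e1]; omega)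
    rw [cN] at hxs
    have := hP2 _ (aN.erase x) (hcard x hx) (by omega) (hnN x hx)
    omega

end Pool.Agent.MP_116850_co
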