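import Pool.Agent.MP_116850_co.Defs

set_option autoImplicit false

namespace Pool.Agent.MP_116850_co

open Finset
open scoped Pointwise

variable {p : ℕ}

lemma subsetSum_insert {M : Type*} [DecidableEq M] [AddCommMonoid M] (B : Finset M) (x : M)
    (hx : x ∉ B) :
    (insert x B).subsetSum = B.subsetSum ∪ B.subsetSum.image (fun s => s + x) := by
  ext a
  simp only [mem_subsetSum_iff, mem_union, mem_image]
  constructor
  · rintro ⟨C, hC, rfl⟩
    by_cases hxC : x ∈ C
    · right
      refine ⟨∑ b ∈ C.erase x, b, ⟨C.erase x, ?_, rfl⟩, ?_⟩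
      · intro y hy
        rw [mem_erase] at hy
        rcases mem_insert.mp (hC hy.2) with h | h
        · exact absurd h hy.1
        · exact h
      · rw [sum_erase_add _ _ hxC]
    · left
      refine ⟨C, ?_, rfl⟩
      intro y hy
      rcases mem_insert.mp (hC hy) with h | h
      · exact absurd (h ▸ hy) hxC
      · exact h
  · rintro (⟨C, hC, rfl⟩ | ⟨_, ⟨C, hC, rfl⟩, rfl⟩)
    · exact ⟨C, hC.trans (subset_insert _ _), rfl⟩
    · refine ⟨insert x C, insert_subset_insert _ hC, ?_⟩
      rw [sum_insert (fun h => hx (hC h)), add_comm]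

lemma subsetSum_erase {M : Type*} [DecidableEq M] [AddCommMonoid M] (B : Finset M) (x : M)
    (hx : x ∈ B) :
    B.subsetSum = (B.erase x).subsetSum ∪ (B.erase x).subsetSum.image (fun s => s + x) := by
  rw [← subsetSum_insert (B.erase x) x (notMem_erase x B), insert_erase hx]

lemma subsetSum_empty' {M : Type*} [DecidableEq M] [AddCommMonoid M] :
    (∅ : Finset M).subsetSum = {0} := by
  ext a
  simp only [mem_subsetSum_iff, subset_empty, mem_singleton]
  constructor
  · rintro ⟨_, rfl, rfl⟩; simp
  · rintro rfl; exact ⟨∅, rfl, by simp⟩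

lemma subsetSum_card_pos {M : Type*} [DecidableEq M] [AddCommMonoid M] (B : Finset M) :
    0 < B.subsetSum.card := card_pos.mpr subsetSum_nonempty

lemma card_image_add (S : Finset (ZMod p)) (x : ZMod p) :
    (S.image (fun s => s + x)).card = S.card :=
  card_image_of_injective _ (fun a b h => by simpa using h)

/-- `lam` as a difference of cardinals -/
lemma lam_eq (S : Finset (ZMod p)) (x : ZMod p) :
    lam S x + S.card = (S ∪ S.image (fun s => s + x)).card := by
  unfold lam
  rw [union_comm, ← sdiff_union_self_eq_union, card_union_of_disjoint sdiff_disjoint]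

lemma lam_le_card (S : Finset (ZMod p)) (x : ZMod p) : lam S x ≤ S.card := by
  unfold lam
  calc _ ≤ (S.image (fun s => s + x)).card := card_le_card sdiff_subset
    _ = S.card := card_image_add S x

@[simp] lemma lam_zero (S : Finset (ZMod p)) : lam S 0 = 0 := by
  unfold lam; simp

lemma lam_neg (S : Finset (ZMod p)) (x : ZMod p) : lam S (-x) = lam S x := by
  have h1 := lam_eq S x
  have h2 := lam_eq S (-x)
  have h3 : (S ∪ S.image (fun s => s + -x)).image (fun s => s + x)
      = S ∪ S.image (fun s => s + x) := by
    rw [image_union, image_image, union_comm,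
      show ((fun s : ZMod p => s + x) ∘ fun s => s + -x) = id from by ext; simp, image_id]
  have h4 := card_image_add (S ∪ S.image (fun s => s + -x)) x
  rw [h3] at h4
  omega

lemma lam_add (S : Finset (ZMod p)) (x y : ZMod p) : lam S (x + y) ≤ lam S x + lam S y := by
  unfold lam
  have : (S.image (fun s => s + (x + y))) \ S ⊆
      (((S.image (fun s => s + x)) \ S).image (fun s => s + y)) ∪
        ((S.image (fun s => s + y)) \ S) := by
    intro a ha
    rw [mem_sdiff, mem_image] at ha
    obtain ⟨⟨s, hs, rfl⟩, hn⟩ := ha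
    rw [mem_union]
    by_cases hsx : s + x ∈ S
    · right
      rw [mem_sdiff, mem_image]
      exact ⟨⟨s + x, hsx, by ring⟩, hn⟩
    · left
      rw [mem_image]
      exact ⟨s + x, by rw [mem_sdiff, mem_image]; exact ⟨⟨s, hs, rfl⟩, hsx⟩, by ring⟩
  calc _ ≤ _ := card_le_card this
    _ ≤ _ := card_union_le _ _
    _ = _ := by rw [card_image_add]

/-- key monotonicity: shifting `Σ B` by an element of `B` -/
lemma lam_subsetSum (B : Finset (ZMod p)) (x : ZMod p) (hx : x ∈ B) :
    lam B.subsetSum x + (B.erase x).subsetSum.card ≤ B.subsetSum.card := by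
  set S := (B.erase x).subsetSum with hS
  have h0 : B.subsetSum = S ∪ S.image (fun s => s + x) := subsetSum_erase B x hx
  have h1 : lam S x + S.card = B.subsetSum.card := by rw [h0]; exact lam_eq S x
  have h2 : lam B.subsetSum x ≤ lam S x := by
    unfold lam
    have : (B.subsetSum.image (fun s => s + x)) \ B.subsetSum ⊆
        ((S.image (fun s => s + x)) \ S).image (fun s => s + x) := by
      intro a ha
      rw [mem_sdiff, mem_image] at ha
      obtain ⟨⟨s, hs, rfl⟩, hn⟩ := ha
      rw [h0, mem_union] at hs hn
      push Not at hn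
      rcases hs with hs | hs
      · exact absurd (mem_image_of_mem _ hs) hn.2
      · rw [mem_image]
        refine ⟨s, ?_, rfl⟩
        rw [mem_sdiff]
        refine ⟨hs, fun hs' => hn.2 (mem_image_of_mem _ hs')⟩
    calc _ ≤ _ := card_le_card this
      _ = _ := card_image_add _ _
  omega

lemma Anti.subset {B C : Finset (ZMod p)} (h : Anti B) (hC : C ⊆ B) : Anti C :=
  fun x hx hn => h x (hC hx) (hC hn)

lemma Anti.erase {B : Finset (ZMod p)} (h : Anti B) (x : ZMod p) : Anti (B.erase x) :=
  h.subset (erase_subset _ _)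

lemma Anti.ne_zero {B : Finset (ZMod p)} (h : Anti B) {x : ZMod p} (hx : x ∈ B) : x ≠ 0 := by
  rintro rfl
  exact h 0 hx (by simpa using hx)

end Pool.Agent.MP_116850_co
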