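import Mathlib
import Pool.Agent.MP_116850_co.Defs

set_option autoImplicit false

namespace Pool.Agent.MP_116850_co.BlockF

open Finset

/-- `1 - cos t ≥ 4 t² / π²` on `[0, π/2]`. -/
lemma one_sub_cos_ge_sq {t : ℝ} (h0 : 0 ≤ t) (h1 : t ≤ Real.pi / 2) :
    4 * t ^ 2 / Real.pi ^ 2 ≤ 1 - Real.cos t := by
  have hpi := Real.pi_pos
  have hconc := (strictConcaveOn_sin_Icc).concaveOn
  have hl : (4 * (t / 2) / Real.pi) ∈ Set.Icc (0:ℝ) 1 := by
    constructor
    · positivity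
    · rw [div_le_one hpi]; linarith
  have m0 : (0 : ℝ) ∈ Set.Icc 0 Real.pi := ⟨le_refl _, hpi.le⟩
  have m1 : (Real.pi / 4) ∈ Set.Icc 0 Real.pi := ⟨by positivity, by linarith⟩
  have key := hconc.2 m0 m1 (by linarith [hl.2] : (0:ℝ) ≤ 1 - 4 * (t / 2) / Real.pi) hl.1
    (by ring)
  simp only [Real.sin_zero, smul_eq_mul, mul_zero, zero_add, Real.sin_pi_div_four] at key
  have e1 : 4 * (t / 2) / Real.pi * (Real.pi / 4) = t / 2 := by
    field_simp
  rw [e1] at key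
  have hs0 : 0 ≤ 4 * (t / 2) / Real.pi * (Real.sqrt 2 / 2) := by positivity
  have hsq : (4 * (t / 2) / Real.pi * (Real.sqrt 2 / 2)) ^ 2 ≤ Real.sin (t / 2) ^ 2 :=
    pow_le_pow_left₀ hs0 key 2
  have h2 : Real.sqrt 2 ^ 2 = 2 := Real.sq_sqrt (by norm_num)
  have e2 : (4 * (t / 2) / Real.pi * (Real.sqrt 2 / 2)) ^ 2 = 2 * t ^ 2 / Real.pi ^ 2 := by
    have : (4 * (t / 2) / Real.pi * (Real.sqrt 2 / 2)) ^ 2
        = (Real.sqrt 2 ^ 2) * t ^ 2 / Real.pi ^ 2 := by ring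
    rw [this, h2]
  rw [e2] at hsq
  have hc : Real.cos t = 1 - 2 * Real.sin (t / 2) ^ 2 := by
    have := Real.cos_two_mul (t / 2)
    have h3 := Real.sin_sq_add_cos_sq (t / 2)
    have e3 : 2 * (t / 2) = t := by ring
    rw [e3] at this
    rw [this]; linarith
  rw [hc]
  have : 4 * t ^ 2 / Real.pi ^ 2 = 2 * (2 * t ^ 2 / Real.pi ^ 2) := by ring
  rw [this]; linarith

/-- `1 - cos t ≥ 2 t / π` on `[π/2, π]`. -/
lemma one_sub_cos_ge_lin {t : ℝ} (h0 : Real.pi / 2 ≤ t) (h1 : t ≤ Real.pi) :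
    2 * t / Real.pi ≤ 1 - Real.cos t := by
  have hpi := Real.pi_pos
  have key := Real.mul_le_sin (x := t - Real.pi / 2) (by linarith) (by linarith)
  rw [Real.sin_sub_pi_div_two] at key
  have e : 2 / Real.pi * (t - Real.pi / 2) = 2 * t / Real.pi - 1 := by
    field_simp
  rw [e] at key
  linarith

lemma cost_le (p a : ℕ) (hp : 0 < p) (ha : 2 * a ≤ p) :
    (cost p a : ℝ) ≤ (p : ℝ) ^ 2 * (1 - Real.cos (2 * Real.pi * a / p)) := by
  have hpi := Real.pi_pos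
  have hp' : (0 : ℝ) < p := by exact_mod_cast hp
  have ha' : (2 : ℝ) * a ≤ p := by exact_mod_cast ha
  unfold cost
  split_ifs with h
  · have h' : (4 : ℝ) * a < p := by exact_mod_cast h
    have key := one_sub_cos_ge_sq (t := 2 * Real.pi * a / p) (by positivity)
      (by rw [div_le_iff₀ hp']; nlinarith)
    have e : 4 * (2 * Real.pi * a / p) ^ 2 / Real.pi ^ 2 = 16 * (a : ℝ) ^ 2 / (p : ℝ) ^ 2 := by
      field_simp; ring
    rw [e] at key
    push_cast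
    have := mul_le_mul_of_nonneg_left key (by positivity : (0:ℝ) ≤ (p : ℝ) ^ 2)
    have e2 : (p : ℝ) ^ 2 * (16 * (a : ℝ) ^ 2 / (p : ℝ) ^ 2) = 16 * (a : ℝ) ^ 2 := by
      field_simp
    rw [e2] at this
    exact this
  · have h' : (p : ℝ) ≤ 4 * a := by
      have : p ≤ 4 * a := by omega
      exact_mod_cast this
    have key := one_sub_cos_ge_lin (t := 2 * Real.pi * a / p)
      (by rw [le_div_iff₀ hp']; nlinarith) (by rw [div_le_iff₀ hp']; nlinarith)
    have e : 2 * (2 * Real.pi * a / p) / Real.pi = 4 * (a : ℝ) / p := by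
      field_simp; ring
    rw [e] at key
    push_cast
    have := mul_le_mul_of_nonneg_left key (by positivity : (0:ℝ) ≤ (p : ℝ) ^ 2)
    have e2 : (p : ℝ) ^ 2 * (4 * (a : ℝ) / p) = 4 * (a : ℝ) * p := by
      field_simp
    rw [e2] at this
    exact this

section

variable {p : ℕ} [Fact p.Prime]

/-- The real part of the standard character. -/
noncomputable def c (t : ZMod p) : ℝ := (ZMod.stdAddChar t : ℂ).re

lemma c_eq (t : ZMod p) : c t = Real.cos (2 * Real.pi * (t.valMinAbs.natAbs : ℕ) / p) := by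
  unfold c
  have h := ZMod.stdAddChar_coe (N := p) t.valMinAbs
  rw [ZMod.coe_valMinAbs] at h
  rw [h]
  have e : (2 * (Real.pi : ℂ) * Complex.I * (t.valMinAbs : ℂ) / (p : ℂ))
      = ((2 * Real.pi * (t.valMinAbs : ℝ) / p : ℝ) : ℂ) * Complex.I := by
    push_cast; ring
  rw [e, Complex.exp_ofReal_mul_I_re]
  rcases Int.natAbs_eq t.valMinAbs with h1 | h1
  · congr 2
    have : ((t.valMinAbs.natAbs : ℕ) : ℝ) = (t.valMinAbs : ℝ) := by
      rw [← Int.cast_natCast, ← h1]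
    rw [this]
  · have : (t.valMinAbs : ℝ) = -((t.valMinAbs.natAbs : ℕ) : ℝ) := by
      rw [← Int.cast_natCast, ← Int.cast_neg, ← h1]
    rw [this, ← Real.cos_neg]
    congr 1
    ring

lemma c_zero : c (0 : ZMod p) = 1 := by
  rw [c_eq]; simp

lemma c_le_one (t : ZMod p) : c t ≤ 1 := by
  rw [c_eq]; exact Real.cos_le_one _

lemma sum_char (t : ZMod p) :
    ∑ r : ZMod p, (ZMod.stdAddChar (r * t) : ℂ) = if t = 0 then (p : ℂ) else 0 := by
  have h := AddChar.sum_mulShift (R := ZMod p) (R' := ℂ) t (ZMod.isPrimitive_stdAddChar p)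
  rw [h, ZMod.card]
  split_ifs <;> simp

/-- Fourier transform of the indicator. -/
noncomputable def fh (S : Finset (ZMod p)) (r : ZMod p) : ℂ :=
  ∑ s ∈ S, (ZMod.stdAddChar (r * s) : ℂ)

lemma conj_char (t : ZMod p) :
    (starRingEnd ℂ) (ZMod.stdAddChar t : ℂ) = ZMod.stdAddChar (-t) := by
  rw [AddChar.map_neg_eq_inv, ZMod.stdAddChar_apply, ← Circle.coe_inv_eq_conj, Circle.coe_inv]

lemma normSq_fh (S : Finset (ZMod p)) (r : ZMod p) :
    ((‖fh S r‖ ^ 2 : ℝ) : ℂ) = ∑ s ∈ S, ∑ s' ∈ S, (ZMod.stdAddChar (r * (s - s')) : ℂ) := by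
  have h : ((‖fh S r‖ ^ 2 : ℝ) : ℂ) = fh S r * (starRingEnd ℂ) (fh S r) := by
    rw [Complex.mul_conj, Complex.normSq_eq_norm_sq]
  rw [h]
  unfold fh
  rw [map_sum, Finset.sum_mul_sum]
  refine Finset.sum_congr rfl fun s _ => Finset.sum_congr rfl fun s' _ => ?_
  rw [conj_char, ← AddChar.map_add_eq_mul]
  congr 1; ring

/-- the number of `s ∈ S` with `s + x ∈ S` -/
def cor (S : Finset (ZMod p)) (x : ZMod p) : ℕ := (S.filter (fun s => s + x ∈ S)).card

lemma sum_fh_char (S : Finset (ZMod p)) (x : ZMod p) :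
    ∑ r : ZMod p, ((‖fh S r‖ ^ 2 : ℝ) : ℂ) * (ZMod.stdAddChar (r * x) : ℂ)
      = (p : ℂ) * (cor S x : ℂ) := by
  have h1 : ∀ r : ZMod p, ((‖fh S r‖ ^ 2 : ℝ) : ℂ) * (ZMod.stdAddChar (r * x) : ℂ)
      = ∑ s ∈ S, ∑ s' ∈ S, (ZMod.stdAddChar (r * (s - s' + x)) : ℂ) := by
    intro r
    rw [normSq_fh, Finset.sum_mul]
    refine Finset.sum_congr rfl fun s _ => ?_
    rw [Finset.sum_mul]
    refine Finset.sum_congr rfl fun s' _ => ?_
    rw [← AddChar.map_add_eq_mul]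
    congr 1; ring
  simp_rw [h1]
  rw [Finset.sum_comm]
  have h2 : ∀ s ∈ S, ∑ r : ZMod p, ∑ s' ∈ S, (ZMod.stdAddChar (r * (s - s' + x)) : ℂ)
      = if s + x ∈ S then (p : ℂ) else 0 := by
    intro s _
    rw [Finset.sum_comm]
    simp_rw [sum_char]
    have h3 : ∀ s' ∈ S, (if s - s' + x = 0 then (p : ℂ) else 0)
        = if s + x = s' then (p : ℂ) else 0 := by
      intro s' _
      have : (s - s' + x = 0) ↔ (s + x = s') := by
        constructor
        · intro h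
          have : s + x - s' = 0 := by rw [← h]; ring
          exact sub_eq_zero.mp this
        · intro h; rw [← h]; ring
      simp only [this]
    rw [Finset.sum_congr rfl h3, Finset.sum_ite_eq]
  rw [Finset.sum_congr rfl h2, ← Finset.sum_filter, Finset.sum_const, nsmul_eq_mul, cor]
  ring

lemma sum_fh_c (S : Finset (ZMod p)) (x : ZMod p) :
    ∑ r : ZMod p, ‖fh S r‖ ^ 2 * c (r * x) = (p : ℝ) * (cor S x : ℝ) := by
  have h := congrArg Complex.re (sum_fh_char S x)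
  rw [Complex.re_sum] at h
  have h1 : ∀ r : ZMod p, (((‖fh S r‖ ^ 2 : ℝ) : ℂ) * (ZMod.stdAddChar (r * x) : ℂ)).re
      = ‖fh S r‖ ^ 2 * c (r * x) := by
    intro r
    rw [Complex.re_ofReal_mul]; rfl
  rw [Finset.sum_congr rfl (fun r _ => h1 r)] at h
  rw [h]
  have : ((p : ℂ) * (cor S x : ℂ)) = (((p : ℝ) * (cor S x : ℝ) : ℝ) : ℂ) := by push_cast; rfl
  rw [this, Complex.ofReal_re]

lemma sum_fh (S : Finset (ZMod p)) :
    ∑ r : ZMod p, ‖fh S r‖ ^ 2 = (p : ℝ) * (S.card : ℝ) := by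
  have h := sum_fh_c S 0
  simp only [mul_zero, c_zero, mul_one] at h
  rw [h]
  unfold cor
  simp

lemma lam_eq (S : Finset (ZMod p)) (x : ZMod p) : lam S x + cor S x = S.card := by
  unfold lam cor
  have h1 : ((S.image (fun s => s + x)) \ S) = (S.filter (fun s => ¬ (s + x ∈ S))).image
      (fun s => s + x) := by
    ext y
    simp only [mem_sdiff, mem_image, mem_filter]
    constructor
    · rintro ⟨⟨s, hs, rfl⟩, hy⟩
      exact ⟨s, ⟨hs, hy⟩, rfl⟩
    · rintro ⟨s, ⟨hs, hy⟩, rfl⟩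
      exact ⟨⟨s, hs, rfl⟩, hy⟩
  rw [h1, Finset.card_image_of_injective _ (add_left_injective x), add_comm,
    Finset.card_filter_add_card_filter_not]

lemma sum_fh_lam (S : Finset (ZMod p)) (x : ZMod p) :
    ∑ r : ZMod p, ‖fh S r‖ ^ 2 * (1 - c (r * x)) = (p : ℝ) * (lam S x : ℝ) := by
  have h : ∀ r : ZMod p, ‖fh S r‖ ^ 2 * (1 - c (r * x))
      = ‖fh S r‖ ^ 2 - ‖fh S r‖ ^ 2 * c (r * x) := by intro r; ring
  simp_rw [h]
  rw [Finset.sum_sub_distrib, sum_fh, sum_fh_c]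
  have h2 : (lam S x : ℝ) + (cor S x : ℝ) = (S.card : ℝ) := by exact_mod_cast lam_eq S x
  rw [← h2]; ring

lemma fh_zero (S : Finset (ZMod p)) : ‖fh S 0‖ ^ 2 = (S.card : ℝ) ^ 2 := by
  unfold fh
  simp

/-- Block F (Fourier). -/
theorem fourier (S B : Finset (ZMod p)) (L : ℕ)
    (hS : S.Nonempty) (hS' : S.card < p) (hL : ∀ x ∈ B, lam S x ≤ L) :
    ∃ r : ZMod p, r ≠ 0 ∧
      (∑ x ∈ B, cost p (r * x).valMinAbs.natAbs) * (S.card * (p - S.card)) ≤
        B.card * L * p ^ 3 := by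
  have hp0 : 0 < p := (Fact.out : p.Prime).pos
  have hpR : (0 : ℝ) < p := by exact_mod_cast hp0
  set σ : ℝ := (S.card : ℝ) with hσ
  have hσ0 : 0 < σ := by
    have : 0 < S.card := hS.card_pos
    rw [hσ]; exact_mod_cast this
  have hσp : σ < p := by rw [hσ]; exact_mod_cast hS'
  set F : ZMod p → ℝ := fun r => ∑ x ∈ B, (1 - c (r * x)) with hF
  have hF0 : F 0 = 0 := by simp [hF, c_zero]
  -- the total
  have htot : ∑ r : ZMod p, ‖fh S r‖ ^ 2 * F r ≤ (p : ℝ) * (B.card * L) := by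
    simp only [hF, Finset.mul_sum]
    rw [Finset.sum_comm]
    simp_rw [sum_fh_lam]
    rw [← Finset.mul_sum]
    refine mul_le_mul_of_nonneg_left ?_ hpR.le
    calc ∑ x ∈ B, (lam S x : ℝ) ≤ ∑ _x ∈ B, (L : ℝ) :=
          Finset.sum_le_sum fun x hx => by exact_mod_cast hL x hx
      _ = B.card * L := by rw [Finset.sum_const, nsmul_eq_mul]
  have hE : ∑ r ∈ Finset.univ.erase (0 : ZMod p), ‖fh S r‖ ^ 2 = σ * (p - σ) := by
    have := Finset.sum_erase_eq_sub (f := fun r : ZMod p => ‖fh S r‖ ^ 2)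
      (Finset.mem_univ (0 : ZMod p))
    rw [this, sum_fh, fh_zero]; ring
  have hEF : ∑ r ∈ Finset.univ.erase (0 : ZMod p), ‖fh S r‖ ^ 2 * F r ≤ (p : ℝ) * (B.card * L) := by
    have := Finset.sum_erase_eq_sub (f := fun r : ZMod p => ‖fh S r‖ ^ 2 * F r)
      (Finset.mem_univ (0 : ZMod p))
    rw [this, hF0, mul_zero, sub_zero]; exact htot
  have hex : ∃ r : ZMod p, r ≠ 0 ∧ F r * (σ * (p - σ)) ≤ (p : ℝ) * (B.card * L) := by
    by_contra hcon
    push Not at hcon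
    have hpos : 0 < ∑ r ∈ Finset.univ.erase (0 : ZMod p), ‖fh S r‖ ^ 2 := by
      rw [hE]; exact mul_pos hσ0 (by linarith)
    obtain ⟨r0, hr0, hr0'⟩ : ∃ r ∈ Finset.univ.erase (0 : ZMod p), 0 < ‖fh S r‖ ^ 2 := by
      by_contra h
      push Not at h
      exact absurd hpos (not_lt.mpr (Finset.sum_nonpos h))
    have hlt : ∑ r ∈ Finset.univ.erase (0 : ZMod p), ‖fh S r‖ ^ 2 * ((p : ℝ) * (B.card * L))
        < ∑ r ∈ Finset.univ.erase (0 : ZMod p), ‖fh S r‖ ^ 2 * (F r * (σ * (p - σ))) := by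
      refine Finset.sum_lt_sum (fun r hr => ?_) ⟨r0, hr0, ?_⟩
      · exact mul_le_mul_of_nonneg_left (hcon r (Finset.ne_of_mem_erase hr)).le (by positivity)
      · exact mul_lt_mul_of_pos_left (hcon r0 (Finset.ne_of_mem_erase hr0)) hr0'
    rw [← Finset.sum_mul, hE] at hlt
    have e : ∑ r ∈ Finset.univ.erase (0 : ZMod p), ‖fh S r‖ ^ 2 * (F r * (σ * (p - σ)))
        = (∑ r ∈ Finset.univ.erase (0 : ZMod p), ‖fh S r‖ ^ 2 * F r) * (σ * (p - σ)) := by
      rw [Finset.sum_mul]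
      exact Finset.sum_congr rfl fun r _ => by ring
    rw [e] at hlt
    have hσσ : 0 < σ * (p - σ) := mul_pos hσ0 (by linarith)
    nlinarith [mul_le_mul_of_nonneg_right hEF hσσ.le]
  obtain ⟨r, hr, hrF⟩ := hex
  refine ⟨r, hr, ?_⟩
  have hcost : ((∑ x ∈ B, cost p (r * x).valMinAbs.natAbs : ℕ) : ℝ) ≤ (p : ℝ) ^ 2 * F r := by
    push_cast
    simp only [hF]
    rw [Finset.mul_sum]
    refine Finset.sum_le_sum fun x _ => ?_
    rw [c_eq]
    refine cost_le p _ hp0 ?_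
    have := ZMod.natAbs_valMinAbs_le (r * x)
    omega
  have hsub : (((p - S.card : ℕ)) : ℝ) = p - σ := by
    rw [Nat.cast_sub hS'.le]
  have hfin : ((∑ x ∈ B, cost p (r * x).valMinAbs.natAbs : ℕ) : ℝ) * (σ * (p - σ))
      ≤ B.card * L * (p : ℝ) ^ 3 := by
    have hσσ : 0 < σ * (p - σ) := mul_pos hσ0 (by linarith)
    calc ((∑ x ∈ B, cost p (r * x).valMinAbs.natAbs : ℕ) : ℝ) * (σ * (p - σ))
        ≤ ((p : ℝ) ^ 2 * F r) * (σ * (p - σ)) := mul_le_mul_of_nonneg_right hcost hσσ.le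
      _ = (p : ℝ) ^ 2 * (F r * (σ * (p - σ))) := by ring
      _ ≤ (p : ℝ) ^ 2 * ((p : ℝ) * (B.card * L)) :=
          mul_le_mul_of_nonneg_left hrF (by positivity)
      _ = B.card * L * (p : ℝ) ^ 3 := by ring
  rw [← hsub, hσ] at hfin
  exact_mod_cast hfin

end

end Pool.Agent.MP_116850_co.BlockF
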