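import Mathlib

set_option autoImplicit false

namespace Pool.Agent.MP_116850_co.BlockK

open Finset
open scoped Pointwise

/-- the sums `a x + a y`, `x, y ≤ n` -/
def SS (n : ℕ) (a : ℕ → ℤ) : Finset ℤ :=
  (range (n + 1)).image a + (range (n + 1)).image a

theorem mem_SS {n : ℕ} {a : ℕ → ℤ} {v : ℤ} :
    v ∈ SS n a ↔ ∃ x, x ≤ n ∧ ∃ y, y ≤ n ∧ a x + a y = v := by
  unfold SS
  simp only [mem_add, mem_image, mem_range, Nat.lt_succ_iff]
  constructor
  · rintro ⟨_, ⟨x, hx, rfl⟩, _, ⟨y, hy, rfl⟩, rfl⟩
    exact ⟨x, hx, y, hy, rfl⟩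
  · rintro ⟨x, hx, y, hy, rfl⟩
    exact ⟨_, ⟨x, hx, rfl⟩, _, ⟨y, hy, rfl⟩, rfl⟩

theorem pigeon (b : ℕ → ℤ) (m : ℕ) (hb : ∀ x y, x < y → y ≤ m → b x < b y) (h0 : b 0 = 0)
    (hm : ∀ j, 1 ≤ j → j ≤ m → b j ≤ 2 * j - 1) (v : ℤ) (hv0 : 0 ≤ v) (hv : v ≤ 2 * m) :
    ∃ x, x ≤ m ∧ ∃ y, y ≤ m ∧ b x + b y = v := by
  obtain ⟨w, rfl⟩ := Int.eq_ofNat_of_zero_le hv0
  set c := (w + 1) / 2 with hc
  have hcm : c ≤ m := by omega
  have hbc : b c ≤ w := by
    rcases Nat.eq_zero_or_pos c with h | h
    · rw [h, h0]; omega
    · have := hm c h hcm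
      omega
  have hmono : ∀ x y, x ≤ y → y ≤ m → b x ≤ b y := by
    intro x y hxy hy
    rcases eq_or_lt_of_le hxy with h | h
    · rw [h]
    · exact (hb x y h hy).le
  have hinj : Set.InjOn b (range (c + 1) : Finset ℕ) := by
    intro x hx y hy hxy
    simp only [coe_range, Set.mem_Iio] at hx hy
    rcases lt_trichotomy x y with h | h | h
    · have := hb x y h (by omega); omega
    · exact h
    · have := hb y x h (by omega); omega
  set F := (range (c + 1)).image b with hF
  have hFc : F.card = c + 1 := by
    rw [hF, card_image_of_injOn hinj, card_range]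
  set F' := F.image (fun x => (w : ℤ) - x) with hF'
  have hFc' : F'.card = c + 1 := by
    rw [hF', card_image_of_injective, hFc]
    intro x y hxy
    simp only at hxy
    omega
  have hsub : F ⊆ Icc 0 (w : ℤ) := by
    intro x hx
    rw [hF, mem_image] at hx
    obtain ⟨j, hj, rfl⟩ := hx
    rw [mem_range] at hj
    rw [mem_Icc]
    have h1 := hmono 0 j (by omega) (by omega)
    have h2 := hmono j c (by omega) (by omega)
    constructor <;> omega
  have hsub' : F' ⊆ Icc 0 (w : ℤ) := by
    intro x hx
    rw [hF', mem_image] at hx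
    obtain ⟨y, hy, rfl⟩ := hx
    have := mem_Icc.mp (hsub hy)
    rw [mem_Icc]
    constructor <;> omega
  have hnd : ¬ Disjoint F F' := by
    intro hd
    have h1 := card_union_of_disjoint hd
    have h2 := card_le_card (union_subset hsub hsub')
    rw [h1, hFc, hFc', Int.card_Icc] at h2
    omega
  rw [not_disjoint_iff] at hnd
  obtain ⟨x, hx, hx'⟩ := hnd
  rw [hF, mem_image] at hx
  obtain ⟨j, hj, rfl⟩ := hx
  rw [hF', mem_image] at hx'
  obtain ⟨y, hy, hyx⟩ := hx'
  rw [hF, mem_image] at hy
  obtain ⟨j', hj', rfl⟩ := hy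
  rw [mem_range] at hj hj'
  exact ⟨j, by omega, j', by omega, by omega⟩

theorem card4 {S P1 P2 P3 P4 : Finset ℤ} (h1 : P1 ⊆ S) (h2 : P2 ⊆ S) (h3 : P3 ⊆ S) (h4 : P4 ⊆ S)
    (c1 c2 c3 : ℤ) (x1 : ∀ x ∈ P1, x < c1) (x2 : ∀ x ∈ P2, c1 ≤ x ∧ x < c2)
    (x3 : ∀ x ∈ P3, c2 ≤ x ∧ x < c3) (x4 : ∀ x ∈ P4, c3 ≤ x) (hc : c1 ≤ c2) (hc' : c2 ≤ c3) :
    P1.card + P2.card + P3.card + P4.card ≤ S.card := by
  have d1 : Disjoint P1 P2 := by
    rw [disjoint_left]; intro x hx hy
    have := x1 x hx; have := x2 x hy; omega
  have d2 : Disjoint (P1 ∪ P2) P3 := by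
    rw [disjoint_left]; intro x hx hy
    have h := x3 x hy
    rcases mem_union.mp hx with hx | hx
    · have := x1 x hx; omega
    · have := x2 x hx; omega
  have d3 : Disjoint (P1 ∪ P2 ∪ P3) P4 := by
    rw [disjoint_left]; intro x hx hy
    have h := x4 x hy
    rcases mem_union.mp hx with hx | hx
    · rcases mem_union.mp hx with hx | hx
      · have := x1 x hx; omega
      · have := x2 x hx; omega
    · have := x3 x hx; omega
  rw [← card_union_of_disjoint d1, ← card_union_of_disjoint d2, ← card_union_of_disjoint d3]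
  exact card_le_card (union_subset (union_subset (union_subset h1 h2) h3) h4)

theorem card_image_Icc (a : ℕ → ℤ) (ha : StrictMono a) (x y : ℕ) :
    ((Icc x y).image a).card = y + 1 - x := by
  rw [card_image_of_injective _ ha.injective, Nat.card_Icc]

theorem card_add_ge (s t : Finset ℤ) (hs : s.Nonempty) (ht : t.Nonempty) :
    s.card + t.card ≤ (s + t).card + 1 := by
  have := cauchy_davenport_add_of_linearOrder_isCancelAdd hs ht
  omega

/-- The dense case. -/
theorem dense (n : ℕ) (a : ℕ → ℤ) (ha : StrictMono a) (h0 : a 0 = 0) (hn : 1 ≤ n)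
    (h : a n ≤ 2 * n - 1) : (n : ℤ) + 1 + a n ≤ (SS n a).card := by
  have hpos : 0 < a n := by rw [← h0]; exact ha (by omega)
  obtain ⟨l, hl⟩ := Int.eq_ofNat_of_zero_le hpos.le
  have hlpos : 0 < l := by omega
  have hbn : ∀ j, 0 ≤ a j := fun j => by
    rw [← h0]; exact ha.monotone (Nat.zero_le j)
  -- `D` = sums that are not in `a n + A`
  set T := (range (n + 1)).image (fun j => a n + a j) with hT
  have hTc : T.card = n + 1 := by
    rw [hT, card_image_of_injective, card_range]
    intro x y hxy
    simp only [add_right_inj] at hxy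
    exact ha.injective hxy
  have hTS : T ⊆ SS n a := by
    intro v hv
    rw [hT, mem_image] at hv
    obtain ⟨j, hj, rfl⟩ := hv
    rw [mem_range] at hj
    exact mem_SS.mpr ⟨n, le_rfl, j, by omega, rfl⟩
  have : NeZero l := ⟨by omega⟩
  -- every residue class mod l meets `SS \ T`
  have hsurj : ∀ r : ZMod l, ∃ v ∈ SS n a \ T, ((v : ℤ) : ZMod l) = r := by
    intro r
    set X := (range n).image (fun j => ((a j : ℤ) : ZMod l)) with hX
    have hinj : Set.InjOn (fun j => ((a j : ℤ) : ZMod l)) (range n : Finset ℕ) := by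
      intro x hx y hy hxy
      simp only [coe_range, Set.mem_Iio] at hx hy
      simp only at hxy
      have h1 : (l : ℤ) ∣ a y - a x := by
        rw [← ZMod.intCast_eq_intCast_iff_dvd_sub]; exact hxy
      have hx1 : a x < l := by
        have := ha hx; omega
      have hy1 : a y < l := by
        have := ha hy; omega
      have hx0 := hbn x
      have hy0 := hbn y
      have h2 : a y - a x = 0 := by
        apply Int.eq_zero_of_abs_lt_dvd h1
        rw [abs_lt]; constructor <;> omega
      exact ha.injective (by omega)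
    have hXc : X.card = n := by
      rw [hX, card_image_of_injOn hinj, card_range]
    set X' := X.image (fun x => r - x) with hX'
    have hXc' : X'.card = n := by
      rw [hX', card_image_of_injective, hXc]
      exact sub_right_injective
    have hnd : ¬ Disjoint X X' := by
      intro hd
      have h1 := card_union_of_disjoint hd
      have h2 : (X ∪ X').card ≤ Fintype.card (ZMod l) := card_le_univ _
      rw [h1, hXc, hXc', ZMod.card] at h2
      omega
    rw [not_disjoint_iff] at hnd
    obtain ⟨x, hx, hx'⟩ := hnd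
    rw [hX, mem_image] at hx
    obtain ⟨j, hj, rfl⟩ := hx
    rw [hX', mem_image] at hx'
    obtain ⟨y, hy, hyx⟩ := hx'
    rw [hX, mem_image] at hy
    obtain ⟨j', hj', rfl⟩ := hy
    rw [mem_range] at hj hj'
    have hsum : (((a j + a j' : ℤ)) : ZMod l) = r := by
      push_cast
      rw [← hyx]; ring
    have hj1 : a j < a n := ha hj
    have hj1' : a j' < a n := ha hj'
    by_cases hm : a j + a j' ∈ T
    · rw [hT, mem_image] at hm
      obtain ⟨i, hi, hi'⟩ := hm
      rw [mem_range] at hi
      refine ⟨a i, ?_, ?_⟩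
      · rw [mem_sdiff]
        refine ⟨mem_SS.mpr ⟨i, by omega, 0, by omega, by rw [h0]; ring⟩, ?_⟩
        rw [hT, mem_image]
        rintro ⟨i', hi1, hi2⟩
        have := hbn i'
        omega
      · have : (((a n + a i : ℤ)) : ZMod l) = r := by rw [hi']; exact hsum
        rw [hl] at this
        push_cast at this
        simpa using this
    · exact ⟨a j + a j', mem_sdiff.mpr ⟨mem_SS.mpr ⟨j, by omega, j', by omega, rfl⟩, hm⟩, hsum⟩
  have hcard : l ≤ (SS n a \ T).card := by
    have h1 : (univ : Finset (ZMod l)) ⊆ (SS n a \ T).image (fun v => ((v : ℤ) : ZMod l)) := by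
      intro r _
      obtain ⟨v, hv, hvr⟩ := hsurj r
      exact mem_image.mpr ⟨v, hv, hvr⟩
    have h2 := card_le_card h1
    rw [card_univ, ZMod.card] at h2
    exact h2.trans card_image_le
  have := card_sdiff_add_card_eq_card hTS
  omega


/-- The sparse case. -/
theorem sparse (n : ℕ) : ∀ a : ℕ → ℤ, StrictMono a → a 0 = 0 →
    (∀ d : ℤ, (∀ j, j ≤ n → d ∣ a j) → IsUnit d) → 2 * (n : ℤ) ≤ a n →
    3 * n ≤ (SS n a).card := by
  induction n using Nat.strong_induction_on with
  | _ n ih =>
  intro a ha h0 hg hn
  rcases Nat.eq_zero_or_pos n with rfl | hnpos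
  · simp
  have hbn : ∀ j, 0 ≤ a j := fun j => by
    rw [← h0]; exact ha.monotone (Nat.zero_le j)
  classical
  have hex : ∃ j : ℕ, 1 ≤ j ∧ 2 * (j : ℤ) ≤ a j := ⟨n, hnpos, hn⟩
  obtain ⟨s, ⟨hs1, hs2⟩, hsmin⟩ : ∃ s : ℕ, (1 ≤ s ∧ 2 * (s : ℤ) ≤ a s) ∧
      ∀ j : ℕ, 1 ≤ j → j < s → a j < 2 * (j : ℤ) := by
    refine ⟨Nat.find hex, Nat.find_spec hex, ?_⟩
    intro j hj hjs
    have := Nat.find_min hex hjs
    by_contra h
    push Not at h
    exact this ⟨hj, h⟩
  have hsn : s ≤ n := by
    by_contra h
    push Not at h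
    have := hsmin n hnpos h
    omega
  have hex2 : ∃ j : ℕ, s ≤ j ∧ a j - 2 * (j : ℤ) ≤ a n - 2 * n := ⟨n, hsn, le_rfl⟩
  obtain ⟨i, ⟨hi1, hi2⟩, himin⟩ : ∃ i : ℕ, (s ≤ i ∧ a i - 2 * (i : ℤ) ≤ a n - 2 * n) ∧
      ∀ j : ℕ, s ≤ j → j < i → a n - 2 * n < a j - 2 * (j : ℤ) := by
    refine ⟨Nat.find hex2, Nat.find_spec hex2, ?_⟩
    intro j hj hjs
    have := Nat.find_min hex2 hjs
    by_contra h
    push Not at h
    exact this ⟨hj, h⟩
  have hin : i ≤ n := by
    by_contra h
    push Not at h
    have := himin n hsn h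
    omega
  have hi0 : 2 * (i : ℤ) ≤ a i := by
    rcases eq_or_lt_of_le hi1 with h | h
    · rw [← h]; exact hs2
    · have h1 := himin (i - 1) (by omega) (by omega)
      have h2 : a (i - 1) < a i := ha (by omega)
      omega
  have he1 : s < i → a (i - 1) = a i - 1 := by
    intro h
    have h1 := himin (i - 1) (by omega) (by omega)
    have h2 : a (i - 1) < a i := ha (by omega)
    omega
  have hs3 : a (s - 1) ≤ 2 * (s : ℤ) - 2 := by
    rcases eq_or_lt_of_le hs1 with h | h
    · rw [← h]; simp [h0]
    · have := hsmin (s - 1) (by omega) (by omega)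
      omega
  have hs4 : 2 ≤ a s - a (s - 1) := by omega
  -- lower part
  have hlow : Icc (0 : ℤ) (2 * s - 2) ⊆ SS n a := by
    intro v hv
    rw [mem_Icc] at hv
    obtain ⟨x, hx, y, hy, hxy⟩ := pigeon a (s - 1) (fun x y h _ => ha h) h0
      (fun j h1 h2 => by have := hsmin j h1 (by omega); omega) v hv.1 (by omega)
    exact mem_SS.mpr ⟨x, by omega, y, by omega, hxy⟩
  have htop : Icc (2 * a i - 2 * ((i : ℤ) - s)) (2 * a i) ⊆ SS n a := by
    intro v hv
    rw [mem_Icc] at hv
    obtain ⟨x, hx, y, hy, hxy⟩ := pigeon (fun j => a i - a (i - j)) (i - s)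
      (fun x y h1 h2 => by
        have : a (i - y) < a (i - x) := ha (by omega)
        omega) (by simp)
      (fun j h1 h2 => by
        have := himin (i - j) (by omega) (by omega)
        omega) (2 * a i - v) (by omega) (by omega)
    exact mem_SS.mpr ⟨i - x, by omega, i - y, by omega, by omega⟩
  have key : ∀ m, s ≤ m → m ≤ n → a (s - 1) + a m < 2 * a i - 2 * ((i : ℤ) - s) →
      ∀ U ⊆ SS n a, (∀ x ∈ U, 2 * a i < x) → 2 * i + m + U.card ≤ (SS n a).card := by
    intro m hsm hmn hlt U hU hU'
    set M := (range s).image a + (Icc s m).image a with hM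
    have hMc : m ≤ M.card := by
      have h1 := card_add_ge ((range s).image a) ((Icc s m).image a)
        ((nonempty_range_iff.mpr (by omega)).image a) ((nonempty_Icc.mpr hsm).image a)
      rw [card_image_of_injective _ ha.injective, card_range, card_image_Icc a ha, ← hM] at h1
      omega
    have hMS : M ⊆ SS n a := by
      intro v hv
      rw [hM, mem_add] at hv
      obtain ⟨_, h1, _, h2, rfl⟩ := hv
      obtain ⟨x, hx, rfl⟩ := mem_image.mp h1
      obtain ⟨y, hy, rfl⟩ := mem_image.mp h2
      rw [mem_range] at hx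
      rw [mem_Icc] at hy
      exact mem_SS.mpr ⟨x, by omega, y, by omega, rfl⟩
    have h4 := card4 hlow hMS htop hU (2 * s - 1) (2 * a i - 2 * ((i : ℤ) - s)) (2 * a i + 1)
      (by intro x hx; rw [mem_Icc] at hx; omega)
      (by
        intro v hv
        rw [hM, mem_add] at hv
        obtain ⟨_, h1, _, h2, rfl⟩ := hv
        obtain ⟨x, hx, rfl⟩ := mem_image.mp h1
        obtain ⟨y, hy, rfl⟩ := mem_image.mp h2
        rw [mem_range] at hx
        rw [mem_Icc] at hy
        have h3 : a x ≤ a (s - 1) := ha.monotone (by omega)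
        have h4 : a y ≤ a m := ha.monotone (by omega)
        have h5 : a s ≤ a y := ha.monotone (by omega)
        have h6 := hbn x
        constructor <;> omega)
      (by intro x hx; rw [mem_Icc] at hx; omega)
      (by intro x hx; have := hU' x hx; omega)
      (by omega) (by omega)
    rw [Int.card_Icc, Int.card_Icc] at h4
    omega
  have hcond : a (s - 1) + a i < 2 * a i - 2 * ((i : ℤ) - s) := by omega
  rcases eq_or_lt_of_le hin with hi | hi
  · have := key i hi1 hin hcond ∅ (empty_subset _) (by simp)
    simp only [card_empty] at this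
    omega
  -- `i < n`
  set a' : ℕ → ℤ := fun j => a (i + j) - a i with ha'def
  have ha' : StrictMono a' := by
    intro x y hxy
    have : a (i + x) < a (i + y) := ha (by omega)
    simp only [ha'def]
    omega
  have ha'0 : a' 0 = 0 := by simp [ha'def]
  have ha'n : ∀ j, 0 ≤ a' j := fun j => by
    rw [← ha'0]; exact ha'.monotone (Nat.zero_le j)
  -- the shifted upper sums
  set U0 := ((SS (n - i) a').erase 0).image (fun v => v + 2 * a i) with hU0
  have hU0c : (SS (n - i) a').card = U0.card + 1 := by
    rw [hU0, card_image_of_injective _ (add_left_injective _), card_erase_of_mem]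
    · have : 0 < (SS (n - i) a').card := by
        apply card_pos.mpr
        exact ⟨0, mem_SS.mpr ⟨0, by omega, 0, by omega, by simp [ha'0]⟩⟩
      omega
    · exact mem_SS.mpr ⟨0, by omega, 0, by omega, by simp [ha'0]⟩
  have hU0mem : ∀ v, v ∈ U0 ↔ 2 * a i < v ∧ ∃ x, i ≤ x ∧ x ≤ n ∧ ∃ y, i ≤ y ∧ y ≤ n ∧ a x + a y = v := by
    intro v
    rw [hU0, mem_image]
    constructor
    · rintro ⟨w, hw, rfl⟩
      rw [mem_erase] at hw
      obtain ⟨x, hx, y, hy, hxy⟩ := mem_SS.mp hw.2
      have h1 := ha'n x
      have h2 := ha'n y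
      have h3 := hw.1
      refine ⟨by omega, i + x, by omega, by omega, i + y, by omega, by omega, ?_⟩
      simp only [ha'def] at hxy
      omega
    · rintro ⟨h1, x, hx1, hx2, y, hy1, hy2, hxy⟩
      refine ⟨v - 2 * a i, ?_, by ring⟩
      rw [mem_erase]
      refine ⟨by omega, mem_SS.mpr ⟨x - i, by omega, y - i, by omega, ?_⟩⟩
      simp only [ha'def]
      rw [show i + (x - i) = x by omega, show i + (y - i) = y by omega]
      omega
  have hU0S : U0 ⊆ SS n a := by
    intro v hv
    obtain ⟨_, x, _, hx, y, _, hy, hxy⟩ := (hU0mem v).mp hv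
    exact mem_SS.mpr ⟨x, hx, y, hy, hxy⟩
  have hU0gt : ∀ x ∈ U0, 2 * a i < x := fun x hx => ((hU0mem x).mp hx).1
  have hi1' : 1 ≤ i := by omega
  have hq0 : a i < a (i + 1) := ha (by omega)
  have he0 : a (i - 1) < a i := ha (by omega)
  have hins : ∀ v, v ∈ SS n a → 2 * a i < v → v ∉ U0 → 3 * (n - i) ≤ U0.card + 1 →
      3 * n ≤ (SS n a).card := by
    intro v hv1 hv2 hv3 hc
    have := key i hi1 hin hcond (insert v U0) (insert_subset hv1 hU0S) (by
      intro x hx
      rcases mem_insert.mp hx with rfl | hx
      · exact hv2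
      · exact hU0gt x hx)
    rw [card_insert_of_notMem hv3] at this
    omega
  by_cases hd : ∃ d : ℤ, ¬ IsUnit d ∧ ∀ j, i ≤ j → j ≤ n → d ∣ a j - a i
  · obtain ⟨d, hdu, hd⟩ := hd
    have hd1 : ¬ d ∣ 1 := fun h => hdu (isUnit_of_dvd_one h)
    rcases eq_or_lt_of_le hi1 with hsi | hsi
    · -- `i = s`
      subst hsi
      have hexx : ∃ x, x ≤ s - 1 ∧ ¬ d ∣ a x - a s := by
        by_contra hcon
        push Not at hcon
        apply hdu
        apply hg
        have hall : ∀ j, j ≤ n → d ∣ a j - a s := by
          intro j hj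
          rcases le_or_gt s j with h | h
          · exact hd j h hj
          · exact hcon j (by omega)
        intro j hj
        have h1 := hall 0 (by omega)
        have h2 := hall j hj
        have h3 : a j = (a j - a s) - (a 0 - a s) := by rw [h0]; ring
        rw [h3]
        exact dvd_sub h2 h1
      obtain ⟨x0, hx0, hx0'⟩ := hexx
      obtain ⟨x, hx1, hx2, hxmax⟩ : ∃ x, x ≤ s - 1 ∧ ¬ d ∣ a x - a s ∧
          ∀ y, x < y → y ≤ n → d ∣ a y - a s := by
        refine ⟨Nat.findGreatest (fun x => ¬ d ∣ a x - a s) (s - 1), Nat.findGreatest_le _,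
          Nat.findGreatest_spec (P := fun x => ¬ d ∣ a x - a s) hx0 hx0', ?_⟩
        intro y hy1 hy2
        rcases le_or_gt s y with h | h
        · exact hd y h hy2
        · have := Nat.findGreatest_is_greatest hy1 (by omega : y ≤ s - 1)
          simpa using this
      set W1 := (range x).image (fun y => a y + a s) with hW1
      set W2 := (Icc s n).image (fun j => a x + a j) with hW2
      set W3 := (Icc (x + 1) n).image a + (Icc s n).image a with hW3
      have hW1c : W1.card = x := by
        rw [hW1, card_image_of_injective, card_range]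
        intro y z hyz
        simp only [add_left_inj] at hyz
        exact ha.injective hyz
      have hW2c : W2.card = n + 1 - s := by
        rw [hW2, card_image_of_injective, Nat.card_Icc]
        intro y z hyz
        simp only [add_right_inj] at hyz
        exact ha.injective hyz
      have hW3c : (n - x) + (n + 1 - s) ≤ W3.card + 1 := by
        have := card_add_ge ((Icc (x + 1) n).image a) ((Icc s n).image a)
          ((nonempty_Icc.mpr (by omega)).image a) ((nonempty_Icc.mpr (by omega)).image a)
        rw [card_image_Icc a ha, card_image_Icc a ha, ← hW3] at this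
        omega
      have hdisj : Disjoint W2 W3 := by
        rw [disjoint_left]
        intro v hv1 hv2
        rw [hW2, mem_image] at hv1
        obtain ⟨j, hj, rfl⟩ := hv1
        rw [hW3, mem_add] at hv2
        obtain ⟨_, h1, _, h2, h3⟩ := hv2
        obtain ⟨y, hy, rfl⟩ := mem_image.mp h1
        obtain ⟨z, hz, rfl⟩ := mem_image.mp h2
        rw [mem_Icc] at hj hy hz
        have e1 := hd j hj.1 hj.2
        have e2 := hxmax y (by omega) hy.2
        have e3 := hd z hz.1 hz.2
        apply hx2
        have : a x - a s = (a y - a s) + (a z - a s) - (a j - a s) := by omega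
        rw [this]
        exact dvd_sub (dvd_add e2 e3) e1
      have hUc := card_union_of_disjoint hdisj
      have h4 := card4 hlow (P2 := W1) (P3 := ∅) (P4 := W2 ∪ W3) (by
          intro v hv
          rw [hW1, mem_image] at hv
          obtain ⟨y, hy, rfl⟩ := hv
          rw [mem_range] at hy
          exact mem_SS.mpr ⟨y, by omega, s, by omega, rfl⟩) (empty_subset _) (by
          intro v hv
          rcases mem_union.mp hv with hv | hv
          · rw [hW2, mem_image] at hv
            obtain ⟨j, hj, rfl⟩ := hv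
            rw [mem_Icc] at hj
            exact mem_SS.mpr ⟨x, by omega, j, by omega, rfl⟩
          · rw [hW3, mem_add] at hv
            obtain ⟨_, h1, _, h2, rfl⟩ := hv
            obtain ⟨y, hy, rfl⟩ := mem_image.mp h1
            obtain ⟨z, hz, rfl⟩ := mem_image.mp h2
            rw [mem_Icc] at hy hz
            exact mem_SS.mpr ⟨y, by omega, z, by omega, rfl⟩)
        (2 * s - 1) (a x + a s) (a x + a s)
        (by intro v hv; rw [mem_Icc] at hv; omega)
        (by
          intro v hv
          rw [hW1, mem_image] at hv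
          obtain ⟨y, hy, rfl⟩ := hv
          rw [mem_range] at hy
          have h1 : a y < a x := ha hy
          have h2 := hbn y
          constructor <;> omega)
        (by simp)
        (by
          intro v hv
          rcases mem_union.mp hv with hv | hv
          · rw [hW2, mem_image] at hv
            obtain ⟨j, hj, rfl⟩ := hv
            rw [mem_Icc] at hj
            have : a s ≤ a j := ha.monotone hj.1
            omega
          · rw [hW3, mem_add] at hv
            obtain ⟨_, h1, _, h2, rfl⟩ := hv
            obtain ⟨y, hy, rfl⟩ := mem_image.mp h1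
            obtain ⟨z, hz, rfl⟩ := mem_image.mp h2
            rw [mem_Icc] at hy hz
            have h3 : a x ≤ a y := ha.monotone (by omega)
            have h4 : a s ≤ a z := ha.monotone hz.1
            omega)
        (by have := hbn x; omega) le_rfl
      rw [Int.card_Icc, hUc, card_empty, hW1c, hW2c] at h4
      omega
    · -- `s < i`
      have he := he1 hsi
      set V := (Icc (i + 1) n).image (fun j => a (i - 1) + a j) with hV
      have hVc : V.card = n - i := by
        rw [hV, card_image_of_injective, Nat.card_Icc]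
        · omega
        · intro y z hyz
          simp only [add_right_inj] at hyz
          exact ha.injective hyz
      have hdisj : Disjoint U0 V := by
        rw [disjoint_left]
        intro v hv1 hv2
        obtain ⟨_, x, hx1, hx2, y, hy1, hy2, hxy⟩ := (hU0mem v).mp hv1
        rw [hV, mem_image] at hv2
        obtain ⟨j, hj, rfl⟩ := hv2
        rw [mem_Icc] at hj
        have e1 := hd j (by omega) hj.2
        have e2 := hd x hx1 hx2
        have e3 := hd y hy1 hy2
        apply hd1
        have : (1 : ℤ) = (a j - a i) - ((a x - a i) + (a y - a i)) := by omega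
        rw [this]
        exact dvd_sub e1 (dvd_add e2 e3)
      have hUc := card_union_of_disjoint hdisj
      have hSS : 2 * (n - i) + 1 ≤ (SS (n - i) a').card := by
        have := card_add_ge ((range (n - i + 1)).image a') ((range (n - i + 1)).image a')
          ((nonempty_range_iff.mpr (by omega)).image a')
          ((nonempty_range_iff.mpr (by omega)).image a')
        rw [card_image_of_injective _ ha'.injective, card_range] at this
        have h2 : (SS (n - i) a').card = ((range (n - i + 1)).image a' + (range (n - i + 1)).image a').card := rfl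
        omega
      have := key i hi1 hin hcond (U0 ∪ V) (union_subset hU0S (by
          intro v hv
          rw [hV, mem_image] at hv
          obtain ⟨j, hj, rfl⟩ := hv
          rw [mem_Icc] at hj
          exact mem_SS.mpr ⟨i - 1, by omega, j, by omega, rfl⟩)) (by
        intro v hv
        rcases mem_union.mp hv with hv | hv
        · exact hU0gt v hv
        · rw [hV, mem_image] at hv
          obtain ⟨j, hj, rfl⟩ := hv
          rw [mem_Icc] at hj
          have h1 : a i < a j := ha (by omega)
          have h2 : a j - a i ≠ 1 := by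
            intro h
            apply hd1
            rw [← h]
            exact hd j (by omega) hj.2
          omega)
      rw [hUc, hVc] at this
      omega
  · -- the upper part has gcd one
    push Not at hd
    have hIH : 3 * (n - i) ≤ (SS (n - i) a').card := by
      apply ih (n - i) (by omega) a' ha' ha'0
      · intro d hdj
        by_contra hdu
        obtain ⟨j, hj1, hj2, hj3⟩ := hd d hdu
        apply hj3
        have := hdj (j - i) (by omega)
        simp only [ha'def] at this
        rwa [show i + (j - i) = j by omega] at this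
      · simp only [ha'def]
        rw [show i + (n - i) = n by omega]
        omega
    have hqmin : ∀ x, i ≤ x → x ≤ n → ∀ y, i ≤ y → y ≤ n → 2 * a i < a x + a y →
        a (i + 1) + a i ≤ a x + a y := by
      intro x hx1 hx2 y hy1 hy2 h
      have h1 : a i ≤ a x := ha.monotone hx1
      have h2 : a i ≤ a y := ha.monotone hy1
      rcases eq_or_lt_of_le hx1 with h3 | h3
      · rcases eq_or_lt_of_le hy1 with h4 | h4
        · rw [← h3, ← h4] at h; omega
        · have : a (i + 1) ≤ a y := ha.monotone h4
          omega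
      · have : a (i + 1) ≤ a x := ha.monotone h3
        omega
    rcases lt_trichotomy (a (i + 1) - a i) (a i - a (i - 1)) with hqe | hqe | hqe
    · -- q < e
      have hsi : s = i := by
        by_contra hne
        have := he1 (by omega)
        omega
      subst hsi
      have := key (s + 1) (by omega) (by omega) (by omega) U0 hU0S hU0gt
      omega
    · by_cases h1 : a i - a (i - 1) = 1
      · have hsi : s < i := by
          rcases eq_or_lt_of_le hi1 with h | h
          · rw [← h] at h1; omega
          · exact h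
        have := key (i + 1) (by omega) (by omega) (by omega) U0 hU0S hU0gt
        omega
      · -- q = e ≥ 2
        have heu : ¬ IsUnit (a i - a (i - 1)) := by
          rw [Int.isUnit_iff]
          omega
        have hexj : ∃ j, i ≤ j ∧ j ≤ n ∧ ¬ (a i - a (i - 1)) ∣ a j - a i := hd _ heu
        obtain ⟨j, ⟨hj1, hj2, hj3⟩, hjmin⟩ : ∃ j, (i ≤ j ∧ j ≤ n ∧ ¬ (a i - a (i - 1)) ∣ a j - a i) ∧
            ∀ y, i ≤ y → y < j → (a i - a (i - 1)) ∣ a y - a i := by
          refine ⟨Nat.find hexj, Nat.find_spec hexj, ?_⟩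
          intro y hy1 hy2
          have h2 := Nat.find_min hexj hy2
          have h3 := Nat.find_spec hexj
          by_contra h
          exact h2 ⟨hy1, by omega, h⟩
        have hji : i + 1 < j := by
          by_contra h
          push Not at h
          apply hj3
          rcases eq_or_lt_of_le hj1 with h2 | h2
          · rw [← h2]; simp
          · have h5 : j = i + 1 := by omega
            rw [h5, hqe]
        have hlt : a (i + 1) < a j := ha hji
        refine hins (a (i - 1) + a j) (mem_SS.mpr ⟨i - 1, by omega, j, hj2, rfl⟩) (by omega) ?_ (by omega)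
        intro hmem
        obtain ⟨_, x, hx1, hx2, y, hy1, hy2, hxy⟩ := (hU0mem _).mp hmem
        have g1 : a i ≤ a x := ha.monotone hx1
        have g2 : a i ≤ a y := ha.monotone hy1
        have g3 : x < j := by
          rw [← ha.lt_iff_lt]; omega
        have g4 : y < j := by
          rw [← ha.lt_iff_lt]; omega
        apply hj3
        have : a j - a i = (a x - a i) + (a y - a i) + (a i - a (i - 1)) := by omega
        rw [this]
        exact dvd_add (dvd_add (hjmin x hx1 g3) (hjmin y hy1 g4)) dvd_rfl
    · -- q > e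
      refine hins (a (i - 1) + a (i + 1)) (mem_SS.mpr ⟨i - 1, by omega, i + 1, by omega, rfl⟩)
        (by omega) ?_ (by omega)
      intro hmem
      obtain ⟨h1, x, hx1, hx2, y, hy1, hy2, hxy⟩ := (hU0mem _).mp hmem
      have := hqmin x hx1 hx2 y hy1 hy2 (by omega)
      omega

theorem extend (k : ℕ) (hk : 0 < k) (f : Fin k → ℤ) (hf : StrictMono f) :
    ∃ b : ℕ → ℤ, StrictMono b ∧ ∀ (j : ℕ) (h : j < k), b j = f ⟨j, h⟩ := by
  refine ⟨fun j => if h : j < k then f ⟨j, h⟩ else f ⟨k - 1, by omega⟩ + j, ?_, ?_⟩
  · intro x y hxy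
    simp only
    by_cases hy : y < k
    · have hx : x < k := by omega
      rw [dif_pos hx, dif_pos hy]
      exact hf (by simpa using hxy)
    · rw [dif_neg hy]
      by_cases hx : x < k
      · rw [dif_pos hx]
        have : f ⟨x, hx⟩ ≤ f ⟨k - 1, by omega⟩ := hf.monotone (by
          rw [Fin.mk_le_mk]; omega)
        omega
      · rw [dif_neg hx]
        omega
  · intro j h
    simp only
    rw [dif_pos h]

/-- Freiman's `3k-4` theorem. -/
theorem freiman_3k4 (A : Finset ℤ) (hA : (A + A).card + 4 ≤ 3 * A.card) :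
    ∃ a d : ℤ, 0 < d ∧ ∀ x ∈ A, ∃ i : ℕ, i + A.card ≤ (A + A).card ∧ x = a + d * i := by
  have hne : A.Nonempty := by
    rw [← card_pos]; omega
  have h2 := card_add_ge A A hne hne
  set k := A.card with hk
  have hk3 : 3 ≤ k := by omega
  set c : Fin k ↪o ℤ := A.orderEmbOfFin hk.symm with hc
  have hcmem : ∀ j, c j ∈ A := fun j => A.orderEmbOfFin_mem hk.symm j
  have hcsurj : ∀ x ∈ A, ∃ j, c j = x := by
    intro x hx
    have : x ∈ Set.range c := by
      rw [hc, range_orderEmbOfFin]; exact hx
    exact this
  set m := c ⟨0, by omega⟩ with hm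
  set g : ℤ := A.gcd (fun x => x - m) with hg
  set d : ℤ := |g| with hd
  have hdvd : ∀ x ∈ A, d ∣ x - m := by
    intro x hx
    rw [hd, abs_dvd]
    exact Finset.gcd_dvd hx
  have hd0 : 0 < d := by
    rw [hd, abs_pos]
    intro h0
    have h1 := hdvd (c ⟨1, by omega⟩) (hcmem _)
    rw [hd, h0, abs_zero, zero_dvd_iff] at h1
    have h2 : m < c ⟨1, by omega⟩ := by
      rw [hm]; exact c.strictMono (by rw [Fin.mk_lt_mk]; omega)
    omega
  set f : Fin k → ℤ := fun j => (c j - m) / d with hf
  have hfd : ∀ j, d * f j = c j - m := by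
    intro j
    exact Int.mul_ediv_cancel' (hdvd _ (hcmem j))
  have hfm : StrictMono f := by
    intro x y hxy
    have h1 := hfd x
    have h2 := hfd y
    have h3 : c x < c y := c.strictMono hxy
    have h4 : d * f x < d * f y := by omega
    exact lt_of_mul_lt_mul_left h4 hd0.le
  obtain ⟨b, hb, hbf⟩ := extend k (by omega) f hfm
  have hb0 : b 0 = 0 := by
    rw [hbf 0 (by omega)]
    have := hfd ⟨0, by omega⟩
    rw [← hm, sub_self] at this
    rcases mul_eq_zero.mp this with h | h
    · omega
    · exact h
  set n := k - 1 with hn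
  have hbd : ∀ j (h : j < k), d * b j + m = c ⟨j, h⟩ := by
    intro j h
    rw [hbf j h, hfd]; ring
  have hgcd : ∀ d' : ℤ, (∀ j, j ≤ n → d' ∣ b j) → IsUnit d' := by
    intro d' hd'
    have h1 : d * d' ∣ g := by
      rw [hg]
      apply Finset.dvd_gcd
      intro x hx
      obtain ⟨j, rfl⟩ := hcsurj x hx
      rw [← hfd j]
      apply mul_dvd_mul_left
      have := hd' j.1 (by have := j.2; omega)
      rwa [hbf j.1 j.2] at this
    have h2 : d * d' ∣ d * 1 := by
      rw [mul_one]
      conv_rhs => rw [hd]
      exact (dvd_abs _ _).mpr h1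
    exact isUnit_of_dvd_one ((mul_dvd_mul_iff_left hd0.ne').mp h2)
  have hle : (SS n b).card ≤ (A + A).card := by
    have h1 : (SS n b).image (fun v => d * v + 2 * m) ⊆ A + A := by
      intro v hv
      rw [mem_image] at hv
      obtain ⟨w, hw, rfl⟩ := hv
      obtain ⟨x, hx, y, hy, rfl⟩ := mem_SS.mp hw
      rw [mem_add]
      refine ⟨c ⟨x, by omega⟩, hcmem _, c ⟨y, by omega⟩, hcmem _, ?_⟩
      rw [← hbd x (by omega), ← hbd y (by omega)]
      ring
    have h3 : Function.Injective (fun v : ℤ => d * v + 2 * m) := by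
      intro x y hxy
      simp only [add_left_inj] at hxy
      exact mul_left_cancel₀ hd0.ne' hxy
    rw [← card_image_of_injective _ h3]
    exact card_le_card h1
  have hbn : b n ≤ 2 * (n : ℤ) - 1 := by
    by_contra h
    push Not at h
    have := sparse n b hb hb0 hgcd (by omega)
    omega
  have hdn := dense n b hb hb0 (by omega) hbn
  refine ⟨m, d, hd0, ?_⟩
  intro x hx
  obtain ⟨j, rfl⟩ := hcsurj x hx
  have h5 := hbd j.1 j.2
  have h6 : b j.1 ≤ b n := hb.monotone (by have := j.2; omega)
  have h7 : 0 ≤ b j.1 := by rw [← hb0]; exact hb.monotone (Nat.zero_le _)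
  refine ⟨(b j.1).toNat, by omega, ?_⟩
  rw [Int.toNat_of_nonneg h7]
  have h8 : c j = c ⟨j.1, j.2⟩ := rfl
  rw [h8, ← h5]; ring

end Pool.Agent.MP_116850_co.BlockK
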