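import Mathlib
import Pool.Agent.MP_116850_co.Defs

set_option autoImplicit false

namespace Pool.Agent.MP_116850_co

namespace BlockP

open Finset

/-- number of representations of `z` as `a + b` -/
def rep {p : ℕ} (A B : Finset (ZMod p)) (z : ZMod p) : ℕ :=
  ∑ a ∈ A, ∑ b ∈ B, if a + b = z then 1 else 0

variable {p : ℕ} [Fact p.Prime]

lemma inner_eq (B : Finset (ZMod p)) (a z : ZMod p) :
    (∑ b ∈ B, if a + b = z then 1 else 0) = if z - a ∈ B then 1 else 0 := by
  have : ∀ b, (a + b = z) ↔ (z - a = b) := by
    intro b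
    constructor
    · intro h; rw [← h]; ring
    · intro h; rw [← h]; ring
  simp only [this]
  rw [Finset.sum_ite_eq]

lemma rep_eq (A B : Finset (ZMod p)) (z : ZMod p) :
    rep A B z = ∑ a ∈ A, if z - a ∈ B then 1 else 0 := by
  unfold rep
  exact Finset.sum_congr rfl (fun a _ => inner_eq B a z)

lemma rep_comm (A B : Finset (ZMod p)) (z : ZMod p) : rep A B z = rep B A z := by
  unfold rep
  rw [Finset.sum_comm]
  simp only [add_comm]

lemma rep_le_left (A B : Finset (ZMod p)) (z : ZMod p) : rep A B z ≤ A.card := by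
  rw [rep_eq]
  calc (∑ a ∈ A, if z - a ∈ B then 1 else 0) ≤ ∑ a ∈ A, 1 :=
        Finset.sum_le_sum (fun a _ => by split_ifs <;> omega)
    _ = A.card := by simp

lemma rep_le_right (A B : Finset (ZMod p)) (z : ZMod p) : rep A B z ≤ B.card := by
  rw [rep_comm]; exact rep_le_left B A z

lemma sum_rep (A B : Finset (ZMod p)) : ∑ z, rep A B z = A.card * B.card := by
  unfold rep
  rw [Finset.sum_comm]
  have : ∀ a ∈ A, (∑ z : ZMod p, ∑ b ∈ B, if a + b = z then 1 else 0) = B.card := by
    intro a _
    rw [Finset.sum_comm]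
    simp
  rw [Finset.sum_congr rfl this]
  simp

omit [Fact p.Prime] in
lemma rep_union_left (A A' B : Finset (ZMod p)) (h : Disjoint A A') (z : ZMod p) :
    rep (A ∪ A') B z = rep A B z + rep A' B z := by
  unfold rep
  rw [Finset.sum_union h]

lemma rep_union_right (A B B' : Finset (ZMod p)) (h : Disjoint B B') (z : ZMod p) :
    rep A (B ∪ B') z = rep A B z + rep A B' z := by
  rw [rep_comm, rep_union_left _ _ _ h, rep_comm B, rep_comm B']

lemma rep_shift (A B : Finset (ZMod p)) (g z : ZMod p) :
    rep A (B.image (fun b => b + g)) z = rep A B (z - g) := by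
  rw [rep_eq, rep_eq]
  apply Finset.sum_congr rfl
  intro a _
  have : (z - a ∈ B.image (fun b => b + g)) ↔ (z - g - a ∈ B) := by
    rw [Finset.mem_image]
    constructor
    · rintro ⟨b, hb, h⟩
      have : b = z - g - a := by
        rw [sub_sub, add_comm g a, ← sub_sub, ← h]; ring
      rwa [← this]
    · intro h
      exact ⟨_, h, by ring⟩
  simp only [this]

lemma eq_univ_of_add (A : Finset (ZMod p)) (hA : A.Nonempty) (d : ZMod p) (hd : d ≠ 0)
    (h : ∀ a ∈ A, a + d ∈ A) : A = Finset.univ := by
  obtain ⟨a0, ha0⟩ := hA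
  have key : ∀ n : ℕ, a0 + n * d ∈ A := by
    intro n
    induction n with
    | zero => simpa using ha0
    | succ n ih =>
      have := h _ ih
      have e : a0 + ((n + 1 : ℕ) : ZMod p) * d = a0 + n * d + d := by push_cast; ring
      rw [e]; exact this
  ext x
  simp only [Finset.mem_univ, iff_true]
  have := key ((x - a0) / d).val
  rw [ZMod.natCast_zmod_val] at this
  rw [div_mul_cancel₀ _ hd] at this
  simpa using this

/-- Pollard's theorem. -/
theorem pollard (n : ℕ) : ∀ (A B : Finset (ZMod p)) (t : ℕ), B.card = n → B.card ≤ A.card →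
    t ≤ B.card → A.card + B.card - t ≤ p →
    t * (A.card + B.card - t) ≤ ∑ z, min t (rep A B z) := by
  induction n using Nat.strong_induction_on with
  | _ n ih =>
  intro A B t hn hBA htB hp
  rcases Nat.eq_or_lt_of_le htB with htB' | htB'
  · -- t = |B|
    have h1 : ∀ z, min t (rep A B z) = rep A B z := by
      intro z
      apply min_eq_right
      rw [htB']; exact rep_le_right A B z
    simp only [h1]
    rw [sum_rep, htB', Nat.add_sub_cancel, mul_comm]
  rcases Nat.eq_zero_or_pos t with ht0 | ht0
  · subst ht0; simp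
  -- t < |B|
  have hAlt : A.card < p := by omega
  have hAne : A.Nonempty := by
    rw [← Finset.card_pos]; omega
  have hB2 : 1 < B.card := by omega
  obtain ⟨b1, hb1, b2, hb2, hb12⟩ := Finset.one_lt_card.mp hB2
  have hd : b2 - b1 ≠ 0 := sub_ne_zero.mpr (Ne.symm hb12)
  have hex : ∃ a ∈ A, a + (b2 - b1) ∉ A := by
    by_contra hcon
    push Not at hcon
    have := eq_univ_of_add A hAne _ hd hcon
    rw [this, Finset.card_univ, ZMod.card] at hAlt
    exact lt_irrefl _ hAlt
  obtain ⟨a, haA, haN⟩ := hex
  set g : ZMod p := a - b1 with hg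
  set B' : Finset (ZMod p) := B.image (fun b => b + g) with hB'
  have hB'card : B'.card = B.card := by
    rw [hB']
    exact Finset.card_image_of_injective _ (add_left_injective g)
  have hsum : ∑ z, min t (rep A B z) = ∑ z, min t (rep A B' z) := by
    have : ∀ z, rep A B' z = rep A B (z - g) := fun z => rep_shift A B g z
    simp only [this]
    exact (Equiv.sum_comp (Equiv.subRight g) (fun z => min t (rep A B z))).symm
  rw [hsum]
  have haI : a ∈ A ∩ B' := by
    rw [Finset.mem_inter]
    refine ⟨haA, ?_⟩
    rw [hB', Finset.mem_image]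
    exact ⟨b1, hb1, by rw [hg]; ring⟩
  have haI2 : a + (b2 - b1) ∈ B' \ A := by
    rw [Finset.mem_sdiff]
    refine ⟨?_, haN⟩
    rw [hB', Finset.mem_image]
    exact ⟨b2, hb2, by rw [hg]; ring⟩
  set I := A ∩ B' with hI
  set A1 := A \ B' with hA1
  set B1 := B' \ A with hB1
  have hIpos : 0 < I.card := Finset.card_pos.mpr ⟨_, haI⟩
  have hB1pos : 0 < B1.card := Finset.card_pos.mpr ⟨_, haI2⟩
  have cA : A1.card + I.card = A.card := Finset.card_sdiff_add_card_inter A B'
  have cB : B1.card + I.card = B.card := by
    rw [← hB'card, hB1, hI, Finset.inter_comm]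
    exact Finset.card_sdiff_add_card_inter B' A
  have dA : Disjoint A1 I := Finset.disjoint_sdiff_inter A B'
  have eA : A1 ∪ I = A := Finset.sdiff_union_inter A B'
  have dB : Disjoint B1 I := by
    rw [hB1, hI, Finset.inter_comm]
    exact Finset.disjoint_sdiff_inter B' A
  have eB : B1 ∪ I = B' := by
    rw [hB1, hI, Finset.inter_comm]
    exact Finset.sdiff_union_inter B' A
  have dAB : Disjoint A1 B1 := by
    rw [Finset.disjoint_left]
    intro x hx hx'
    exact (Finset.mem_sdiff.mp hx').2 (Finset.mem_sdiff.mp hx).1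
  set U := A1 ∪ B1 ∪ I with hU
  have dU : Disjoint (A1 ∪ B1) I := Finset.disjoint_union_left.mpr ⟨dA, dB⟩
  have cU : U.card = A1.card + B1.card + I.card := by
    rw [hU, Finset.card_union_of_disjoint dU, Finset.card_union_of_disjoint dAB]
  have dec : ∀ z, rep A B' z = rep U I z + rep A1 B1 z := by
    intro z
    rw [hU, rep_union_left _ _ _ dU, rep_union_left _ _ _ dAB]
    conv_lhs => rw [← eA, ← eB]
    rw [rep_union_left _ _ _ dA, rep_union_right _ _ _ dB, rep_union_right _ _ _ dB,
      rep_comm I B1]
    ring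
  by_cases hti : t ≤ I.card
  · have hrec := ih I.card (by omega) U I t rfl (by omega) hti (by omega)
    have e1 : U.card + I.card - t = A.card + B.card - t := by omega
    rw [e1] at hrec
    refine hrec.trans (Finset.sum_le_sum ?_)
    intro z _
    rw [dec z]
    exact min_le_min le_rfl (Nat.le_add_right _ _)
  · push Not at hti
    have hrec := ih B1.card (by omega) A1 B1 (t - I.card) rfl (by omega) (by omega) (by omega)
    have hUI : ∑ z, min I.card (rep U I z) = U.card * I.card := by
      have : ∀ z, min I.card (rep U I z) = rep U I z := fun z =>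
        min_eq_right (rep_le_right U I z)
      simp only [this]
      exact sum_rep U I
    have hmin : ∀ z, min I.card (rep U I z) + min (t - I.card) (rep A1 B1 z) ≤
        min t (rep A B' z) := by
      intro z
      rw [dec z]
      omega
    have h2 : U.card * I.card + (t - I.card) * (A1.card + B1.card - (t - I.card)) ≤
        ∑ z, min t (rep A B' z) := by
      calc U.card * I.card + (t - I.card) * (A1.card + B1.card - (t - I.card))
          ≤ ∑ z, min I.card (rep U I z) + ∑ z, min (t - I.card) (rep A1 B1 z) := by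
            rw [hUI]; exact Nat.add_le_add_left hrec _
        _ = ∑ z, (min I.card (rep U I z) + min (t - I.card) (rep A1 B1 z)) :=
            Finset.sum_add_distrib.symm
        _ ≤ _ := Finset.sum_le_sum (fun z _ => hmin z)
    refine le_trans (le_of_eq ?_) h2
    have e2 : A1.card + B1.card - (t - I.card) = A1.card + B1.card + I.card - t := by omega
    have e3 : A.card + B.card - t = (A1.card + B1.card + I.card - t) + I.card := by omega
    rw [e2, e3, cU]
    obtain ⟨s, hs⟩ : ∃ s, t = I.card + s := ⟨t - I.card, by omega⟩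
    obtain ⟨w, hw⟩ : ∃ w, A1.card + B1.card + I.card = t + w :=
      ⟨A1.card + B1.card + I.card - t, by omega⟩
    rw [hw, hs]
    have e4 : I.card + s - I.card = s := by omega
    have e5 : I.card + s + w - (I.card + s) = w := by omega
    rw [e4, e5]
    ring

lemma rep_neg (S : Finset (ZMod p)) (y : ZMod p) :
    rep S (S.image (fun s => -s)) y + lam S y = S.card := by
  have h1 : rep S (S.image (fun s => -s)) y = (S.image (fun s => s + y) ∩ S).card := by
    rw [rep_comm, rep_eq]
    rw [← Finset.card_filter]
    have : S.image (fun s => s + y) ∩ S =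
        ((S.image (fun s => -s)).filter (fun a => y - a ∈ S)).image (fun a => y - a) := by
      ext x
      simp only [Finset.mem_inter, Finset.mem_image, Finset.mem_filter]
      constructor
      · rintro ⟨⟨s, hs, rfl⟩, hx⟩
        exact ⟨-s, ⟨⟨s, hs, rfl⟩, by simpa [add_comm] using hx⟩, by ring⟩
      · rintro ⟨_, ⟨⟨s, hs, rfl⟩, h2⟩, rfl⟩
        exact ⟨⟨s, hs, by ring⟩, h2⟩
    rw [this, Finset.card_image_of_injective _ sub_right_injective]
  rw [h1]
  unfold lam
  have := Finset.card_sdiff_add_card_inter (S.image (fun s => s + y)) S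
  rw [Finset.card_image_of_injective _ (add_left_injective y)] at this
  omega

end BlockP

open BlockP in
/-- Block P (Pollard / Olson). -/
theorem BlockP.sum_lam {p : ℕ} [Fact p.Prime] (S Y : Finset (ZMod p)) (h : ℕ)
    (hY : Y.card = 2 * h + 1) (h1 : h + 1 ≤ S.card) (h2 : S.card + h ≤ p) :
    h * (h + 1) ≤ ∑ y ∈ Y, lam S y := by
  obtain ⟨t, ht⟩ : ∃ t, S.card = h + t := ⟨S.card - h, by omega⟩
  have hnc : (S.image (fun s => -s)).card = S.card :=
    Finset.card_image_of_injective _ neg_injective
  have hpol := pollard (S.image (fun s => -s)).card S (S.image (fun s => -s)) t rfl (by omega)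
    (by omega) (by omega)
  rw [hnc] at hpol
  set T : Finset (ZMod p) := S.image (fun s => -s) with hT
  have hsum := sum_rep S T
  rw [hnc] at hsum
  have hA : ∑ y ∈ Y, rep S T y ≤ t * Y.card + ∑ z, (rep S T z - min t (rep S T z)) := by
    calc ∑ y ∈ Y, rep S T y
        ≤ ∑ y ∈ Y, (t + (rep S T y - min t (rep S T y))) :=
          Finset.sum_le_sum (fun y _ => by omega)
      _ = t * Y.card + ∑ y ∈ Y, (rep S T y - min t (rep S T y)) := by
          rw [Finset.sum_add_distrib, Finset.sum_const, smul_eq_mul, mul_comm]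
      _ ≤ _ := Nat.add_le_add_left
          (Finset.sum_le_sum_of_subset (Finset.subset_univ Y)) _
  have hB : ∑ z, (rep S T z - min t (rep S T z)) + ∑ z, min t (rep S T z) =
      S.card * S.card := by
    rw [← Finset.sum_add_distrib, ← hsum]
    exact Finset.sum_congr rfl (fun z _ => by omega)
  have hC : ∑ y ∈ Y, rep S T y + ∑ y ∈ Y, lam S y = Y.card * S.card := by
    rw [← Finset.sum_add_distrib]
    rw [Finset.sum_congr rfl (fun y _ => rep_neg S y)]
    simp
  have e1 : S.card + S.card - t = 2 * h + t := by omega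
  rw [e1] at hpol
  rw [ht] at hB hC
  rw [hY] at hA hC
  set X := ∑ z, (rep S T z - min t (rep S T z))
  set M := ∑ z, min t (rep S T z)
  set R := ∑ y ∈ Y, rep S T y
  set Lm := ∑ y ∈ Y, lam S y
  nlinarith

end Pool.Agent.MP_116850_co
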