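import Mathlib

set_option autoImplicit false

namespace Pool.Agent.MP_116850_co.BlockZ

open Finset

/-- the group lemma -/
theorem closed_add {G : Type*} [AddCommGroup G] [DecidableEq G] (M : Finset G) (h0 : (0 : G) ∉ M)
    (h3 : 3 ≤ M.card) (hP : ∀ B ⊆ M, ∑ x ∈ B, x ∈ insert (0 : G) M) :
    ∀ a ∈ insert (0 : G) M, ∀ b ∈ insert (0 : G) M, a + b ∈ insert (0 : G) M := by
  -- `H b` : translation by `b` preserves `insert 0 M`
  have claimA : ∀ b ∈ M, (∃ B ⊆ M.erase b, ∑ x ∈ B, x = b) →
      ∀ a ∈ insert (0 : G) M, a + b ∈ insert (0 : G) M := by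
    rintro b hb ⟨B, hB, hBs⟩ a ha
    have : ∃ B' ⊆ M.erase b, ∑ x ∈ B', x = a := by
      rcases mem_insert.mp ha with rfl | ha
      · exact ⟨∅, empty_subset _, rfl⟩
      · by_cases hab : a = b
        · exact ⟨B, hB, hab ▸ hBs⟩
        · exact ⟨{a}, by simp [ha, hab], by simp⟩
    obtain ⟨B', hB', hs⟩ := this
    have hnot : b ∉ B' := fun h => (mem_erase.mp (hB' h)).1 rfl
    have h1 : ∑ x ∈ insert b B', x = a + b := by
      rw [sum_insert hnot, hs, add_comm]
    rw [← h1]
    refine hP _ (insert_subset hb (hB'.trans (erase_subset _ _)))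
  have claimB : ∀ b ∈ M, ∀ a ∈ insert (0 : G) M, a + b ∈ insert (0 : G) M := by
    by_contra hcon
    push Not at hcon
    obtain ⟨b₀, hb₀, hnot⟩ := hcon
    have hb₀H : ¬ ∀ a ∈ insert (0 : G) M, a + b₀ ∈ insert (0 : G) M := by
      push Not; exact hnot
    by_cases hex : ∃ h ∈ M, ∀ a ∈ insert (0 : G) M, a + h ∈ insert (0 : G) M
    · obtain ⟨h, hh, hH⟩ := hex
      have hne : h ≠ b₀ := fun e => hb₀H (e ▸ hH)
      have himg : (insert (0 : G) M).image (fun a => a + h) = insert (0 : G) M := by
        refine eq_of_subset_of_card_le ?_ ?_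
        · intro x hx
          obtain ⟨a, ha, rfl⟩ := mem_image.mp hx
          exact hH a ha
        · rw [card_image_of_injective _ (add_left_injective h)]
      have hb₀' : b₀ ∈ (insert (0 : G) M).image (fun a => a + h) := by
        rw [himg]; exact mem_insert_of_mem hb₀
      obtain ⟨a, ha, hah⟩ := mem_image.mp hb₀'
      have ha0 : a ≠ 0 := by
        rintro rfl
        exact hne (by rw [← hah, zero_add])
      have haM : a ∈ M := (mem_insert.mp ha).resolve_left ha0
      have hab : a ≠ b₀ := by
        intro e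
        rw [e] at hah
        have : h = 0 := by simpa using hah
        exact h0 (this ▸ hh)
      have hahne : a ≠ h := by
        intro e
        apply hb₀H
        intro c hc
        have h1 := hH _ (hH c hc)
        rw [← hah, e, ← add_assoc]
        exact h1
      apply hb₀H
      refine claimA b₀ hb₀ ⟨{a, h}, ?_, ?_⟩
      · intro x hx
        rw [mem_insert, mem_singleton] at hx
        rcases hx with rfl | rfl
        · exact mem_erase.mpr ⟨hab, haM⟩
        · exact mem_erase.mpr ⟨hne, hh⟩
      · rw [sum_pair hahne, hah]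
    · push Not at hex
      have hzero : ∀ x ∈ M, ∀ z ∈ M, x ≠ z → x + z = 0 := by
        intro x hx z hz hxz
        have hs := hP {x, z} (by
          intro w hw
          rw [mem_insert, mem_singleton] at hw
          rcases hw with rfl | rfl <;> assumption)
        rw [sum_pair hxz] at hs
        rcases mem_insert.mp hs with hs | hs
        · exact hs
        · exfalso
          obtain ⟨a, ha, hna⟩ := hex _ hs
          refine hna (claimA _ hs ⟨{x, z}, ?_, sum_pair hxz⟩ a ha)
          intro w hw
          rw [mem_insert, mem_singleton] at hw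
          have hx0 : x ≠ 0 := fun e => h0 (e ▸ hx)
          have hz0 : z ≠ 0 := fun e => h0 (e ▸ hz)
          rcases hw with rfl | rfl
          · exact mem_erase.mpr ⟨fun e => hz0 (by simpa using e.symm), hx⟩
          · exact mem_erase.mpr ⟨fun e => hx0 (by simpa using e.symm), hz⟩
      obtain ⟨b1, h1, b2, h2, b3, h3', h12, h13, h23⟩ :=
        (Finset.two_lt_card (s := M)).mp (by omega)
      have e1 := hzero b1 h1 b2 h2 h12
      have e2 := hzero b1 h1 b3 h3' h13
      exact h23 (add_left_cancel (e1.trans e2.symm))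
  intro a ha b hb
  rcases mem_insert.mp hb with rfl | hb
  · simpa using ha
  · exact claimB b hb a ha

theorem residues (N : Finset ℕ) (y : ℕ) (hy0 : 0 < y) (hy : y ∈ N)
    (hle : N.subsetSum.card ≤ (N.erase y).subsetSum.card + N.card) :
    ((N.erase y).subsetSum.image (fun s => s % y)).card ≤ N.card := by
  classical
  set S := (N.erase y).subsetSum with hS
  set T := N.subsetSum with hT
  have hST : S ⊆ T := subsetSum_mono (erase_subset _ _)
  have hadd : ∀ s ∈ S, s + y ∈ T := by
    intro s hs
    obtain ⟨B, hB, rfl⟩ := mem_subsetSum_iff.mp hs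
    refine mem_subsetSum_iff.mpr ⟨insert y B, insert_subset hy (hB.trans (erase_subset _ _)), ?_⟩
    have hnot : y ∉ B := fun h => (mem_erase.mp (hB h)).1 rfl
    rw [sum_insert hnot, add_comm]
  have hmax : ∀ r ∈ S.image (fun s => s % y), ∃ t ∈ T \ S, t % y = r := by
    intro r hr
    obtain ⟨s₀, hs₀, hr₀⟩ := mem_image.mp hr
    have hne : (S.filter fun s => s % y = r).Nonempty := ⟨s₀, mem_filter.mpr ⟨hs₀, hr₀⟩⟩
    obtain ⟨s, hs, hsmax⟩ := Finset.exists_max_image _ (fun s => s) hne
    rw [mem_filter] at hs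
    refine ⟨s + y, mem_sdiff.mpr ⟨hadd s hs.1, fun hcon => ?_⟩, by rw [Nat.add_mod_right]; exact hs.2⟩
    have := hsmax (s + y) (mem_filter.mpr ⟨hcon, by rw [Nat.add_mod_right]; exact hs.2⟩)
    omega
  have h1 : (S.image (fun s => s % y)).card ≤ (T \ S).card := by
    have hsub : S.image (fun s => s % y) ⊆ (T \ S).image (fun s => s % y) := by
      intro r hr
      obtain ⟨t, ht, htr⟩ := hmax r hr
      exact mem_image.mpr ⟨t, ht, htr⟩
    exact (card_le_card hsub).trans card_image_le
  have h2 := card_sdiff_add_card_eq_card hST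
  omega

theorem int_lemma (N : Finset ℕ) (hpos : ∀ x ∈ N, 0 < x) (y : ℕ) (hy : y ∈ N)
    (hmax : ∀ x ∈ N, x ≤ y) (h4 : 4 ≤ N.card)
    (hle : N.subsetSum.card ≤ (N.erase y).subsetSum.card + N.card) :
    ∃ d : ℕ, 0 < d ∧ N = (Finset.Icc 1 N.card).image (fun i => d * i) := by
  classical
  have hy0 : 0 < y := hpos y hy
  have : NeZero y := ⟨hy0.ne'⟩
  set M := N.erase y with hM
  have hMlt : ∀ x ∈ M, x < y := fun x hx =>
    lt_of_le_of_ne (hmax x (mem_of_mem_erase hx)) (mem_erase.mp hx).1
  have hMpos : ∀ x ∈ M, 0 < x := fun x hx => hpos x (mem_of_mem_erase hx)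
  have hMcard : M.card + 1 = N.card := card_erase_add_one hy
  have h0M : (0 : ℕ) ∉ M := fun h => (hMpos 0 h).false
  -- the residues are exactly `insert 0 M`
  have hR := residues N y hy0 hy hle
  have hsub : insert 0 M ⊆ M.subsetSum.image (fun s => s % y) := by
    intro x hx
    rcases mem_insert.mp hx with rfl | hx
    · exact mem_image.mpr ⟨0, zero_mem_subsetSum, Nat.zero_mod _⟩
    · exact mem_image.mpr ⟨x, subset_subsetSum hx, Nat.mod_eq_of_lt (hMlt x hx)⟩
  have hReq : insert 0 M = M.subsetSum.image (fun s => s % y) := by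
    refine eq_of_subset_of_card_le hsub ?_
    rw [card_insert_of_notMem h0M, hMcard]
    exact hR
  have hD : ∀ B ⊆ M, (∑ x ∈ B, x) % y ∈ insert 0 M := by
    intro B hB
    rw [hReq]
    exact mem_image.mpr ⟨_, mem_subsetSum_iff.mpr ⟨B, hB, rfl⟩, rfl⟩
  have hlt0 : ∀ x ∈ insert 0 M, x < y := by
    intro x hx
    rcases mem_insert.mp hx with rfl | hx
    · exact hy0
    · exact hMlt x hx
  -- pass to `ZMod y`
  set c : ℕ → ZMod y := fun n => (n : ZMod y) with hc
  have hcinj : ∀ a < y, ∀ b < y, c a = c b → a = b := by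
    intro a ha b hb hab
    have := (ZMod.natCast_eq_natCast_iff' a b y).mp hab
    rwa [Nat.mod_eq_of_lt ha, Nat.mod_eq_of_lt hb] at this
  have hclosed := closed_add (M.image c) (by
      intro h
      obtain ⟨x, hx, hx0⟩ := mem_image.mp h
      have : x = 0 := hcinj x (hMlt x hx) 0 hy0 (by rw [hx0, hc]; simp)
      exact h0M (this ▸ hx))
    (by
      rw [card_image_of_injOn]
      · omega
      · intro a ha b hb hab
        exact hcinj a (hMlt a ha) b (hMlt b hb) hab)
    (by
      intro B hB
      obtain ⟨B', hB', rfl⟩ := Finset.subset_image_iff.mp hB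
      rw [sum_image]
      · have h1 := hD B' hB'
        have h2 : ∑ x ∈ B', c x = c ((∑ x ∈ B', x) % y) := by
          simp only [hc]
          rw [ZMod.natCast_mod]
          push_cast; rfl
        rw [h2]
        rcases mem_insert.mp h1 with h1 | h1
        · rw [h1]; simp [hc]
        · exact mem_insert_of_mem (mem_image_of_mem _ h1)
      · intro a ha b hb hab
        exact hcinj a (hMlt a (hB' ha)) b (hMlt b (hB' hb)) hab)
  have hmem : ∀ n : ℕ, n % y ∈ insert 0 M ↔ c n ∈ insert (0 : ZMod y) (M.image c) := by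
    intro n
    constructor
    · intro h
      have h2 : c n = c (n % y) := by simp only [hc]; rw [ZMod.natCast_mod]
      rw [h2]
      rcases mem_insert.mp h with h | h
      · rw [h]; simp [hc]
      · exact mem_insert_of_mem (mem_image_of_mem _ h)
    · intro h
      rcases mem_insert.mp h with h | h
      · have h1 : n % y = 0 := by
          have := (ZMod.natCast_eq_zero_iff n y).mp h
          exact Nat.mod_eq_zero_of_dvd this
        rw [h1]; exact mem_insert_self _ _
      · obtain ⟨x, hx, hxn⟩ := mem_image.mp h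
        have h1 : x = n % y := by
          refine hcinj x (hMlt x hx) _ (Nat.mod_lt _ hy0) ?_
          rw [hxn]; simp only [hc]; rw [ZMod.natCast_mod]
        rw [← h1]; exact mem_insert_of_mem hx
  have hQadd : ∀ n k : ℕ, n % y ∈ insert 0 M → k % y ∈ insert 0 M → (n + k) % y ∈ insert 0 M := by
    intro n k hn hk
    rw [hmem] at hn hk ⊢
    have : c (n + k) = c n + c k := by simp [hc]
    rw [this]
    exact hclosed _ hn _ hk
  have hQmul : ∀ n k : ℕ, n % y ∈ insert 0 M → (k * n) % y ∈ insert 0 M := by
    intro n k hn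
    induction k with
    | zero => simp
    | succ k ih => rw [add_mul, one_mul]; exact hQadd _ _ ih hn
  -- the minimum
  have hMne : M.Nonempty := by
    rw [← card_pos]; omega
  obtain ⟨a, haM, hamin⟩ := Finset.exists_min_image M (fun x => x) hMne
  have ha0 : 0 < a := hMpos a haM
  have hQa : a % y ∈ insert 0 M := by
    rw [Nat.mod_eq_of_lt (hMlt a haM)]; exact mem_insert_of_mem haM
  have hrem : ∀ b : ℕ, b % y ∈ insert 0 M → a ∣ b := by
    intro b hb
    have h1 : (b + ((b / a) * (y - 1)) * a) % y ∈ insert 0 M := hQadd _ _ hb (hQmul _ _ hQa)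
    have h2 : b + ((b / a) * (y - 1)) * a = b % a + (b / a) * a * y := by
      obtain ⟨y', rfl⟩ : ∃ y', y = y' + 1 := ⟨y - 1, by omega⟩
      rw [Nat.add_sub_cancel]
      have h5 := Nat.mod_add_div b a
      generalize b / a = q at h5 ⊢
      generalize b % a = r at h5 ⊢
      rw [← h5]
      ring
    rw [h2, Nat.add_mul_mod_self_right] at h1
    have h3 : b % a < a := Nat.mod_lt _ ha0
    rw [Nat.mod_eq_of_lt (h3.trans (hMlt a haM))] at h1
    rcases mem_insert.mp h1 with h1 | h1
    · exact Nat.dvd_of_mod_eq_zero h1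
    · have := hamin _ h1
      omega
  have hay : a ∣ y := hrem y (by rw [Nat.mod_self]; exact mem_insert_self _ _)
  obtain ⟨q, hq⟩ := hay
  have hNeq : N = (Finset.Icc 1 q).image (fun i => a * i) := by
    ext x
    rw [mem_image]
    constructor
    · intro hx
      by_cases hxy : x = y
      · refine ⟨q, mem_Icc.mpr ⟨?_, le_rfl⟩, by rw [hxy, hq]⟩
        by_contra hcon
        have : q = 0 := by omega
        rw [this] at hq; omega
      · have hxM : x ∈ M := mem_erase.mpr ⟨hxy, hx⟩
        obtain ⟨i, rfl⟩ := hrem x (by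
          rw [Nat.mod_eq_of_lt (hMlt x hxM)]; exact mem_insert_of_mem hxM)
        refine ⟨i, mem_Icc.mpr ⟨?_, ?_⟩, rfl⟩
        · by_contra hcon
          have hi0 : i = 0 := by omega
          have h6 := hMpos _ hxM
          rw [hi0, Nat.mul_zero] at h6
          exact h6.false
        · have h1 := hMlt _ hxM
          rw [hq] at h1
          exact (Nat.lt_of_mul_lt_mul_left h1).le
    · rintro ⟨i, hi, rfl⟩
      rw [mem_Icc] at hi
      rcases eq_or_lt_of_le hi.2 with h | h
      · rw [h, ← hq]; exact hy
      · have h1 : a * i < y := by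
          rw [hq]; exact Nat.mul_lt_mul_of_pos_left h ha0
        have h2 := hQmul a i hQa
        rw [mul_comm, Nat.mod_eq_of_lt h1] at h2
        rcases mem_insert.mp h2 with h2 | h2
        · have : 0 < a * i := Nat.mul_pos ha0 (by omega)
          omega
        · exact mem_of_mem_erase h2
  refine ⟨a, ha0, ?_⟩
  have hcard : N.card = q := by
    rw [hNeq, card_image_of_injective, Nat.card_Icc]
    · omega
    · intro i j hij
      exact Nat.eq_of_mul_eq_mul_left ha0 hij
  rw [hcard]
  exact hNeq

end Pool.Agent.MP_116850_co.BlockZ
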