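import Pool.Agent.MP_116850_co.Defs
import Pool.Agent.MP_116850_co.BlockP
import Pool.Agent.MP_116850_co.BlockF
import Pool.Agent.MP_116850_co.BlockK
import Pool.Agent.MP_116850_co.BlockZ

set_option autoImplicit false

namespace Pool.Agent.MP_116850_co

open Finset
open scoped Pointwise

/-- Block P (Pollard / Olson). -/
theorem sum_lam {p : ℕ} [Fact p.Prime] (S Y : Finset (ZMod p)) (h : ℕ)
    (hY : Y.card = 2 * h + 1) (h1 : h + 1 ≤ S.card) (h2 : S.card + h ≤ p) :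
    h * (h + 1) ≤ ∑ y ∈ Y, lam S y := BlockP.sum_lam S Y h hY h1 h2

/-- Block F (Fourier). -/
theorem fourier {p : ℕ} [Fact p.Prime] (S B : Finset (ZMod p)) (L : ℕ)
    (hS : S.Nonempty) (hS' : S.card < p) (hL : ∀ x ∈ B, lam S x ≤ L) :
    ∃ r : ZMod p, r ≠ 0 ∧
      (∑ x ∈ B, cost p (r * x).valMinAbs.natAbs) * (S.card * (p - S.card)) ≤
        B.card * L * p ^ 3 := BlockF.fourier S B L hS hS' hL

/-- Block K (Freiman's 3k-4 theorem). -/
theorem freiman_3k4 (A : Finset ℤ) (hA : (A + A).card + 4 ≤ 3 * A.card) :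
    ∃ a d : ℤ, 0 < d ∧ ∀ x ∈ A, ∃ i : ℕ, i + A.card ≤ (A + A).card ∧ x = a + d * i :=
  BlockK.freiman_3k4 A hA

/-- Block Z (integer lemma). -/
theorem int_lemma (N : Finset ℕ) (hpos : ∀ x ∈ N, 0 < x) (y : ℕ) (hy : y ∈ N)
    (hmax : ∀ x ∈ N, x ≤ y) (h4 : 4 ≤ N.card)
    (hle : N.subsetSum.card ≤ (N.erase y).subsetSum.card + N.card) :
    ∃ d : ℕ, 0 < d ∧ N = (Finset.Icc 1 N.card).image (fun i => d * i) :=
  BlockZ.int_lemma N hpos y hy hmax h4 hle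

end Pool.Agent.MP_116850_co
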