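import Pool.Agent.MP_116850_co.Defs2
import Pool.Agent.MP_116850_co.Basic
import Pool.Agent.MP_116850_co.Spec

set_option autoImplicit false

namespace Pool.Agent.MP_116850_co.BlockO

open Finset
open scoped Pointwise

theorem int_struct (A : Finset ℤ) (h0 : (0 : ℤ) ∈ A) (hsym : ∀ x ∈ A, -x ∈ A)
    (hc : (A + A).card + 4 ≤ 3 * A.card) :
    ∃ d L : ℕ, 0 < d ∧ (∀ x ∈ A, ∃ i : ℤ, |i| ≤ (L : ℤ) ∧ x = d * i) ∧
      2 * L + A.card ≤ (A + A).card ∧ A.card ≤ 2 * L + 1 ∧ ((d : ℤ) * L) ∈ A := by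
  obtain ⟨a, d, hd, h⟩ := freiman_3k4 A hc
  obtain ⟨i0, hi0, h0'⟩ := h 0 h0
  obtain ⟨m, hmA, hmax⟩ : ∃ m ∈ A, ∀ x ∈ A, x ≤ m :=
    ⟨A.max' ⟨0, h0⟩, A.max'_mem _, fun x hx => A.le_max' x hx⟩
  have hm0 : 0 ≤ m := hmax 0 h0
  obtain ⟨i1, hi1, h1⟩ := h m hmA
  obtain ⟨i2, hi2, h2⟩ := h (-m) (hsym m hmA)
  have e1 : m = d * ((i1 : ℤ) - i0) := by rw [mul_sub]; linarith
  have e2 : -m = d * ((i2 : ℤ) - i0) := by rw [mul_sub]; linarith
  have e3 : (i1 : ℤ) - i0 = i0 - i2 := by
    have : d * ((i1 : ℤ) - i0) = d * ((i0 : ℤ) - i2) := by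
      rw [← e1]; linarith [mul_sub d (i2 : ℤ) i0, mul_sub d (i0 : ℤ) i2]
    exact mul_left_cancel₀ hd.ne' this
  have e4 : (i0 : ℤ) ≤ i1 := by
    by_contra hlt
    push Not at hlt
    have : d * ((i1 : ℤ) - i0) < 0 := mul_neg_of_pos_of_neg hd (by linarith)
    linarith
  have e4' : i0 ≤ i1 := by exact_mod_cast e4
  have hdn : ((d.toNat : ℕ) : ℤ) = d := Int.toNat_of_nonneg hd.le
  have hLn : (((i1 - i0 : ℕ)) : ℤ) = (i1 : ℤ) - i0 := by push_cast [e4']; ring
  have hrep : ∀ x ∈ A, ∃ i : ℤ, |i| ≤ ((i1 - i0 : ℕ) : ℤ) ∧ x = (d.toNat : ℤ) * i := by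
    intro x hx
    obtain ⟨i, -, hi⟩ := h x hx
    have e5 : x = d * ((i : ℤ) - i0) := by rw [mul_sub]; linarith
    have hle : x ≤ m := hmax x hx
    have hge : -x ≤ m := hmax (-x) (hsym x hx)
    refine ⟨(i : ℤ) - i0, ?_, by rw [hdn]; exact e5⟩
    rw [hLn, abs_le]
    constructor
    · by_contra hlt
      push Not at hlt
      have : d * (-((i : ℤ) - i0)) > d * ((i1 : ℤ) - i0) :=
        mul_lt_mul_of_pos_left (by linarith) hd
      rw [mul_neg] at this
      linarith
    · by_contra hlt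
      push Not at hlt
      have : d * (((i : ℤ) - i0)) > d * ((i1 : ℤ) - i0) :=
        mul_lt_mul_of_pos_left (by linarith) hd
      linarith
  refine ⟨d.toNat, i1 - i0, by omega, hrep, ?_, ?_, ?_⟩
  · omega
  · have hsub : A ⊆ (Icc (-((i1 - i0 : ℕ) : ℤ)) ((i1 - i0 : ℕ) : ℤ)).image
        (fun i => (d.toNat : ℤ) * i) := by
      intro x hx
      obtain ⟨i, hi, hxi⟩ := hrep x hx
      rw [mem_image]
      exact ⟨i, by rw [mem_Icc]; exact abs_le.mp hi, hxi.symm⟩
    calc A.card ≤ _ := card_le_card hsub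
      _ ≤ _ := card_image_le
      _ = _ := by rw [Int.card_Icc]; omega
  · rw [hdn, hLn, ← e1]; exact hmA

lemma int_inj {p : ℕ} {a b : ℤ} (h : (a : ZMod p) = (b : ZMod p)) (hab : |b - a| < p) : a = b := by
  rw [ZMod.intCast_eq_intCast_iff_dvd_sub] at h
  have := Int.eq_zero_of_abs_lt_dvd h hab
  linarith

lemma core {p : ℕ} [Fact p.Prime] (X : Finset (ZMod p)) (h0 : (0 : ZMod p) ∈ X)
    (hsym : ∀ x ∈ X, -x ∈ X) (r : ZMod p) (hr : r ≠ 0)
    (hin : ∀ x ∈ X, 4 * (r * x).valMinAbs.natAbs < p) (hc : (X + X).card + 4 ≤ 3 * X.card) :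
    ∃ u : ZMod p, u ≠ 0 ∧ ∃ L : ℕ, (∀ x ∈ X, (u * x).valMinAbs.natAbs ≤ L) ∧
      2 * L + X.card ≤ (X + X).card ∧ X.card ≤ 2 * L + 1 := by
  classical
  have hp : p.Prime := Fact.out
  set f : ZMod p → ℤ := fun x => (r * x).valMinAbs with hf
  have hfinj : Function.Injective f := by
    intro x y hxy
    have := ZMod.injective_valMinAbs hxy
    exact mul_left_cancel₀ hr this
  have hfc : ∀ x, ((f x : ℤ) : ZMod p) = r * x := fun x => ZMod.coe_valMinAbs _
  set A : Finset ℤ := X.image f with hA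
  have hAc : A.card = X.card := card_image_of_injective _ hfinj
  have hAA : (A + A).card ≤ (X + X).card := by
    apply Finset.card_le_card_of_injOn (fun z : ℤ => r⁻¹ * (z : ZMod p))
    · intro z hz
      rw [mem_coe, mem_add] at hz
      obtain ⟨a, ha, b, hb, rfl⟩ := hz
      rw [hA, mem_image] at ha hb
      obtain ⟨x, hx, rfl⟩ := ha
      obtain ⟨y, hy, rfl⟩ := hb
      rw [mem_coe, mem_add]
      refine ⟨x, hx, y, hy, ?_⟩
      simp only [Int.cast_add, hfc]
      field_simp
    · intro z hz z' hz' hzz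
      rw [mem_coe, mem_add] at hz hz'
      obtain ⟨a, ha, b, hb, rfl⟩ := hz
      obtain ⟨a', ha', b', hb', rfl⟩ := hz'
      rw [hA, mem_image] at ha hb ha' hb'
      obtain ⟨x, hx, rfl⟩ := ha
      obtain ⟨y, hy, rfl⟩ := hb
      obtain ⟨x', hx', rfl⟩ := ha'
      obtain ⟨y', hy', rfl⟩ := hb'
      have h1 := hin x hx
      have h2 := hin y hy
      have h3 := hin x' hx'
      have h4 := hin y' hy'
      have hz := mul_left_cancel₀ (inv_ne_zero hr) hzz
      apply int_inj hz
      simp only [hf]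
      rw [abs_lt]
      constructor <;> omega
  have hA0 : (0 : ℤ) ∈ A := by
    rw [hA, mem_image]
    exact ⟨0, h0, by simp [hf]⟩
  have hAsym : ∀ x ∈ A, -x ∈ A := by
    intro z hz
    rw [hA, mem_image] at hz ⊢
    obtain ⟨x, hx, rfl⟩ := hz
    refine ⟨-x, hsym x hx, ?_⟩
    have h1 := hin x hx
    have h2 := hin (-x) (hsym x hx)
    apply int_inj (p := p)
    · rw [Int.cast_neg, hfc, hfc]; ring
    · simp only [hf]
      rw [abs_lt]
      constructor <;> omega
  obtain ⟨d, L, hd, hrep, h1, h2, h3⟩ := int_struct A hA0 hAsym (by omega)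
  have hL1 : 1 ≤ L := by omega
  have hdp : (d : ZMod p) ≠ 0 := by
    rw [hA, mem_image] at h3
    obtain ⟨x, hx, hx'⟩ := h3
    have h4 := hin x hx
    have h5 : (r * x).valMinAbs.natAbs = d * L := by
      have : (r * x).valMinAbs = ((d * L : ℕ) : ℤ) := by
        push_cast; exact hx'
      rw [this]; exact Int.natAbs_natCast _
    have h6 : d ≤ d * L := Nat.le_mul_of_pos_right d hL1
    intro hd0
    rw [ZMod.natCast_eq_zero_iff] at hd0
    have := Nat.le_of_dvd hd hd0
    omega
  refine ⟨(d : ZMod p)⁻¹ * r, mul_ne_zero (inv_ne_zero hdp) hr, L, ?_, by omega, by omega⟩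
  intro x hx
  obtain ⟨i, hi, hxi⟩ := hrep (f x) (mem_image_of_mem _ hx)
  have h4 : (d : ZMod p)⁻¹ * r * x = (i : ZMod p) := by
    have : r * x = (d : ZMod p) * (i : ZMod p) := by
      rw [← hfc x, hxi]; push_cast; ring
    rw [mul_assoc, this]
    field_simp
  rw [h4]
  have h5 := ZMod.natAbs_min_of_le_div_two p ((i : ZMod p).valMinAbs) i (ZMod.coe_valMinAbs _)
    (ZMod.natAbs_valMinAbs_le _)
  rw [abs_le] at hi
  omega


/-- Step 3: elements of `A` are all near zero in the dilate. -/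
lemma step3 {p : ℕ} [Fact p.Prime] (hp2 : p ≠ 2) (A X : Finset (ZMod p)) (hXA : X ⊆ A)
    (hsymA : ∀ x ∈ A, -x ∈ A) (h0 : (0 : ZMod p) ∈ X) (hsymX : ∀ x ∈ X, -x ∈ X)
    (u : ZMod p) (hu : u ≠ 0) (k L β : ℕ) (hk : X.card = 2 * k + 1)
    (hL : ∀ x ∈ X, (u * x).valMinAbs.natAbs ≤ L)
    (hβ : (A + A).card ≤ (X + X).card + β) (h6 : 6 * L ≤ p) (hβk : β < 2 * k + 1)
    (hβL : 2 * β + 8 * L < p + 4 * k) (x : ZMod p) (hx : x ∈ A) :
    4 * (u * x).valMinAbs.natAbs < p := by
  classical
  have hp : p.Prime := Fact.out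
  have hodd : p % 2 = 1 := hp.eq_two_or_odd.resolve_left hp2
  by_contra hcon
  push Not at hcon
  -- choose the positive representative
  obtain ⟨x', hx', y, hy, hy0, hy4, hy2⟩ : ∃ x' ∈ A, ∃ y : ℤ, u * x' = (y : ZMod p) ∧ 0 < y ∧
      (p : ℤ) ≤ 4 * y ∧ 2 * y < p := by
    have hb := (u * x).valMinAbs_mem_Ioc
    obtain ⟨hb1, hb2⟩ := hb
    have hpp := hp.two_le
    rcases lt_or_ge 0 (u * x).valMinAbs with hpos | hneg
    · refine ⟨x, hx, (u * x).valMinAbs, (ZMod.coe_valMinAbs _).symm, hpos, by omega, by omega⟩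
    · refine ⟨-x, hsymA x hx, -(u * x).valMinAbs, ?_, by omega, by omega, by omega⟩
      rw [Int.cast_neg, ZMod.coe_valMinAbs]; ring
  set f : ZMod p → ℤ := fun x => (u * x).valMinAbs with hf
  have hfinj : Function.Injective f := by
    intro x y hxy
    have := ZMod.injective_valMinAbs hxy
    exact mul_left_cancel₀ hu this
  have hfc : ∀ x, ((f x : ℤ) : ZMod p) = u * x := fun x => ZMod.coe_valMinAbs _
  set A1 : Finset ℤ := X.image f with hA1
  have hA1c : A1.card = 2 * k + 1 := by rw [← hk]; exact card_image_of_injective _ hfinj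
  have hA1L : ∀ a ∈ A1, -(L : ℤ) ≤ a ∧ a ≤ L := by
    intro a ha
    rw [hA1, mem_image] at ha
    obtain ⟨w, hw, rfl⟩ := ha
    have := hL w hw
    simp only [hf]
    constructor <;> omega
  have hA1sym : ∀ a ∈ A1, -a ∈ A1 := by
    intro a ha
    have hb := hA1L a ha
    rw [hA1, mem_image] at ha ⊢
    obtain ⟨w, hw, rfl⟩ := ha
    have hb' := hL (-w) (hsymX w hw)
    refine ⟨-w, hsymX w hw, ?_⟩
    apply int_inj (p := p)
    · rw [Int.cast_neg, hfc, hfc]; ring
    · have : (f (-w)).natAbs ≤ L := hb'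
      have hpp := hp.two_le
      rw [abs_lt]
      constructor <;> omega
  set G : Finset ℤ := A1.filter (fun a => 2 * (L : ℤ) < y + a) with hG
  set D : Finset (ZMod p) := (A + A) \ (X + X) with hD
  have hDc : D.card ≤ β := by
    have h1 : (X + X) ⊆ (A + A) := add_subset_add hXA hXA
    have h2 := card_sdiff_add_card_eq_card h1
    rw [hD]
    omega
  -- key membership
  have hkey : ∀ a ∈ G, u⁻¹ * ((y + a : ℤ) : ZMod p) ∈ D := by
    intro a ha
    rw [hG, mem_filter] at ha
    obtain ⟨ha1, ha2⟩ := ha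
    have hb := hA1L a ha1
    rw [hD, mem_sdiff]
    constructor
    · rw [hA1, mem_image] at ha1
      obtain ⟨w, hw, rfl⟩ := ha1
      rw [mem_add]
      refine ⟨x', hx', w, hXA hw, ?_⟩
      rw [Int.cast_add, hfc, ← hy]
      field_simp
    · intro hmem
      rw [mem_add] at hmem
      obtain ⟨w, hw, w', hw', hww⟩ := hmem
      have h1 := hL w hw
      have h2 := hL w' hw'
      have h3 : ((f w + f w' : ℤ) : ZMod p) = ((y + a : ℤ) : ZMod p) := by
        rw [Int.cast_add, hfc, hfc, ← mul_add, hww]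
        field_simp
      have h4 : (f w).natAbs ≤ L := h1
      have h5 : (f w').natAbs ≤ L := h2
      have h6' := int_inj h3 (by rw [abs_lt]; constructor <;> omega)
      omega
  have hinj : Set.InjOn (fun a : ℤ => u⁻¹ * ((y + a : ℤ) : ZMod p)) (G : Set ℤ) := by
    intro a ha b hb hab
    rw [mem_coe, hG, mem_filter] at ha hb
    have h1 := hA1L a ha.1
    have h2 := hA1L b hb.1
    have h3 := int_inj (mul_left_cancel₀ (inv_ne_zero hu) hab)
      (by rw [abs_lt]; constructor <;> omega)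
    omega
  have hGc : G.card ≤ D.card := card_le_card_of_injOn _ (fun a ha => hkey a ha) hinj
  have hDsym : ∀ z ∈ D, -z ∈ D := by
    intro z hz
    rw [hD, mem_sdiff] at hz ⊢
    constructor
    · obtain ⟨a, ha, b, hb, rfl⟩ := mem_add.mp hz.1
      rw [mem_add]
      exact ⟨-a, hsymA a ha, -b, hsymA b hb, by ring⟩
    · intro h
      apply hz.2
      obtain ⟨a, ha, b, hb, hab⟩ := mem_add.mp h
      rw [mem_add]
      exact ⟨-a, hsymX a ha, -b, hsymX b hb, by rw [← neg_add, hab, neg_neg]⟩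
  by_cases hcase : 2 * (y + L) < p
  · -- case A
    have h2G : 2 * G.card ≤ D.card := by
      have hdis : Disjoint (G.image (fun a : ℤ => u⁻¹ * ((y + a : ℤ) : ZMod p)))
          (G.image (fun a : ℤ => -(u⁻¹ * ((y + a : ℤ) : ZMod p)))) := by
        rw [Finset.disjoint_left]
        intro z hz hz'
        rw [mem_image] at hz hz'
        obtain ⟨a, ha, rfl⟩ := hz
        obtain ⟨b, hb, hab⟩ := hz'
        rw [hG, mem_filter] at ha hb
        have h1 := hA1L a ha.1
        have h2 := hA1L b hb.1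
        rw [← mul_neg, ← Int.cast_neg] at hab
        have h3 := int_inj (mul_left_cancel₀ (inv_ne_zero hu) hab)
          (by rw [abs_lt]; constructor <;> omega)
        omega
      have hsub : G.image (fun a : ℤ => u⁻¹ * ((y + a : ℤ) : ZMod p)) ∪
          G.image (fun a : ℤ => -(u⁻¹ * ((y + a : ℤ) : ZMod p))) ⊆ D := by
        intro z hz
        rw [mem_union, mem_image, mem_image] at hz
        rcases hz with ⟨a, ha, rfl⟩ | ⟨a, ha, rfl⟩
        · exact hkey a ha
        · exact hDsym _ (hkey a ha)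
      have hc := card_le_card hsub
      rw [card_union_of_disjoint hdis, card_image_of_injOn hinj, card_image_of_injOn] at hc
      · omega
      · intro a ha b hb hab
        exact hinj ha hb (neg_injective hab)
    -- the nonnegative part has at least k+1 elements
    have hP : k + 1 ≤ (A1.filter (fun a => 0 ≤ a)).card := by
      have h1 := card_filter_add_card_filter_not (s := A1) (fun a => 0 ≤ a)
      have h00 : (0 : ℤ) ∈ A1.filter (fun a => 0 ≤ a) := by
        rw [mem_filter]
        exact ⟨by rw [hA1, mem_image]; exact ⟨0, h0, by simp [hf]⟩, le_refl _⟩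
      have h2 : (A1.filter (fun a => ¬ 0 ≤ a)).card ≤
          ((A1.filter (fun a => 0 ≤ a)).erase 0).card := by
        apply card_le_card_of_injOn (fun a => -a)
        · intro a ha
          rw [mem_coe, mem_filter] at ha
          rw [mem_coe, mem_erase, mem_filter]
          have h5 := ha.2
          refine ⟨?_, hA1sym a ha.1, ?_⟩
          · change -a ≠ 0
            omega
          · change 0 ≤ -a
            omega
        · intro a _ b _ hab
          exact neg_injective hab
      rw [card_erase_of_mem h00] at h2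
      have h3 : 0 < (A1.filter (fun a => 0 ≤ a)).card := card_pos.mpr ⟨0, h00⟩
      omega
    by_cases hyL : 2 * (L : ℤ) < y
    · have hsub : A1.filter (fun a => 0 ≤ a) ⊆ G := by
        intro a ha
        rw [mem_filter] at ha
        rw [hG, mem_filter]
        exact ⟨ha.1, by omega⟩
      have := card_le_card hsub
      omega
    · push Not at hyL
      have hsub : A1.filter (fun a => 0 ≤ a) ⊆ G ∪ Icc 0 (2 * (L : ℤ) - y) := by
        intro a ha
        rw [mem_filter] at ha
        rw [mem_union, hG, mem_filter, mem_Icc]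
        by_cases h : 2 * (L : ℤ) < y + a
        · exact Or.inl ⟨ha.1, h⟩
        · exact Or.inr ⟨ha.2, by omega⟩
      have h1 := (card_le_card hsub).trans (card_union_le _ _)
      rw [Int.card_Icc] at h1
      omega
  · -- case B
    push Not at hcase
    by_cases hyL : 3 * (L : ℤ) < y
    · have hsub : A1 ⊆ G := by
        intro a ha
        have := hA1L a ha
        rw [hG, mem_filter]
        exact ⟨ha, by omega⟩
      have := card_le_card hsub
      omega
    · push Not at hyL
      have hsub : A1 ⊆ G ∪ Icc (-(L : ℤ)) (2 * (L : ℤ) - y) := by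
        intro a ha
        have := hA1L a ha
        rw [mem_union, hG, mem_filter, mem_Icc]
        by_cases h : 2 * (L : ℤ) < y + a
        · exact Or.inl ⟨ha, h⟩
        · exact Or.inr ⟨by omega, by omega⟩
      have h1 := (card_le_card hsub).trans (card_union_le _ _)
      rw [Int.card_Icc] at h1
      omega

lemma sym_card {p : ℕ} [Fact p.Prime] (B : Finset (ZMod p)) (hB : Anti B) :
    (sym B).card = 2 * B.card + 1 := by
  classical
  unfold sym
  rw [card_insert_of_notMem, card_union_of_disjoint, card_image_of_injective _ neg_injective]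
  · ring
  · rw [Finset.disjoint_left]
    intro x hx hx'
    rw [mem_image] at hx'
    obtain ⟨y, hy, rfl⟩ := hx'
    exact hB y hy hx
  · intro h
    rw [mem_union, mem_image] at h
    rcases h with h | ⟨y, hy, hy0⟩
    · exact hB.ne_zero h rfl
    · exact hB.ne_zero hy (by simpa using hy0)

lemma mem_sym {p : ℕ} (B : Finset (ZMod p)) (x : ZMod p) :
    x ∈ sym B ↔ x = 0 ∨ x ∈ B ∨ -x ∈ B := by
  unfold sym
  rw [mem_insert, mem_union, mem_image]
  constructor
  · rintro (h | h | ⟨y, hy, rfl⟩)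
    · exact Or.inl h
    · exact Or.inr (Or.inl h)
    · exact Or.inr (Or.inr (by simpa using hy))
  · rintro (h | h | h)
    · exact Or.inl h
    · exact Or.inr (Or.inl h)
    · exact Or.inr (Or.inr ⟨-x, h, by simp⟩)

lemma sym_neg {p : ℕ} (B : Finset (ZMod p)) (x : ZMod p) (hx : x ∈ sym B) : -x ∈ sym B := by
  rw [mem_sym] at hx ⊢
  rcases hx with h | h | h
  · left; simp [h]
  · right; right; simpa using h
  · right; left; exact h

theorem near34 {p : ℕ} [Fact p.Prime] (B : Finset (ZMod p)) (hB : Anti B)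
    (E : ℕ) (u1 : ZMod p) (hu1 : u1 ≠ 0)
    (hsum : (sym B + sym B).card ≤ 4 * B.card + 1 + E)
    (hnear : ∀ x ∈ sym B, 4 * (u1 * x).valMinAbs.natAbs < p)
    (h1 : 2 + E ≤ 2 * B.card)
    (h4 : B.card * (B.card + 1) + E * B.card < 2 * p) :
    ∃ u : ZMod p, u ≠ 0 ∧ tot u B < p := by
  classical
  set j := B.card with hj
  have hcA := sym_card B hB
  have h0A : (0 : ZMod p) ∈ sym B := by rw [mem_sym]; exact Or.inl rfl
  obtain ⟨u, hu, L', hL', hL1', hL2'⟩ := core (sym B) h0A (sym_neg B) u1 hu1 hnear (by omega)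
  refine ⟨u, hu, ?_⟩
  set N : Finset ℤ := B.image (fun x => ((u * x).valMinAbs.natAbs : ℤ)) with hN
  have hinjN : Set.InjOn (fun x => ((u * x).valMinAbs.natAbs : ℤ)) (B : Set (ZMod p)) := by
    intro x hx y hy hxy
    simp only [Nat.cast_inj] at hxy
    rcases ZMod.natAbs_valMinAbs_eq_natAbs_valMinAbs.mp hxy with h | h
    · exact mul_left_cancel₀ hu h
    · exfalso
      rw [← mul_neg] at h
      have h5 := mul_left_cancel₀ hu h
      rw [mem_coe] at hx hy
      rw [h5] at hx
      exact hB y hy hx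
  have hNc : N.card = j := card_image_of_injOn hinjN
  have hNs : ∑ x ∈ N, x = (tot u B : ℤ) := by
    rw [hN, sum_image hinjN]
    unfold tot
    push_cast
    rfl
  have hNL : ∀ x ∈ N, x ≤ (L' : ℤ) := by
    intro x hx
    rw [hN, mem_image] at hx
    obtain ⟨w, hw, rfl⟩ := hx
    have := hL' w (by rw [mem_sym]; exact Or.inr (Or.inl hw))
    exact_mod_cast this
  have h5 := sum_le_sum_range hNL
  rw [hNs, hNc] at h5
  have h6 : ∀ n : ℕ, 2 * ∑ i ∈ range n, ((L' : ℤ) - i) = 2 * n * L' - n * (n - 1) := by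
    intro n
    induction n with
    | zero => simp
    | succ n ih => rw [sum_range_succ, mul_add, ih]; push_cast; ring
  have h7 := h6 j
  have h8 : (2 * L' : ℤ) ≤ 2 * j + E := by
    have : 2 * L' ≤ 2 * j + E := by omega
    exact_mod_cast this
  have h9 : (j : ℤ) * (2 * L') ≤ j * (2 * j + E) := mul_le_mul_of_nonneg_left h8 (by positivity)
  have h10 : ((j : ℤ) * (j + 1) + E * j) < 2 * p := by exact_mod_cast h4
  have h11 : (2 * tot u B : ℤ) < 2 * p := by nlinarith
  have h12 : 2 * tot u B < 2 * p := by exact_mod_cast h11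
  omega


theorem inside34 {p : ℕ} [Fact p.Prime] (_hp2 : p ≠ 2) (B : Finset (ZMod p)) (hB : Anti B)
    (E : ℕ) (r : ZMod p) (hr : r ≠ 0)
    (hsum : (sym B + sym B).card ≤ 4 * B.card + 1 + E)
    (ho : out r B = ∅) (h1 : 2 + E ≤ 2 * B.card)
    (h4 : B.card * (B.card + 1) + E * B.card < 2 * p) :
    ∃ u : ZMod p, u ≠ 0 ∧ tot u B < p := by
  have hp : p.Prime := Fact.out
  have hin : ∀ x ∈ B, 4 * (r * x).valMinAbs.natAbs < p := by
    intro x hx
    by_contra hcon
    have : x ∈ out r B := by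
      unfold out
      rw [mem_filter]
      exact ⟨hx, by omega⟩
    rw [ho] at this
    exact absurd this (notMem_empty x)
  refine near34 B hB E r hr hsum ?_ h1 h4
  intro x hx
  rw [mem_sym] at hx
  rcases hx with h | h | h
  · rw [h]; simp [hp.pos]
  · exact hin x h
  · have h5 := hin _ h
    rw [mul_neg, ZMod.natAbs_valMinAbs_neg] at h5
    exact h5

theorem outside34 {p : ℕ} [Fact p.Prime] (hp2 : p ≠ 2) (B : Finset (ZMod p)) (hB : Anti B)
    (E o : ℕ) (r : ZMod p) (hr : r ≠ 0)
    (hsum : (sym B + sym B).card ≤ 4 * B.card + 1 + E)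
    (ho : (out r B).card ≤ o)
    (h1 : 6 * o + 2 + E ≤ 2 * B.card)
    (h2 : 6 * B.card + 6 * o + 3 * E ≤ p)
    (h3 : 4 * (B.card + 3 * o + E) < p)
    (h4 : B.card * (B.card + 1) + E * B.card < 2 * p) :
    ∃ u : ZMod p, u ≠ 0 ∧ tot u B < p := by
  classical
  have hp : p.Prime := Fact.out
  set j := B.card with hj
  set B' := B.filter (fun x => ¬ p ≤ 4 * (r * x).valMinAbs.natAbs) with hB'
  have hcount : (out r B).card + B'.card = j := by
    unfold out
    exact card_filter_add_card_filter_not _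
  have hB'A : Anti B' := hB.subset (filter_subset _ _)
  have hcA := sym_card B hB
  have hcX := sym_card B' hB'A
  have hXA : sym B' ⊆ sym B := by
    intro x hx
    rw [mem_sym] at hx ⊢
    rcases hx with h | h | h
    · exact Or.inl h
    · exact Or.inr (Or.inl (filter_subset _ _ h))
    · exact Or.inr (Or.inr (filter_subset _ _ h))
  have h0X : (0 : ZMod p) ∈ sym B' := by rw [mem_sym]; exact Or.inl rfl
  have h0A : (0 : ZMod p) ∈ sym B := by rw [mem_sym]; exact Or.inl rfl
  have hXX : (sym B' + sym B').card ≤ (sym B + sym B).card :=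
    card_le_card (add_subset_add hXA hXA)
  have hin : ∀ x ∈ sym B', 4 * (r * x).valMinAbs.natAbs < p := by
    intro x hx
    rw [mem_sym] at hx
    rcases hx with h | h | h
    · rw [h]; simp [hp.pos]
    · rw [hB', mem_filter] at h; omega
    · rw [hB', mem_filter] at h
      have h5 := h.2
      rw [mul_neg, ZMod.natAbs_valMinAbs_neg] at h5
      omega
  obtain ⟨u1, hu1, L, hL, hL1, hL2⟩ := core (sym B') h0X (sym_neg B') r hr hin (by omega)
  have hnear : ∀ x ∈ sym B, 4 * (u1 * x).valMinAbs.natAbs < p := by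
    intro x hx
    refine step3 hp2 (sym B) (sym B') hXA (sym_neg B) h0X (sym_neg B') u1 hu1 B'.card L
      ((sym B + sym B).card - (sym B' + sym B').card) hcX hL (by omega) (by omega) (by omega)
      (by omega) x hx
  exact near34 B hB E u1 hu1 hsum hnear (by omega) h4

end Pool.Agent.MP_116850_co.BlockO
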