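import Pool.Agent.MP_116850_co.Basic
import Pool.Agent.MP_116850_co.BlockZ

set_option autoImplicit false

namespace Pool.Agent.MP_116850_co.BlockR

open Finset
open scoped Pointwise

/-- the integer subset sums of the absolute values -/
def ss {p : ℕ} (u : ZMod p) (B : Finset (ZMod p)) : Finset ℕ :=
  B.powerset.image (fun C => ∑ x ∈ C, (u * x).valMinAbs.natAbs)

lemma mem_ss {p : ℕ} (u : ZMod p) (B : Finset (ZMod p)) (k : ℕ) :
    k ∈ ss u B ↔ ∃ C ⊆ B, ∑ x ∈ C, (u * x).valMinAbs.natAbs = k := by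
  unfold ss
  simp only [mem_image, mem_powerset]

/-- the elements of `B` with negative dilate -/
def neg {p : ℕ} (u : ZMod p) (B : Finset (ZMod p)) : Finset (ZMod p) :=
  B.filter (fun x => (u * x).valMinAbs < 0)

lemma cast_natAbs_of_nonneg {p : ℕ} (a : ZMod p) (h : 0 ≤ a.valMinAbs) :
    ((a.valMinAbs.natAbs : ℕ) : ZMod p) = a := by
  have h1 : ((a.valMinAbs.natAbs : ℕ) : ℤ) = a.valMinAbs := Int.natAbs_of_nonneg h
  have h2 : (((a.valMinAbs.natAbs : ℕ) : ℤ) : ZMod p) = a := by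
    rw [h1, ZMod.coe_valMinAbs]
  rwa [Int.cast_natCast] at h2

lemma cast_natAbs_of_neg {p : ℕ} (a : ZMod p) (h : a.valMinAbs < 0) :
    ((a.valMinAbs.natAbs : ℕ) : ZMod p) = -a := by
  have h1 : ((a.valMinAbs.natAbs : ℕ) : ℤ) = -a.valMinAbs := Int.ofNat_natAbs_of_nonpos h.le
  have h2 : (((a.valMinAbs.natAbs : ℕ) : ℤ) : ZMod p) = -a := by
    rw [h1, Int.cast_neg, ZMod.coe_valMinAbs]
  rwa [Int.cast_natCast] at h2

lemma flip_sum {p : ℕ} (u : ZMod p) (B C : Finset (ZMod p)) (hC : C ⊆ B) :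
    u * (∑ x ∈ C, x) + ((∑ x ∈ neg u B, (u * x).valMinAbs.natAbs : ℕ) : ZMod p)
      = ((∑ x ∈ symmDiff C (neg u B), (u * x).valMinAbs.natAbs : ℕ) : ZMod p) := by
  have hN : neg u B ⊆ B := filter_subset _ _
  have hD : symmDiff C (neg u B) ⊆ B := by
    intro x hx
    rw [mem_symmDiff] at hx
    rcases hx with hx | hx
    · exact hC hx.1
    · exact hN hx.1
  have e1 : ∑ x ∈ C, x = ∑ x ∈ B, if x ∈ C then x else 0 := by
    rw [← sum_filter]
    congr 1
    ext x
    simp only [mem_filter]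
    constructor
    · intro h; exact ⟨hC h, h⟩
    · intro h; exact h.2
  have e2 : ∀ D ⊆ B, ((∑ x ∈ D, (u * x).valMinAbs.natAbs : ℕ) : ZMod p)
      = ∑ x ∈ B, if x ∈ D then (((u * x).valMinAbs.natAbs : ℕ) : ZMod p) else 0 := by
    intro D hDB
    rw [← sum_filter, Nat.cast_sum]
    congr 1
    ext x
    simp only [mem_filter]
    constructor
    · intro h; exact ⟨hDB h, h⟩
    · intro h; exact h.2
  rw [e1, e2 _ hN, e2 _ hD, mul_sum, ← sum_add_distrib]
  apply sum_congr rfl
  intro x hx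
  by_cases hxC : x ∈ C
  · by_cases hxN : x ∈ neg u B
    · have h3 : x ∉ symmDiff C (neg u B) := by
        rw [mem_symmDiff]; push Not; exact ⟨fun _ => hxN, fun _ => hxC⟩
      have h4 : (u * x).valMinAbs < 0 := (mem_filter.mp hxN).2
      rw [if_pos hxC, if_pos hxN, if_neg h3, cast_natAbs_of_neg _ h4]
      ring
    · have h3 : x ∈ symmDiff C (neg u B) := by
        rw [mem_symmDiff]; exact Or.inl ⟨hxC, hxN⟩
      have h4 : 0 ≤ (u * x).valMinAbs := by
        by_contra h5
        exact hxN (mem_filter.mpr ⟨hx, not_le.mp h5⟩)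
      rw [if_pos hxC, if_neg hxN, if_pos h3, cast_natAbs_of_nonneg _ h4]
      ring
  · by_cases hxN : x ∈ neg u B
    · have h3 : x ∈ symmDiff C (neg u B) := by
        rw [mem_symmDiff]; exact Or.inr ⟨hxN, hxC⟩
      rw [if_neg hxC, if_pos hxN, if_pos h3]
      ring
    · have h3 : x ∉ symmDiff C (neg u B) := by
        rw [mem_symmDiff]; push Not; exact ⟨fun h => absurd h hxC, fun h => absurd h hxN⟩
      rw [if_neg hxC, if_neg hxN, if_neg h3]
      ring

/-- The flip lemma. -/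
lemma flip {p : ℕ} (u : ZMod p) (B : Finset (ZMod p)) :
    B.subsetSum.image (fun s => u * s + ((∑ x ∈ neg u B, (u * x).valMinAbs.natAbs : ℕ) : ZMod p))
      = (ss u B).image (fun k : ℕ => (k : ZMod p)) := by
  have hN : neg u B ⊆ B := filter_subset _ _
  ext a
  simp only [mem_image, mem_subsetSum_iff, mem_ss]
  constructor
  · rintro ⟨_, ⟨C, hC, rfl⟩, rfl⟩
    refine ⟨_, ⟨symmDiff C (neg u B), ?_, rfl⟩, (flip_sum u B C hC).symm⟩
    intro x hx
    rw [mem_symmDiff] at hx
    rcases hx with hx | hx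
    · exact hC hx.1
    · exact hN hx.1
  · rintro ⟨_, ⟨D, hD, rfl⟩, rfl⟩
    have hC : symmDiff D (neg u B) ⊆ B := by
      intro x hx
      rw [mem_symmDiff] at hx
      rcases hx with hx | hx
      · exact hD hx.1
      · exact hN hx.1
    refine ⟨_, ⟨symmDiff D (neg u B), hC, rfl⟩, ?_⟩
    rw [flip_sum u B _ hC]
    congr 2
    rw [symmDiff_assoc, symmDiff_self, symmDiff_bot]

lemma le_tot_of_mem_ss {p : ℕ} (u : ZMod p) (B : Finset (ZMod p)) (k : ℕ) (hk : k ∈ ss u B) :
    k ≤ tot u B := by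
  rw [mem_ss] at hk
  obtain ⟨C, hC, rfl⟩ := hk
  exact sum_le_sum_of_subset hC

lemma card_flip {p : ℕ} [Fact p.Prime] (u : ZMod p) (hu : u ≠ 0) (B : Finset (ZMod p)) :
    B.subsetSum.card = ((ss u B).image (fun k : ℕ => (k : ZMod p))).card := by
  rw [← flip, card_image_of_injective]
  intro a b h
  simpa [hu] using h

lemma card_eq_ss {p : ℕ} [Fact p.Prime] (u : ZMod p) (hu : u ≠ 0) (B : Finset (ZMod p))
    (ht : tot u B < p) : B.subsetSum.card = (ss u B).card := by
  rw [card_flip u hu, card_image_of_injOn]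
  intro a ha b hb h
  have ha' := (le_tot_of_mem_ss u B a (by simpa using ha)).trans_lt ht
  have hb' := (le_tot_of_mem_ss u B b (by simpa using hb)).trans_lt ht
  have h' : ((a : ℕ) : ZMod p) = (b : ZMod p) := h
  rw [ZMod.natCast_eq_natCast_iff] at h'
  exact Nat.ModEq.eq_of_lt_of_lt h' ha' hb'

lemma natAbs_inj {p : ℕ} [Fact p.Prime] (u : ZMod p) (hu : u ≠ 0) (B : Finset (ZMod p))
    (hB : Anti B) (x y : ZMod p) (hx : x ∈ B) (hy : y ∈ B)
    (h : (u * x).valMinAbs.natAbs = (u * y).valMinAbs.natAbs) : x = y := by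
  rw [ZMod.natAbs_valMinAbs_eq_natAbs_valMinAbs] at h
  rcases h with h | h
  · exact mul_left_cancel₀ hu h
  · have h1 : x = -y := by
      apply mul_left_cancel₀ hu
      rw [h]; ring
    exact absurd hx (h1 ▸ hB y hy)

lemma natAbs_pos {p : ℕ} [Fact p.Prime] (u : ZMod p) (hu : u ≠ 0) (B : Finset (ZMod p))
    (hB : Anti B) (x : ZMod p) (hx : x ∈ B) : 0 < (u * x).valMinAbs.natAbs := by
  rw [Int.natAbs_pos, Ne, ZMod.valMinAbs_eq_zero]
  exact mul_ne_zero hu (hB.ne_zero hx)

lemma ss_eq {p : ℕ} [Fact p.Prime] (u : ZMod p) (hu : u ≠ 0) (B : Finset (ZMod p))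
    (hB : Anti B) : ss u B = (B.image (fun x => (u * x).valMinAbs.natAbs)).subsetSum := by
  ext k
  rw [mem_ss, mem_subsetSum_iff]
  constructor
  · rintro ⟨C, hC, rfl⟩
    refine ⟨C.image (fun x => (u * x).valMinAbs.natAbs), image_subset_image hC, ?_⟩
    rw [sum_image]
    intro x hx y hy h
    exact natAbs_inj u hu B hB x y (hC hx) (hC hy) h
  · rintro ⟨D, hD, rfl⟩
    rw [subset_image_iff] at hD
    obtain ⟨C, hC, rfl⟩ := hD
    have hC' : C ⊆ B := by exact_mod_cast hC
    refine ⟨C, hC', ?_⟩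
    rw [sum_image]
    intro x hx y hy h
    exact natAbs_inj u hu B hB x y (hC' hx) (hC' hy) h

lemma tot_eq_sum {p : ℕ} [Fact p.Prime] (u : ZMod p) (hu : u ≠ 0) (B : Finset (ZMod p))
    (hB : Anti B) : tot u B = ∑ n ∈ B.image (fun x => (u * x).valMinAbs.natAbs), n := by
  rw [sum_image]
  · rfl
  · intro x hx y hy h
    exact natAbs_inj u hu B hB x y hx hy h

theorem card_le_tot {p : ℕ} [Fact p.Prime] (u : ZMod p) (hu : u ≠ 0) (B : Finset (ZMod p)) :
    B.subsetSum.card ≤ tot u B + 1 := by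
  rw [card_flip u hu]
  refine card_image_le.trans ?_
  have : ss u B ⊆ range (tot u B + 1) := by
    intro k hk
    rw [mem_range]
    exact Nat.lt_succ_of_le (le_tot_of_mem_ss u B k hk)
  simpa using card_le_card this

lemma erase_step {p : ℕ} [Fact p.Prime] (u : ZMod p) (hu : u ≠ 0)
    (B : Finset (ZMod p)) (hB : Anti B) (ht : tot u B < p) (x : ZMod p) (hx : x ∈ B) :
    (B.erase x).subsetSum.card = (((B.image (fun x => (u * x).valMinAbs.natAbs)).erase
      (u * x).valMinAbs.natAbs)).subsetSum.card := by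
  have ht' : tot u (B.erase x) < p := lt_of_le_of_lt (sum_le_sum_of_subset (erase_subset _ _)) ht
  rw [card_eq_ss u hu _ ht', ss_eq u hu _ (hB.erase x)]
  congr 2
  ext k
  simp only [mem_image, mem_erase]
  constructor
  · rintro ⟨z, ⟨hz, hzB⟩, rfl⟩
    exact ⟨fun h => hz (natAbs_inj u hu B hB _ _ hzB hx h), z, hzB, rfl⟩
  · rintro ⟨hk, z, hzB, rfl⟩
    exact ⟨z, ⟨fun h => hk (by rw [h]), hzB⟩, rfl⟩

lemma card_image_eq {p : ℕ} [Fact p.Prime] (u : ZMod p) (hu : u ≠ 0) (B : Finset (ZMod p))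
    (hB : Anti B) : (B.image (fun x => (u * x).valMinAbs.natAbs)).card = B.card := by
  apply card_image_of_injOn
  intro x hx y hy h
  exact natAbs_inj u hu B hB x y (by simpa using hx) (by simpa using hy) h

theorem exists_large_step {p : ℕ} [Fact p.Prime] (u : ZMod p) (hu : u ≠ 0)
    (B : Finset (ZMod p)) (hB : Anti B) (hne : B.Nonempty) (ht : tot u B < p) :
    ∃ x ∈ B, (B.erase x).subsetSum.card + B.card ≤ B.subsetSum.card := by
  obtain ⟨x, hx, hmax⟩ := exists_max_image B (fun x => (u * x).valMinAbs.natAbs) hne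
  refine ⟨x, hx, ?_⟩
  set N := B.image (fun x => (u * x).valMinAbs.natAbs) with hN
  set y := (u * x).valMinAbs.natAbs with hy
  have hyN : y ∈ N := mem_image.mpr ⟨x, hx, rfl⟩
  have hpos : ∀ n ∈ N, 0 < n := by
    intro n hn
    rw [hN, mem_image] at hn
    obtain ⟨z, hz, rfl⟩ := hn
    exact natAbs_pos u hu B hB z hz
  have hle : ∀ n ∈ N, n ≤ y := by
    intro n hn
    rw [hN, mem_image] at hn
    obtain ⟨z, hz, rfl⟩ := hn
    exact hmax z hz
  have h1 := card_add_card_subsetSum_lt_card_subsetSum_insert_max (A := N.erase y) (a := y)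
    (fun n hn => hpos n (mem_of_mem_erase hn))
    (fun n hn => lt_of_le_of_ne (hle n (mem_of_mem_erase hn)) (ne_of_mem_erase hn)) (hpos y hyN)
  rw [insert_erase hyN, card_erase_of_mem hyN] at h1
  have h2 : N.card = B.card := card_image_eq u hu B hB
  have h3 : B.subsetSum.card = N.subsetSum.card := by
    rw [card_eq_ss u hu _ ht, ss_eq u hu _ hB]
  have h4 : (B.erase x).subsetSum.card = (N.erase y).subsetSum.card := erase_step u hu B hB ht x hx
  have h5 : 0 < N.card := card_pos.mpr ⟨y, hyN⟩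
  rw [h3, h4]
  omega

lemma subsetSum_Icc (j : ℕ) : (Icc 1 j).subsetSum = range (j * (j + 1) / 2 + 1) := by
  induction j with
  | zero => simp [subsetSum_empty']
  | succ j ih =>
    have h0 : Icc 1 (j + 1) = insert (j + 1) (Icc 1 j) := by
      ext i; simp only [mem_Icc, mem_insert]; omega
    have h1 : (j + 1) * (j + 1 + 1) / 2 = j * (j + 1) / 2 + (j + 1) := by
      have : (j + 1) * (j + 1 + 1) = j * (j + 1) + (j + 1) * 2 := by ring
      rw [this, Nat.add_mul_div_right _ _ (by norm_num)]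
    have h2 : j ≤ j * (j + 1) / 2 := by
      rw [Nat.le_div_iff_mul_le (by norm_num)]
      rcases Nat.eq_zero_or_pos j with h | h
      · subst h; simp
      · nlinarith
    rw [h0, subsetSum_insert _ _ (by simp), ih, h1]
    ext i
    simp only [mem_union, mem_range, mem_image]
    constructor
    · rintro (h | ⟨k, hk, rfl⟩) <;> omega
    · intro h
      by_cases h3 : i < j * (j + 1) / 2 + 1
      · exact Or.inl h3
      · exact Or.inr ⟨i - (j + 1), by omega, by omega⟩

lemma sum_Icc_id (j : ℕ) : ∑ i ∈ Icc 1 j, i = j * (j + 1) / 2 := by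
  induction j with
  | zero => simp
  | succ j ih =>
    have h1 : (j + 1) * (j + 1 + 1) / 2 = j * (j + 1) / 2 + (j + 1) := by
      have : (j + 1) * (j + 1 + 1) = j * (j + 1) + (j + 1) * 2 := by ring
      rw [this, Nat.add_mul_div_right _ _ (by norm_num)]
    rw [sum_Icc_succ_top (by omega), ih, h1]

/-- `std_of_saturated` from the integer lemma -/
theorem std_of_saturated_aux
    (int_lemma : ∀ (N : Finset ℕ) (_hpos : ∀ x ∈ N, 0 < x) (y : ℕ) (_hy : y ∈ N)
      (_hmax : ∀ x ∈ N, x ≤ y) (_h4 : 4 ≤ N.card)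
      (_hle : N.subsetSum.card ≤ (N.erase y).subsetSum.card + N.card),
      ∃ d : ℕ, 0 < d ∧ N = (Finset.Icc 1 N.card).image (fun i => d * i))
    {p : ℕ} [Fact p.Prime] (u : ZMod p) (hu : u ≠ 0)
    (B : Finset (ZMod p)) (hB : Anti B) (h4 : 4 ≤ B.card) (ht : tot u B < p)
    (hle : ∀ x ∈ B, B.subsetSum.card ≤ (B.erase x).subsetSum.card + B.card) : Std B := by
  have hne : B.Nonempty := card_pos.mp (by omega)
  obtain ⟨x, hx, hmax⟩ := exists_max_image B (fun x => (u * x).valMinAbs.natAbs) hne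
  set N := B.image (fun x => (u * x).valMinAbs.natAbs) with hN
  set y := (u * x).valMinAbs.natAbs with hy
  have hyN : y ∈ N := mem_image.mpr ⟨x, hx, rfl⟩
  have hpos : ∀ n ∈ N, 0 < n := by
    intro n hn
    rw [hN, mem_image] at hn
    obtain ⟨z, hz, rfl⟩ := hn
    exact natAbs_pos u hu B hB z hz
  have hley : ∀ n ∈ N, n ≤ y := by
    intro n hn
    rw [hN, mem_image] at hn
    obtain ⟨z, hz, rfl⟩ := hn
    exact hmax z hz
  have h2 : N.card = B.card := card_image_eq u hu B hB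
  have h3 : B.subsetSum.card = N.subsetSum.card := by
    rw [card_eq_ss u hu _ ht, ss_eq u hu _ hB]
  have h5 : (B.erase x).subsetSum.card = (N.erase y).subsetSum.card := erase_step u hu B hB ht x hx
  obtain ⟨d, hd, hNd⟩ := int_lemma N hpos y hyN hley (by omega) (by
    have := hle x hx
    omega)
  rw [h2] at hNd
  set j := B.card with hj
  have htot : tot u B = d * (j * (j + 1) / 2) := by
    rw [tot_eq_sum u hu B hB, ← hN, hNd, sum_image, ← mul_sum, sum_Icc_id]
    intro a _ b _ h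
    exact Nat.eq_of_mul_eq_mul_left hd h
  have hj2 : 2 * j ≤ j * (j + 1) / 2 := by
    rw [Nat.le_div_iff_mul_le (by norm_num)]
    nlinarith
  have hdp : d < p := by nlinarith
  have hjp : 2 * j < p := by nlinarith
  have hd0 : (d : ZMod p) ≠ 0 := by
    intro h
    rw [ZMod.natCast_eq_zero_iff] at h
    exact absurd (Nat.le_of_dvd hd h) (by omega)
  set v : ZMod p := (d : ZMod p)⁻¹ * u with hv
  have hv0 : v ≠ 0 := mul_ne_zero (inv_ne_zero hd0) hu
  have hp0 : NeZero p := ⟨(Fact.out : p.Prime).ne_zero⟩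
  -- the new norms
  have hnew : ∀ z ∈ B, ∃ i ∈ Icc 1 j, (u * z).valMinAbs.natAbs = d * i ∧
      (v * z).valMinAbs.natAbs = i := by
    intro z hz
    have hzN : (u * z).valMinAbs.natAbs ∈ N := mem_image.mpr ⟨z, hz, rfl⟩
    rw [hNd, mem_image] at hzN
    obtain ⟨i, hi, hiz⟩ := hzN
    refine ⟨i, hi, hiz.symm, ?_⟩
    rw [mem_Icc] at hi
    have hi2 : i ≤ p / 2 := by omega
    have h6 : ((i : ℕ) : ZMod p).valMinAbs.natAbs = i := by
      rw [ZMod.valMinAbs_natCast_of_le_half hi2]; simp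
    rcases le_or_gt 0 (u * z).valMinAbs with h7 | h7
    · have h8 := cast_natAbs_of_nonneg _ h7
      rw [← hiz] at h8
      have h9 : v * z = (i : ZMod p) := by
        rw [hv, mul_assoc, ← h8]
        push_cast
        rw [← mul_assoc, inv_mul_cancel₀ hd0, one_mul]
      rw [h9, h6]
    · have h8 := cast_natAbs_of_neg _ h7
      rw [← hiz] at h8
      have h9 : v * z = -(i : ZMod p) := by
        have h10 : u * z = -((d * i : ℕ) : ZMod p) := by rw [h8]; ring
        rw [hv, mul_assoc, h10]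
        push_cast
        rw [mul_neg, ← mul_assoc, inv_mul_cancel₀ hd0, one_mul]
      rw [h9, ZMod.natAbs_valMinAbs_neg, h6]
  have himage : B.image (fun z => (v * z).valMinAbs.natAbs) = Icc 1 j := by
    ext i
    rw [mem_image]
    constructor
    · rintro ⟨z, hz, rfl⟩
      obtain ⟨i, hi, _, h⟩ := hnew z hz
      rw [h]; exact hi
    · intro hi
      have h6 : d * i ∈ N := by rw [hNd]; exact mem_image_of_mem _ hi
      rw [hN, mem_image] at h6
      obtain ⟨z, hz, hzi⟩ := h6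
      obtain ⟨i', _, h7, h8⟩ := hnew z hz
      refine ⟨z, hz, ?_⟩
      rw [h8]
      have : d * i' = d * i := by rw [← h7, hzi]
      exact Nat.eq_of_mul_eq_mul_left hd this
  have htv : tot v B = j * (j + 1) / 2 := by
    rw [tot_eq_sum v hv0 B hB, himage, sum_Icc_id]
  have htv' : tot v B < p := by
    rw [htv]
    calc j * (j + 1) / 2 ≤ d * (j * (j + 1) / 2) := Nat.le_mul_of_pos_left _ hd
      _ = tot u B := htot.symm
      _ < p := ht
  refine ⟨v, hv0, ?_⟩
  rw [card_eq_ss v hv0 B htv', ss_eq v hv0 B hB, himage, subsetSum_Icc, card_range, htv]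

theorem std_of_saturated {p : ℕ} [Fact p.Prime] (u : ZMod p) (hu : u ≠ 0)
    (B : Finset (ZMod p)) (hB : Anti B) (h4 : 4 ≤ B.card) (ht : tot u B < p)
    (hle : ∀ x ∈ B, B.subsetSum.card ≤ (B.erase x).subsetSum.card + B.card) : Std B :=
  std_of_saturated_aux BlockZ.int_lemma u hu B hB h4 ht hle

end Pool.Agent.MP_116850_co.BlockR
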