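import Pool.Agent.MP_116850_co.Defs

set_option autoImplicit false

namespace Pool.Agent.MP_116850_co

/-- `B ∪ -B ∪ {0}` -/
def sym {p : ℕ} (B : Finset (ZMod p)) : Finset (ZMod p) :=
  insert 0 (B ∪ B.image (fun x => -x))

/-- the elements of `B` whose dilate by `r` is far from zero -/
def out {p : ℕ} (r : ZMod p) (B : Finset (ZMod p)) : Finset (ZMod p) :=
  B.filter (fun x => p ≤ 4 * (r * x).valMinAbs.natAbs)

end Pool.Agent.MP_116850_co
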