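import Pool.Agent.MP_116850_co.Basic
import Pool.Agent.MP_116850_co.Defs2

set_option autoImplicit false

namespace Pool.Agent.MP_116850_co.BlockX

open Finset
open scoped Pointwise

/-- an arc of length `l` -/
def arc {p : ℕ} (a : ZMod p) (l : ℕ) : Finset (ZMod p) :=
  (range l).image (fun i : ℕ => a + (i : ZMod p))

theorem mem_arc {p : ℕ} {a : ZMod p} {l : ℕ} {v : ZMod p} :
    v ∈ arc a l ↔ ∃ i, i < l ∧ a + (i : ZMod p) = v := by
  unfold arc
  simp

theorem card_arc_le {p : ℕ} (a : ZMod p) (l : ℕ) : (arc a l).card ≤ l := by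
  unfold arc
  exact card_image_le.trans (by rw [card_range])

theorem card_arc {p : ℕ} [Fact p.Prime] (a : ZMod p) (l : ℕ) (hl : l ≤ p) : (arc a l).card = l := by
  unfold arc
  rw [card_image_of_injOn, card_range]
  intro x hx y hy hxy
  simp only [coe_range, Set.mem_Iio] at hx hy
  simp only [add_right_inj] at hxy
  have h1 := congrArg ZMod.val hxy
  rwa [ZMod.val_natCast_of_lt (by omega), ZMod.val_natCast_of_lt (by omega)] at h1

/-- the dilated subset sums are a whole arc of the right length -/
def IsArcU {p : ℕ} (u : ZMod p) (E : Finset (ZMod p)) : Prop :=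
  ∃ a : ZMod p, E.subsetSum.image (fun s => u * s) = arc a (tot u E + 1)

theorem signed {p : ℕ} [NeZero p] (y : ZMod p) :
    (y = (y.valMinAbs.natAbs : ZMod p)) ∨ (y = -(y.valMinAbs.natAbs : ZMod p)) := by
  have h := ZMod.coe_valMinAbs y
  rcases Int.natAbs_eq y.valMinAbs with h1 | h1
  · left
    calc y = ((y.valMinAbs : ℤ) : ZMod p) := h.symm
      _ = (((y.valMinAbs.natAbs : ℕ) : ℤ) : ZMod p) := by rw [← h1]
      _ = (y.valMinAbs.natAbs : ZMod p) := Int.cast_natCast _
  · right
    calc y = ((y.valMinAbs : ℤ) : ZMod p) := h.symm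
      _ = ((-((y.valMinAbs.natAbs : ℕ) : ℤ) : ℤ) : ZMod p) := by rw [← h1]
      _ = -(y.valMinAbs.natAbs : ZMod p) := by rw [Int.cast_neg, Int.cast_natCast]

theorem sub_arc {p : ℕ} [NeZero p] (u : ZMod p) (B : Finset (ZMod p)) :
    ∃ a : ZMod p, ∀ s ∈ B.subsetSum, ∃ i : ℕ, i < tot u B + 1 ∧ a + (i : ZMod p) = u * s := by
  classical
  induction B using Finset.induction_on with
  | empty =>
    refine ⟨0, ?_⟩
    intro s hs
    rw [subsetSum_empty', mem_singleton] at hs
    subst hs
    exact ⟨0, by omega, by simp⟩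
  | insert x B hx ih =>
    obtain ⟨a, ha⟩ := ih
    have htot : tot u (insert x B) = (u * x).valMinAbs.natAbs + tot u B := by
      unfold tot
      rw [sum_insert hx]
    set n := (u * x).valMinAbs.natAbs with hn
    rcases signed (u * x) with h | h
    · refine ⟨a, ?_⟩
      intro s hs
      rw [subsetSum_insert B x hx, mem_union] at hs
      rcases hs with hs | hs
      · obtain ⟨i, hi, hi'⟩ := ha s hs
        exact ⟨i, by omega, hi'⟩
      · rw [mem_image] at hs
        obtain ⟨t, ht, rfl⟩ := hs
        obtain ⟨i, hi, hi'⟩ := ha t ht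
        refine ⟨i + n, by omega, ?_⟩
        rw [mul_add, ← hi']
        push_cast
        rw [← hn] at h
        rw [h]; ring
    · refine ⟨a - n, ?_⟩
      intro s hs
      rw [subsetSum_insert B x hx, mem_union] at hs
      rcases hs with hs | hs
      · obtain ⟨i, hi, hi'⟩ := ha s hs
        refine ⟨i + n, by omega, ?_⟩
        rw [← hi']
        push_cast
        ring
      · rw [mem_image] at hs
        obtain ⟨t, ht, rfl⟩ := hs
        obtain ⟨i, hi, hi'⟩ := ha t ht
        refine ⟨i, by omega, ?_⟩
        rw [mul_add, ← hi']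
        rw [← hn] at h
        rw [h]; ring

theorem mul_inj {p : ℕ} [Fact p.Prime] {u : ZMod p} (hu : u ≠ 0) :
    Function.Injective (fun s : ZMod p => u * s) := fun _ _ h => mul_left_cancel₀ hu h

theorem isArcU_of_card {p : ℕ} [Fact p.Prime] (u : ZMod p) (hu : u ≠ 0) (B : Finset (ZMod p))
    (h : B.subsetSum.card = tot u B + 1) : IsArcU u B := by
  obtain ⟨a, ha⟩ := sub_arc u B
  refine ⟨a, ?_⟩
  apply eq_of_subset_of_card_le
  · intro v hv
    rw [mem_image] at hv
    obtain ⟨s, hs, rfl⟩ := hv
    exact mem_arc.mpr (ha s hs)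
  · rw [card_image_of_injective _ (mul_inj hu), h]
    exact card_arc_le _ _

theorem image_mul_insert {p : ℕ} (u : ZMod p) (E : Finset (ZMod p)) (x : ZMod p) (hx : x ∉ E) :
    (insert x E).subsetSum.image (fun s => u * s) =
      E.subsetSum.image (fun s => u * s) ∪
        (E.subsetSum.image (fun s => u * s)).image (fun s => s + u * x) := by
  rw [subsetSum_insert E x hx, image_union, image_image, image_image]
  congr 2
  ext s
  simp only [Function.comp]
  ring

/-- near shifts of an arc -/
theorem arc_near {p : ℕ} [NeZero p] (a : ZMod p) (l : ℕ) (y : ZMod p)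
    (hy : y.valMinAbs.natAbs ≤ l) :
    ∃ b : ZMod p, arc a l ∪ (arc a l).image (fun s => s + y) = arc b (l + y.valMinAbs.natAbs) := by
  set n := y.valMinAbs.natAbs with hn
  rcases signed y with h | h
  · rw [← hn] at h
    refine ⟨a, ?_⟩
    ext v
    simp only [mem_union, mem_image, mem_arc]
    constructor
    · rintro (⟨i, hi, rfl⟩ | ⟨_, ⟨i, hi, rfl⟩, rfl⟩)
      · exact ⟨i, by omega, rfl⟩
      · exact ⟨i + n, by omega, by rw [h]; push_cast; ring⟩
    · rintro ⟨i, hi, rfl⟩
      rcases lt_or_ge i l with h1 | h1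
      · left; exact ⟨i, h1, rfl⟩
      · right
        refine ⟨a + ((i - n : ℕ) : ZMod p), ⟨i - n, by omega, rfl⟩, ?_⟩
        rw [h, add_assoc, ← Nat.cast_add, show i - n + n = i by omega]
  · rw [← hn] at h
    refine ⟨a - n, ?_⟩
    ext v
    simp only [mem_union, mem_image, mem_arc]
    constructor
    · rintro (⟨i, hi, rfl⟩ | ⟨_, ⟨i, hi, rfl⟩, rfl⟩)
      · exact ⟨i + n, by omega, by push_cast; ring⟩
      · exact ⟨i, by omega, by rw [h]; ring⟩
    · rintro ⟨i, hi, rfl⟩
      rcases lt_or_ge i l with h1 | h1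
      · right
        exact ⟨a + (i : ZMod p), ⟨i, h1, rfl⟩, by rw [h]; ring⟩
      · left
        refine ⟨i - n, by omega, ?_⟩
        have : (i : ZMod p) = ((i - n : ℕ) : ZMod p) + n := by
          rw [← Nat.cast_add, show i - n + n = i by omega]
        rw [this]; ring

/-- far shifts of an arc -/
theorem arc_far {p : ℕ} [Fact p.Prime] (a : ZMod p) (l : ℕ) (y : ZMod p)
    (hy : l ≤ y.valMinAbs.natAbs) (hl : 2 * l ≤ p) :
    (arc a l ∪ (arc a l).image (fun s => s + y)).card = 2 * l := by
  have hp := (Fact.out : p.Prime).two_le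
  rw [card_union_of_disjoint, card_image_of_injective _ (add_left_injective y),
    card_arc a l (by omega)]
  · omega
  · rw [disjoint_left]
    intro v hv1 hv2
    rw [mem_arc] at hv1
    rw [mem_image] at hv2
    obtain ⟨i, hi, rfl⟩ := hv1
    obtain ⟨w, hw, hw'⟩ := hv2
    rw [mem_arc] at hw
    obtain ⟨j, hj, rfl⟩ := hw
    have hyij : y = (((i : ℤ) - (j : ℤ) : ℤ) : ZMod p) := by
      push_cast
      linear_combination hw'
    have h1 : y.valMinAbs = (i : ℤ) - j := by
      rw [ZMod.valMinAbs_spec]
      refine ⟨hyij, ?_⟩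
      rw [Set.mem_Ioc]
      constructor <;> omega
    rw [h1] at hy
    omega

theorem natAbs_le {p : ℕ} [Fact p.Prime] (y : ZMod p) : 2 * y.valMinAbs.natAbs ≤ p := by
  have := ZMod.natAbs_valMinAbs_le y
  omega

theorem std_extend {p : ℕ} [Fact p.Prime] (h2 : p ≠ 2) (B : Finset (ZMod p)) (x : ZMod p)
    (hx : x ∈ B) (hstd : Std (B.erase x)) (hp : 2 * (B.erase x).subsetSum.card ≤ p) :
    Std B ∨ B.subsetSum.card = 2 * (B.erase x).subsetSum.card := by
  obtain ⟨u, hu, hc⟩ := hstd
  obtain ⟨a, ha⟩ := isArcU_of_card u hu _ hc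
  have hB : B = insert x (B.erase x) := (insert_erase hx).symm
  have hnx : x ∉ B.erase x := notMem_erase x B
  have himg := image_mul_insert u (B.erase x) x hnx
  rw [← hB, ha] at himg
  have hcard : B.subsetSum.card = (B.subsetSum.image (fun s => u * s)).card :=
    (card_image_of_injective _ (mul_inj hu)).symm
  have htot : tot u B = (u * x).valMinAbs.natAbs + tot u (B.erase x) := by
    unfold tot
    rw [← sum_erase_add _ _ hx, add_comm]
  have hn := natAbs_le (u * x)
  rcases le_or_gt (u * x).valMinAbs.natAbs (tot u (B.erase x) + 1) with h | h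
  · left
    obtain ⟨b, hb⟩ := arc_near a _ (u * x) h
    rw [hb] at himg
    refine ⟨u, hu, ?_⟩
    rw [hcard, himg, card_arc _ _ (by omega)]
    omega
  · right
    rw [hcard, himg, arc_far a _ (u * x) h.le (by omega), hc]

theorem finish {p : ℕ} [Fact p.Prime] (h2 : p ≠ 2) (D N X₀ : Finset (ZMod p))
    (hD : ∃ c, c ∉ D.subsetSum) (hN : N ⊆ D) (hstd : Std N) (hX : X₀ ⊆ D \ N)
    (hW : ∀ W ⊆ X₀, X₀.card ≤ W.card + 1 → p < W.subsetSum.card + 2 * N.subsetSum.card) :
    ∃ u : ZMod p, u ≠ 0 ∧ tot u D + 2 ≤ p := by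
  obtain ⟨u, hu, hc⟩ := hstd
  obtain ⟨a, ha⟩ := isArcU_of_card u hu _ hc
  obtain ⟨c, hcD⟩ := hD
  refine ⟨u, hu, ?_⟩
  have hclaim : ∀ x ∈ D \ N, (u * x).valMinAbs.natAbs ≤ tot u N + 1 := by
    intro x hx
    by_contra hlt
    push Not at hlt
    rw [mem_sdiff] at hx
    have hn := natAbs_le (u * x)
    have himg := image_mul_insert u N x hx.2
    rw [ha] at himg
    have hcard : (insert x N).subsetSum.card = 2 * (tot u N + 1) := by
      rw [← arc_far a _ (u * x) hlt.le (by omega), ← himg]
      exact (card_image_of_injective _ (mul_inj hu)).symm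
    have hWx := hW (X₀.erase x) (erase_subset _ _) (by
      have := pred_card_le_card_erase (s := X₀) (a := x)
      omega)
    have hsub : (insert x N).subsetSum + (X₀.erase x).subsetSum ⊆ D.subsetSum := by
      intro v hv
      rw [mem_add] at hv
      obtain ⟨s, hs, t, ht, rfl⟩ := hv
      rw [mem_subsetSum_iff] at hs ht
      obtain ⟨C, hC, rfl⟩ := hs
      obtain ⟨C', hC', rfl⟩ := ht
      rw [mem_subsetSum_iff]
      refine ⟨C ∪ C', ?_, ?_⟩
      · apply union_subset
        · intro z hz
          rcases mem_insert.mp (hC hz) with h | h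
          · rw [h]; exact hx.1
          · exact hN h
        · intro z hz
          exact (mem_sdiff.mp (hX (mem_of_mem_erase (hC' hz)))).1
      · rw [sum_union]
        rw [disjoint_left]
        intro z hz hz'
        have h1 := mem_erase.mp (hC' hz')
        rcases mem_insert.mp (hC hz) with h | h
        · exact h1.1 h
        · exact (mem_sdiff.mp (hX h1.2)).2 h
    have hlt2 : ((insert x N).subsetSum + (X₀.erase x).subsetSum).card < p := by
      have h3 : ((insert x N).subsetSum + (X₀.erase x).subsetSum) ⊂ (univ : Finset (ZMod p)) := by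
        rw [ssubset_univ_iff]
        intro h
        apply hcD
        apply hsub
        rw [h]; exact mem_univ _
      have := card_lt_card h3
      rwa [card_univ, ZMod.card] at this
    have hcd := ZMod.cauchy_davenport (Fact.out : p.Prime)
      (subsetSum_nonempty (A := insert x N)) (subsetSum_nonempty (A := X₀.erase x))
    have hpos := subsetSum_card_pos (X₀.erase x)
    rw [min_le_iff] at hcd
    omega
  have hind : ∀ X ⊆ D \ N, IsArcU u (N ∪ X) := by
    intro X
    classical
    induction X using Finset.induction_on with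
    | empty =>
      intro _
      rw [union_empty]
      exact ⟨a, ha⟩
    | insert x X hxX ih =>
      intro hsub
      have hxD := hsub (mem_insert_self x X)
      obtain ⟨b, hb⟩ := ih (fun z hz => hsub (mem_insert_of_mem hz))
      have hx : x ∉ N ∪ X := by
        rw [mem_union]
        rintro (h | h)
        · exact (mem_sdiff.mp hxD).2 h
        · exact hxX h
      rw [union_insert]
      have himg := image_mul_insert u (N ∪ X) x hx
      have hle : tot u N ≤ tot u (N ∪ X) := by
        unfold tot
        exact sum_le_sum_of_subset subset_union_left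
      obtain ⟨b', hb'⟩ := arc_near b (tot u (N ∪ X) + 1) (u * x) (by
        have := hclaim x hxD
        omega)
      refine ⟨b', ?_⟩
      rw [himg, hb, hb']
      congr 1
      unfold tot
      rw [sum_insert hx]
      omega
  obtain ⟨b, hb⟩ := hind (D \ N) subset_rfl
  rw [union_sdiff_of_subset hN] at hb
  by_contra hcon
  push Not at hcon
  apply hcD
  have h3 : (arc b p) ⊆ arc b (tot u D + 1) := by
    intro v hv
    rw [mem_arc] at hv ⊢
    obtain ⟨i, hi, rfl⟩ := hv
    exact ⟨i, by omega, rfl⟩
  have h4 : arc b p = univ := by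
    apply eq_univ_of_card
    rw [card_arc b p le_rfl, ZMod.card]
  have h5 : u * c ∈ D.subsetSum.image (fun s => u * s) := by
    rw [hb]
    apply h3
    rw [h4]; exact mem_univ _
  rw [mem_image] at h5
  obtain ⟨s, hs, hsc⟩ := h5
  rw [← mul_inj hu hsc]
  exact hs

end Pool.Agent.MP_116850_co.BlockX
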