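import Pool.Agent.MP_116850_co.Spec
import Pool.Agent.MP_116850_co.Defs2
import Pool.Agent.MP_116850_co.BlockR
import Pool.Agent.MP_116850_co.BlockX
import Pool.Agent.MP_116850_co.BlockO

set_option autoImplicit false

namespace Pool.Agent.MP_116850_co

open Finset
open scoped Pointwise

/-! Block R (integer representation).  May use `int_lemma` of Spec.lean (another helper proves it). -/

theorem card_le_tot {p : ℕ} [Fact p.Prime] (u : ZMod p) (hu : u ≠ 0) (B : Finset (ZMod p)) :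
    B.subsetSum.card ≤ tot u B + 1 :=
  BlockR.card_le_tot u hu B

theorem exists_large_step {p : ℕ} [Fact p.Prime] (u : ZMod p) (hu : u ≠ 0)
    (B : Finset (ZMod p)) (hB : Anti B) (hne : B.Nonempty) (ht : tot u B < p) :
    ∃ x ∈ B, (B.erase x).subsetSum.card + B.card ≤ B.subsetSum.card :=
  BlockR.exists_large_step u hu B hB hne ht

theorem std_of_saturated {p : ℕ} [Fact p.Prime] (u : ZMod p) (hu : u ≠ 0)
    (B : Finset (ZMod p)) (hB : Anti B) (h4 : 4 ≤ B.card) (ht : tot u B < p)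
    (hle : ∀ x ∈ B, B.subsetSum.card ≤ (B.erase x).subsetSum.card + B.card) : Std B :=
  BlockR.std_of_saturated u hu B hB h4 ht hle

/-! Block X (extension of intervals). -/

theorem std_extend {p : ℕ} [Fact p.Prime] (h2 : p ≠ 2) (B : Finset (ZMod p)) (x : ZMod p)
    (hx : x ∈ B) (hstd : Std (B.erase x)) (hp : 2 * (B.erase x).subsetSum.card ≤ p) :
    Std B ∨ B.subsetSum.card = 2 * (B.erase x).subsetSum.card :=
  BlockX.std_extend h2 B x hx hstd hp

theorem finish {p : ℕ} [Fact p.Prime] (h2 : p ≠ 2) (D N X₀ : Finset (ZMod p))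
    (hD : ∃ c, c ∉ D.subsetSum) (hN : N ⊆ D) (hstd : Std N) (hX : X₀ ⊆ D \ N)
    (hW : ∀ W ⊆ X₀, X₀.card ≤ W.card + 1 → p < W.subsetSum.card + 2 * N.subsetSum.card) :
    ∃ u : ZMod p, u ≠ 0 ∧ tot u D + 2 ≤ p :=
  BlockX.finish h2 D N X₀ hD hN hstd hX hW

/-! Block O (structure from small doubling).  May use `freiman_3k4` of Spec.lean. -/

theorem outside34 {p : ℕ} [Fact p.Prime] (hp2 : p ≠ 2) (B : Finset (ZMod p)) (hB : Anti B)
    (E o : ℕ) (r : ZMod p) (hr : r ≠ 0)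
    (hsum : (sym B + sym B).card ≤ 4 * B.card + 1 + E)
    (ho : (out r B).card ≤ o)
    (h1 : 6 * o + 2 + E ≤ 2 * B.card)
    (h2 : 6 * B.card + 6 * o + 3 * E ≤ p)
    (h3 : 4 * (B.card + 3 * o + E) < p)
    (h4 : B.card * (B.card + 1) + E * B.card < 2 * p) :
    ∃ u : ZMod p, u ≠ 0 ∧ tot u B < p :=
  BlockO.outside34 hp2 B hB E o r hr hsum ho h1 h2 h3 h4

theorem inside34 {p : ℕ} [Fact p.Prime] (hp2 : p ≠ 2) (B : Finset (ZMod p)) (hB : Anti B)
    (E : ℕ) (r : ZMod p) (hr : r ≠ 0)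
    (hsum : (sym B + sym B).card ≤ 4 * B.card + 1 + E)
    (ho : out r B = ∅) (h1 : 2 + E ≤ 2 * B.card)
    (h4 : B.card * (B.card + 1) + E * B.card < 2 * p) :
    ∃ u : ZMod p, u ≠ 0 ∧ tot u B < p :=
  BlockO.inside34 hp2 B hB E r hr hsum ho h1 h4

end Pool.Agent.MP_116850_co
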