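import Pool.Agent.MP_116850_co.Growth3
import Pool.Agent.MP_116850_co.Spec2

set_option autoImplicit false

namespace Pool.Agent.MP_116850_co

open Finset
open scoped Pointwise

variable {p : ℕ}

lemma out_cost (r : ZMod p) (B : Finset (ZMod p)) :
    (out r B).card * p ^ 2 ≤ ∑ x ∈ B, cost p (r * x).valMinAbs.natAbs := by
  calc (out r B).card * p ^ 2 = ∑ x ∈ out r B, p ^ 2 := by rw [sum_const, smul_eq_mul]
    _ ≤ ∑ x ∈ out r B, cost p (r * x).valMinAbs.natAbs := by
        apply sum_le_sum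
        intro x hx
        have h := (mem_filter.mp hx).2
        unfold cost
        rw [if_neg (by omega)]
        nlinarith
    _ ≤ _ := sum_le_sum_of_subset (filter_subset _ _)

lemma cost_lin_in (p a b n : ℕ) (h : ¬ p ≤ 4 * n) :
    (64 * a * b * n * p - a ^ 2 * p ^ 2 : ℤ) ≤ 64 * b ^ 2 * (cost p n : ℕ) := by
  unfold cost
  rw [if_pos (by omega)]
  push_cast
  nlinarith [sq_nonneg ((32 * b * n : ℤ) - a * p)]

lemma cost_lin_out (p a b n : ℕ) (h : p ≤ 4 * n) (hab : a ≤ 4 * b) :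
    (64 * a * b * n * p + 16 * b * (4 * b - a) * p ^ 2 : ℤ) ≤ 64 * b ^ 2 * (cost p n : ℕ) := by
  unfold cost
  rw [if_neg (by omega)]
  push_cast
  have h1 : (0 : ℤ) ≤ 4 * n - p := by omega
  have h2 : (0 : ℤ) ≤ 4 * b - a := by omega
  have h3 : (0 : ℤ) ≤ 16 * b * p * ((4 * n - p) * (4 * b - a)) := by positivity
  nlinarith

theorem special (B : Finset (ZMod p)) (r : ZMod p) (hp : 0 < p) (L D a b : ℕ)
    (hC : (∑ x ∈ B, cost p (r * x).valMinAbs.natAbs) * D ≤ B.card * L * p ^ 3)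
    (hab : a ≤ 4 * b ∨ (out r B).card = 0)
    (hnum : (64 * b ^ 2 * (B.card * L * p) : ℤ) <
      (64 * a * b + 16 * b * (out r B).card * (4 * b - a) -
        (B.card - (out r B).card) * a ^ 2) * D) :
    tot r B < p := by
  classical
  by_contra hT
  push Not at hT
  have hsplit : ∀ f : ZMod p → ℤ, ∑ x ∈ B, f x = ∑ x ∈ out r B, f x +
      ∑ x ∈ B.filter (fun x => ¬ p ≤ 4 * (r * x).valMinAbs.natAbs), f x := by
    intro f
    unfold out
    exact (sum_filter_add_sum_filter_not B _ f).symm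
  have hcard : ((B.filter (fun x => ¬ p ≤ 4 * (r * x).valMinAbs.natAbs)).card : ℤ) =
      B.card - (out r B).card := by
    have := card_filter_add_card_filter_not (s := B)
      (fun x => p ≤ 4 * (r * x).valMinAbs.natAbs)
    unfold out
    rw [← this]
    push_cast
    ring
  have h1 : (64 * a * b * p * (tot r B : ℕ) + 16 * b * (4 * b - a) * p ^ 2 * (out r B).card
      - a ^ 2 * p ^ 2 * (B.card - (out r B).card) : ℤ) ≤
      64 * b ^ 2 * (∑ x ∈ B, cost p (r * x).valMinAbs.natAbs : ℕ) := by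
    have e1 : (64 * b ^ 2 * (∑ x ∈ B, cost p (r * x).valMinAbs.natAbs : ℕ) : ℤ) =
        ∑ x ∈ B, (64 * b ^ 2 * (cost p (r * x).valMinAbs.natAbs : ℕ) : ℤ) := by
      push_cast; rw [mul_sum]
    have e2 : (64 * a * b * p * (tot r B : ℕ) : ℤ) =
        ∑ x ∈ B, (64 * a * b * p * ((r * x).valMinAbs.natAbs : ℕ) : ℤ) := by
      unfold tot; push_cast; rw [mul_sum]
    rw [e1, e2, hsplit, hsplit, ← hcard]
    have e3 : ∑ x ∈ out r B, (64 * a * b * p * ((r * x).valMinAbs.natAbs : ℕ) : ℤ) +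
        16 * b * (4 * b - a) * p ^ 2 * (out r B).card ≤
        ∑ x ∈ out r B, (64 * b ^ 2 * (cost p (r * x).valMinAbs.natAbs : ℕ) : ℤ) := by
      rcases hab with hab | hab
      · have : ∑ x ∈ out r B, (64 * a * b * p * ((r * x).valMinAbs.natAbs : ℕ) : ℤ) +
            16 * b * (4 * b - a) * p ^ 2 * (out r B).card =
            ∑ x ∈ out r B, (64 * a * b * ((r * x).valMinAbs.natAbs : ℕ) * p +
              16 * b * (4 * b - a) * p ^ 2 : ℤ) := by
          rw [sum_add_distrib, sum_const, nsmul_eq_mul, mul_comm (((out r B).card : ℕ) : ℤ)]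
          congr 1
          apply sum_congr rfl
          intro x _
          ring
        rw [this]
        apply sum_le_sum
        intro x hx
        exact cost_lin_out p a b _ (mem_filter.mp hx).2 hab
      · rw [card_eq_zero.mp hab]; simp
    have e4 : ∑ x ∈ B.filter (fun x => ¬ p ≤ 4 * (r * x).valMinAbs.natAbs),
          (64 * a * b * p * ((r * x).valMinAbs.natAbs : ℕ) : ℤ) -
        a ^ 2 * p ^ 2 * (B.filter (fun x => ¬ p ≤ 4 * (r * x).valMinAbs.natAbs)).card ≤
        ∑ x ∈ B.filter (fun x => ¬ p ≤ 4 * (r * x).valMinAbs.natAbs),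
          (64 * b ^ 2 * (cost p (r * x).valMinAbs.natAbs : ℕ) : ℤ) := by
      have : ∑ x ∈ B.filter (fun x => ¬ p ≤ 4 * (r * x).valMinAbs.natAbs),
          (64 * a * b * p * ((r * x).valMinAbs.natAbs : ℕ) : ℤ) -
        a ^ 2 * p ^ 2 * (B.filter (fun x => ¬ p ≤ 4 * (r * x).valMinAbs.natAbs)).card =
        ∑ x ∈ B.filter (fun x => ¬ p ≤ 4 * (r * x).valMinAbs.natAbs),
          (64 * a * b * ((r * x).valMinAbs.natAbs : ℕ) * p - a ^ 2 * p ^ 2 : ℤ) := by
        rw [sum_sub_distrib, sum_const, nsmul_eq_mul,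
          mul_comm (((B.filter (fun x => ¬ p ≤ 4 * (r * x).valMinAbs.natAbs)).card : ℕ) : ℤ)]
        congr 1
        apply sum_congr rfl
        intro x _
        ring
      rw [this]
      apply sum_le_sum
      intro x hx
      exact cost_lin_in p a b _ (mem_filter.mp hx).2
    linarith
  set K : ℤ := 64 * a * b + 16 * b * (out r B).card * (4 * b - a) -
        (B.card - (out r B).card) * a ^ 2 with hK
  have h2 : (p : ℤ) ^ 2 * K ≤ 64 * b ^ 2 * (∑ x ∈ B, cost p (r * x).valMinAbs.natAbs : ℕ) := by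
    have h3 : (64 * a * b * p * p : ℤ) ≤ 64 * a * b * p * (tot r B : ℕ) :=
      mul_le_mul_of_nonneg_left (by exact_mod_cast hT) (by positivity)
    rw [hK]
    linarith
  have h3 : (p : ℤ) ^ 2 * K * D ≤
      64 * b ^ 2 * (∑ x ∈ B, cost p (r * x).valMinAbs.natAbs : ℕ) * D :=
    mul_le_mul_of_nonneg_right h2 (by positivity)
  have h4 : (64 * b ^ 2 : ℤ) * ((∑ x ∈ B, cost p (r * x).valMinAbs.natAbs : ℕ) * D) ≤
      64 * b ^ 2 * (B.card * L * p ^ 3) :=
    mul_le_mul_of_nonneg_left (by exact_mod_cast hC) (by positivity)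
  have h5 : (p : ℤ) ^ 2 * (64 * b ^ 2 * (B.card * L * p)) < p ^ 2 * (K * D) :=
    mul_lt_mul_of_pos_left hnum (by positivity)
  nlinarith

/-- numeric criterion for `o` outliers -/
def Crit (j L E p D o : ℕ) : Prop :=
  (6 * o + 2 + E ≤ 2 * j ∧ (o = 0 ∨ (6 * j + 6 * o + 3 * E ≤ p ∧ 4 * (j + 3 * o + E) < p)) ∧
    j * (j + 1) + E * j < 2 * p) ∨
  (∃ a b : ℕ, (a ≤ 4 * b ∨ o = 0) ∧ (64 * b ^ 2 * (j * L * p) : ℤ) <
      (64 * a * b + 16 * b * o * (4 * b - a) - (j - o) * a ^ 2) * D)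

theorem conc [hp : Fact p.Prime] (h2p : p ≠ 2) {B : Finset (ZMod p)} (hB : Anti B)
    (L E : ℕ) (hlt : B.subsetSum.card < p) (hL : ∀ x ∈ B, lam B.subsetSum x ≤ L)
    (hsum : (it (sym B) 2).card ≤ 4 * B.card + 1 + E)
    (hnum : ∀ o, o * (B.subsetSum.card * (p - B.subsetSum.card)) ≤ B.card * L * p →
      Crit B.card L E p (B.subsetSum.card * (p - B.subsetSum.card)) o) :
    ∃ u : ZMod p, u ≠ 0 ∧ tot u B < p := by
  obtain ⟨r, hr, hC⟩ := fourier B.subsetSum B L subsetSum_nonempty hlt hL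
  set D := B.subsetSum.card * (p - B.subsetSum.card) with hD
  have hpos : 0 < p := hp.out.pos
  have ho : (out r B).card * D ≤ B.card * L * p := by
    have h1 := Nat.mul_le_mul_right D (out_cost r B)
    have h2 := h1.trans hC
    have h3 : p ^ 2 * ((out r B).card * D) ≤ p ^ 2 * (B.card * L * p) := by
      calc _ = (out r B).card * p ^ 2 * D := by ring
        _ ≤ B.card * L * p ^ 3 := h2
        _ = _ := by ring
    exact Nat.le_of_mul_le_mul_left h3 (by positivity)
  rcases hnum _ ho with ⟨c1, c2 | ⟨c2, c3⟩, c4⟩ | ⟨a, b, hab, hn⟩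
  · refine inside34 h2p B hB E r hr ?_ (card_eq_zero.mp c2) (by omega) c4
    rw [it_succ, it_one] at hsum
    exact hsum
  · refine outside34 h2p B hB E (out r B).card r hr ?_ le_rfl c1 c2 c3 c4
    rw [it_succ, it_one] at hsum
    exact hsum
  · exact ⟨r, hr, special B r hpos L D a b hC hab hn⟩

end Pool.Agent.MP_116850_co
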