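import Pool.Agent.MP_116850_co.Mid

set_option autoImplicit false

namespace Pool.Agent.MP_116850_co

open Finset
open scoped Pointwise

theorem main_large (p : ℕ) [hp : Fact p.Prime] (h1 : 229 ≤ p)
    {A : Finset (ZMod p)} (ha : A.card ^ 2 ≤ 4 * (p - 2)) (hb : 4 * (p - 2) < (A.card + 1) ^ 2)
    (hA : ∃ c, c ∉ A.subsetSum) : ∃ u : ZMod p, u ≠ 0 ∧ tot u A + 2 ≤ p := by
  have h2p : p ≠ 2 := by omega
  have hR2 : ∀ j, R2 p j := by
    intro j
    unfold R2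
    omega
  have hR1 : ∀ j, 4 ≤ j → R1 p j := by
    intro j hj
    unfold R1
    omega
  have hm : 30 ≤ A.card := by
    by_contra hcon
    have h3 : A.card + 1 ≤ 30 := by omega
    have h4 : (A.card + 1) ^ 2 ≤ 30 ^ 2 := Nat.pow_le_pow_left h3 2
    omega
  obtain ⟨k, hk | hk⟩ := Nat.even_or_odd' A.card
  · -- `m = 2 k`
    obtain ⟨i, rfl⟩ : ∃ i, k = i + 2 := ⟨k - 2, by omega⟩
    rw [hk] at ha hb
    have e1 : (2 * (i + 2)) ^ 2 = 4 * ((i + 2) * (i + 2)) := by ring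
    have e2 : (2 * (i + 2) + 1) ^ 2 = 4 * ((i + 2) * (i + 2)) + 4 * (i + 2) + 1 := by ring
    rw [e1] at ha
    rw [e2] at hb
    obtain ⟨s, hs⟩ := Nat.exists_eq_add_of_le
      (show (i + 2) * (i + 2) + 2 ≤ p by omega)
    refine case_odd h2p i s (i + 1) hs (by omega) (by omega) (by omega) (by omega)
      (fun j _ _ => hR2 j) (fun j h4 _ _ => hR1 j h4) (by omega) hA
  · -- `m = 2 k + 1`
    rw [hk] at ha hb
    have e1 : (2 * k + 1) ^ 2 = 4 * (k * k) + 4 * k + 1 := by ring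
    have e2 : (2 * k + 1 + 1) ^ 2 = 4 * (k * k) + 8 * k + 4 := by ring
    rw [e1] at ha
    rw [e2] at hb
    obtain ⟨s, hs⟩ := Nat.exists_eq_add_of_le
      (show k * k + k + 2 ≤ p by omega)
    refine case_even h2p k s k hs (by omega) (by omega) (by omega) (by omega)
      (fun j _ _ => hR2 j) (fun j h4 _ _ => hR1 j h4) (by omega) hA

theorem sq_bounds (p : ℕ) (hp : 2 ≤ p) (n : ℕ) (h : (n : ℤ) = ⌊2 * Real.sqrt ((p : ℝ) - 2)⌋) :
    n ^ 2 ≤ 4 * (p - 2) ∧ 4 * (p - 2) < (n + 1) ^ 2 := by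
  have hp' : (0 : ℝ) ≤ (p : ℝ) - 2 := by
    have : (2 : ℝ) ≤ p := by exact_mod_cast hp
    linarith
  have h1 := Int.floor_le (2 * Real.sqrt ((p : ℝ) - 2))
  have h2 := Int.lt_floor_add_one (2 * Real.sqrt ((p : ℝ) - 2))
  rw [← h] at h1 h2
  have h3 : (2 * Real.sqrt ((p : ℝ) - 2)) ^ 2 = 4 * ((p : ℝ) - 2) := by
    rw [mul_pow, Real.sq_sqrt hp']; norm_num
  have h4 : (((4 * (p - 2) : ℕ) : ℝ)) = 4 * ((p : ℝ) - 2) := by
    push_cast [hp]; ring
  have hs : 0 ≤ 2 * Real.sqrt ((p : ℝ) - 2) := by positivity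
  constructor
  · have : ((n ^ 2 : ℕ) : ℝ) ≤ ((4 * (p - 2) : ℕ) : ℝ) := by
      rw [h4, ← h3]
      push_cast
      push_cast at h1
      exact pow_le_pow_left₀ (by positivity) h1 2
    exact_mod_cast this
  · have : ((4 * (p - 2) : ℕ) : ℝ) < (((n + 1) ^ 2 : ℕ) : ℝ) := by
      rw [h4, ← h3]
      push_cast
      push_cast at h2
      exact pow_lt_pow_left₀ h2 hs (by norm_num)
    exact_mod_cast this

theorem good_of_ge (p : ℕ) (hp : p.Prime) (h1 : 47 ≤ p) : Good p := by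
  haveI : Fact p.Prime := ⟨hp⟩
  intro A hcard ⟨c, hc⟩
  obtain ⟨ha, hb⟩ := sq_bounds p (by omega) A.card hcard
  have hA : ∃ c, c ∉ A.subsetSum := ⟨c, fun h => by
    obtain ⟨B, hB, hs⟩ := mem_subsetSum_iff.mp h
    exact hc B hB hs⟩
  have key : ∃ u : ZMod p, u ≠ 0 ∧ tot u A + 2 ≤ p := by
    by_cases h2 : p < 229
    · exact main_mid p h1 h2 ha hb hA
    · exact main_large p (by omega) ha hb hA
  obtain ⟨u, hu, ht⟩ := key
  refine ⟨u, hu, ?_⟩
  have : ∑ a ∈ A, |(u * a).valMinAbs| = ((tot u A : ℕ) : ℤ) := by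
    unfold tot
    push_cast
    apply sum_congr rfl
    intro x _
    rfl
  rw [this]
  omega

theorem good_iff (p : ℕ) (hp : p.Prime) (h2 : p ≠ 2) : Good p ↔ p ≠ 17 := by
  constructor
  · rintro h rfl
    exact not_good_17 h
  · intro h17
    by_cases h : p ≤ 43
    · exact good_small p hp h2 h17 h
    · by_cases h47 : 47 ≤ p
      · exact good_of_ge p hp h47
      · exfalso
        have : p = 44 ∨ p = 45 ∨ p = 46 := by omega
        rcases this with rfl | rfl | rfl <;> revert hp <;> norm_num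

end Pool.Agent.MP_116850_co
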