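import Pool.Agent.MP_116850_co.Olson

set_option autoImplicit false

namespace Pool.Agent.MP_116850_co

open Finset
open scoped Pointwise

variable {p : ℕ}

/-- a symmetric set containing zero has odd cardinality (`p` odd prime) -/
lemma odd_card [hp : Fact p.Prime] (h2 : p ≠ 2) (A : Finset (ZMod p)) (h0 : (0 : ZMod p) ∈ A)
    (hneg : ∀ x ∈ A, -x ∈ A) : A.card % 2 = 1 := by
  have hp2 : (2 : ZMod p) ≠ 0 := by
    intro h
    have : (p : ℕ) ∣ 2 := by
      have := (ZMod.natCast_eq_zero_iff 2 p).mp (by exact_mod_cast h)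
      exact this
    exact h2 ((Nat.prime_dvd_prime_iff_eq hp.out Nat.prime_two).mp this)
  have h1 : ((A.erase 0).card : ZMod 2) = 0 := by
    have := Finset.sum_involution (s := A.erase 0) (f := fun _ => (1 : ZMod 2))
      (fun x _ => -x) (fun x hx => by decide) (fun x hx _ => ?_) (fun x hx => ?_)
      (fun x hx => by simp)
    · simpa using this
    · intro h
      apply (mem_erase.mp hx).1
      have : (2 : ZMod p) * x = 0 := by
        have h' : x + x = 0 := by
          nth_rewrite 1 [← h]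
          ring
        rw [two_mul]; exact h'
      rcases mul_eq_zero.mp this with h | h
      · exact absurd h hp2
      · exact h
    · rw [mem_erase] at hx ⊢
      exact ⟨by simpa using hx.1, hneg x hx.2⟩
  have h3 : A.card = (A.erase 0).card + 1 := by
    rw [card_erase_of_mem h0]
    have : 0 < A.card := card_pos.mpr ⟨0, h0⟩
    omega
  have h4 : (A.erase 0).card % 2 = 0 := by
    have := (ZMod.natCast_eq_zero_iff (A.erase 0).card 2).mp h1
    omega
  omega

lemma neg_mem_it {B : Finset (ZMod p)} (i : ℕ) : ∀ x ∈ it (sym B) i, -x ∈ it (sym B) i := by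
  induction i with
  | zero => intro x hx; simp [it] at hx ⊢; exact hx
  | succ i ih =>
    intro x hx
    rw [it_succ, mem_add] at hx ⊢
    obtain ⟨a, ha, b, hb, rfl⟩ := hx
    exact ⟨-a, ih a ha, -b, neg_mem_sym hb, by ring⟩

lemma it_card_odd [hp : Fact p.Prime] (h2 : p ≠ 2) (B : Finset (ZMod p)) (i : ℕ) :
    (it (sym B) i).card % 2 = 1 :=
  odd_card h2 _ (it_mono (zero_mem_sym B) (Nat.zero_le i) (by simp [it])) (neg_mem_it i)

/-- linear growth -/
lemma it_card_ge [hp : Fact p.Prime] {B : Finset (ZMod p)} (hB : Anti B) (i : ℕ) :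
    min p (2 * B.card * i + 1) ≤ (it (sym B) i).card := by
  induction i with
  | zero => simp [it]
  | succ i ih =>
    have h1 := it_cd (zero_mem_sym B) i 1
    rw [it_one, card_sym hB] at h1
    have h2 : 2 * B.card * (i + 1) = 2 * B.card * i + 2 * B.card := by ring
    rw [h2]
    omega

lemma it_card_le [hp : Fact p.Prime] (B : Finset (ZMod p)) (i : ℕ) :
    (it (sym B) i).card ≤ p := by
  haveI : NeZero p := ⟨hp.out.ne_zero⟩
  calc _ ≤ Fintype.card (ZMod p) := card_le_univ _
    _ = p := ZMod.card p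

/-- the lower bound for `|iA|` given `|2A| ≥ M + 1`, `|A| = 2 j + 1` -/
def gr (j M i : ℕ) : ℕ := if i % 2 = 0 then (i / 2) * M + 1 else (i / 2) * M + 2 * j + 1

lemma it_card_even [hp : Fact p.Prime] {B : Finset (ZMod p)} {M : ℕ}
    (hM : M + 1 ≤ (it (sym B) 2).card) (a : ℕ) :
    min p (a * M + 1) ≤ (it (sym B) (2 * a)).card := by
  induction a with
  | zero => simp [it]
  | succ a ih =>
    have h1 := it_cd (zero_mem_sym B) (2 * a) 2
    have h2 : (a + 1) * M = a * M + M := by ring
    have h3 : 2 * (a + 1) = 2 * a + 2 := by ring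
    rw [h2, h3]
    omega

lemma it_card_gr [hp : Fact p.Prime] {B : Finset (ZMod p)} (hB : Anti B) {M : ℕ}
    (hM : M + 1 ≤ (it (sym B) 2).card) (i : ℕ) :
    min p (gr B.card M i) ≤ (it (sym B) i).card := by
  unfold gr
  split_ifs with h
  · have := it_card_even hM (i / 2)
    rwa [show 2 * (i / 2) = i by omega] at this
  · have h1 := it_card_even hM (i / 2)
    have h2 := it_cd (zero_mem_sym B) (2 * (i / 2)) 1
    rw [show 2 * (i / 2) + 1 = i by omega, it_one, card_sym hB] at h2
    omega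

/-- existence of a large iterate -/
lemma it_large [hp : Fact p.Prime] {B : Finset (ZMod p)} (hB : Anti B) (hj : 1 ≤ B.card) :
    p ≤ (it (sym B) p).card := by
  have := it_card_ge hB p
  have h1 : p ≤ 2 * B.card * p + 1 := by nlinarith
  omega

/-- Olson's inequality with a lower bound function -/
theorem olson_gr [hp : Fact p.Prime] {B S : Finset (ZMod p)} (hB : Anti B) (hj : 1 ≤ B.card)
    {L : ℕ} (hL : ∀ x ∈ B, lam S x ≤ L) (h : ℕ) (h1 : h + 1 ≤ S.card) (h2 : S.card + h ≤ p)
    (g : ℕ → ℕ) (hg : ∀ i, min p (g i) ≤ (it (sym B) i).card) :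
    ∃ J, (∀ i < J, g i ≤ 2 * h) ∧ h * (h + 1) ≤ L * ∑ i ∈ range J, (2 * h + 1 - g i) := by
  obtain ⟨J, hJ, hJ'⟩ := olson hL h h1 h2 p (by have := it_large hB hj; omega)
  have hgi : ∀ i < J, g i ≤ (it (sym B) i).card := fun i hi => by
    have := hg i; have := hJ i hi; omega
  refine ⟨J, fun i hi => (hgi i hi).trans (hJ i hi), hJ'.trans ?_⟩
  apply Nat.mul_le_mul_left
  apply sum_le_sum
  intro i hi
  have := hgi i (mem_range.mp hi)
  omega

/-- numerical version -/
theorem growth_num [hp : Fact p.Prime] {B S : Finset (ZMod p)} (hB : Anti B) (hj : 1 ≤ B.card)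
    {L M : ℕ} (hM : M + 1 ≤ (it (sym B) 2).card)
    (hL : ∀ x ∈ B, lam S x ≤ L) (h K : ℕ) (h1 : h + 1 ≤ S.card) (h2 : S.card + h ≤ p)
    (hK : 2 * h < gr B.card M K)
    (hnum : L * ∑ i ∈ range K, (2 * h + 1 - gr B.card M i) < h * (h + 1)) : False := by
  obtain ⟨J, hJ, hJ'⟩ := olson_gr hB hj hL h h1 h2 (gr B.card M) (it_card_gr hB hM)
  have hJK : J ≤ K := by
    by_contra hcon
    have := hJ K (by omega)
    omega
  have : ∑ i ∈ range J, (2 * h + 1 - gr B.card M i) ≤
      ∑ i ∈ range K, (2 * h + 1 - gr B.card M i) :=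
    sum_le_sum_of_subset (range_subset_range.mpr hJK)
  have := Nat.mul_le_mul_left L this
  omega

end Pool.Agent.MP_116850_co
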