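import Pool.Agent.MP_116850_co.Growth

set_option autoImplicit false

namespace Pool.Agent.MP_116850_co

open Finset
open scoped Pointwise

variable {p : ℕ}

lemma gr_sum (j c h J : ℕ) (hJ : ∀ i < J, gr j (4 * j + 2 * c) i ≤ 2 * h) :
    (2 * (∑ i ∈ range J, (2 * h + 1 - gr j (4 * j + 2 * c) i) : ℕ) : ℤ) ≤
      J * (4 * h + 2 * j + 2 * c) - (2 * j + c) * J ^ 2 := by
  have key : ∀ J : ℕ, (∀ i < J, gr j (4 * j + 2 * c) i ≤ 2 * h) →
      (2 * (∑ i ∈ range J, (2 * h + 1 - gr j (4 * j + 2 * c) i) : ℕ) : ℤ) =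
        4 * h * J - (2 * j + c) * J * (J - 1) + 2 * c * (J / 2 : ℕ) := by
    intro J
    induction J with
    | zero => intro _; simp
    | succ J ih =>
      intro hJ
      have h1 := ih (fun i hi => hJ i (by omega))
      have h2 := hJ J (by omega)
      rw [sum_range_succ, Nat.cast_add, mul_add, h1, Nat.cast_sub (by omega)]
      unfold gr
      rcases Nat.even_or_odd' J with ⟨k, rfl | rfl⟩
      · rw [if_pos (by omega), show 2 * k / 2 = k by omega, show (2 * k + 1) / 2 = k by omega]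
        push_cast
        ring
      · rw [if_neg (by omega), show (2 * k + 1) / 2 = k by omega,
          show (2 * k + 1 + 1) / 2 = k + 1 by omega]
        push_cast
        ring
  rw [key J hJ]
  have h3 : (2 * (J / 2 : ℕ) : ℤ) ≤ J := by
    have : 2 * (J / 2) ≤ J := Nat.mul_div_le J 2
    exact_mod_cast this
  have h4 : (c : ℤ) * (2 * (J / 2 : ℕ)) ≤ c * J := mul_le_mul_of_nonneg_left h3 (by positivity)
  nlinarith

theorem growth_gen' [hp : Fact p.Prime] {B S : Finset (ZMod p)} (hB : Anti B) (hj : 1 ≤ B.card)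
    {L : ℕ} (hL : ∀ x ∈ B, lam S x ≤ L) (h : ℕ) (h1 : h + 1 ≤ S.card) (h2 : S.card + h ≤ p)
    (c : ℕ) (hg : ∀ i, min p (gr B.card (4 * B.card + 2 * c) i) ≤ (it (sym B) i).card) :
    2 * (2 * B.card + c) * h * (h + 1) ≤ L * (2 * h + B.card + c) ^ 2 := by
  obtain ⟨J, hJ, hJ'⟩ := olson_gr hB hj hL h h1 h2 _ hg
  have h3 := gr_sum B.card c h J hJ
  set T := ∑ i ∈ range J, (2 * h + 1 - gr B.card (4 * B.card + 2 * c) i) with hT
  set j := B.card with hjdef
  zify at hJ' ⊢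
  have h5 : (4 * (2 * j + c) : ℤ) * (J * (4 * h + 2 * j + 2 * c) - (2 * j + c) * J ^ 2) ≤
      (4 * h + 2 * j + 2 * c) ^ 2 := by
    nlinarith [sq_nonneg ((4 * h + 2 * j + 2 * c : ℤ) - 2 * (2 * j + c) * J)]
  have h6 : (8 * (2 * j + c) : ℤ) * T ≤ 4 * (2 * h + j + c) ^ 2 := by
    have h7 : (4 * (2 * j + c) : ℤ) * (2 * T) ≤
      (4 * (2 * j + c) : ℤ) * (J * (4 * h + 2 * j + 2 * c) - (2 * j + c) * J ^ 2) :=
      mul_le_mul_of_nonneg_left (by exact_mod_cast h3) (by positivity)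
    nlinarith
  have h8 : (2 * (2 * j + c) : ℤ) * (h * (h + 1)) ≤ (2 * (2 * j + c) : ℤ) * (L * T) :=
    mul_le_mul_of_nonneg_left hJ' (by positivity)
  have h9 : (L : ℤ) * ((8 * (2 * j + c) : ℤ) * T) ≤ L * (4 * (2 * h + j + c) ^ 2) :=
    mul_le_mul_of_nonneg_left h6 (by positivity)
  nlinarith

theorem growth_gen [hp : Fact p.Prime] {B S : Finset (ZMod p)} (hB : Anti B) (hj : 1 ≤ B.card)
    {L : ℕ} (hL : ∀ x ∈ B, lam S x ≤ L) (h : ℕ) (h1 : h + 1 ≤ S.card) (h2 : S.card + h ≤ p)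
    (c : ℕ) (hM : 4 * B.card + 2 * c + 1 ≤ (it (sym B) 2).card) :
    2 * (2 * B.card + c) * h * (h + 1) ≤ L * (2 * h + B.card + c) ^ 2 :=
  growth_gen' hB hj hL h h1 h2 c (it_card_gr hB hM)

/-- the Cauchy-Davenport version -/
theorem growth_cd [hp : Fact p.Prime] {B S : Finset (ZMod p)} (hB : Anti B) (hj : 1 ≤ B.card)
    {L : ℕ} (hL : ∀ x ∈ B, lam S x ≤ L) (h : ℕ) (h1 : h + 1 ≤ S.card) (h2 : S.card + h ≤ p) :
    4 * B.card * h * (h + 1) ≤ L * (2 * h + B.card) ^ 2 := by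
  have := growth_gen' hB hj hL h h1 h2 0 (fun i => by
    have h3 := it_card_ge hB i
    have h4 : gr B.card (4 * B.card + 2 * 0) i = 2 * B.card * i + 1 := by
      unfold gr
      rcases Nat.even_or_odd' i with ⟨k, rfl | rfl⟩
      · rw [if_pos (by omega), show 2 * k / 2 = k by omega]; ring
      · rw [if_neg (by omega), show (2 * k + 1) / 2 = k by omega]; ring
    rw [h4]; exact h3)
  simp only [add_zero] at this
  calc _ = 2 * (2 * B.card) * h * (h + 1) := by ring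
    _ ≤ _ := this

lemma lam_le_of_step {B : Finset (ZMod p)} {L : ℕ}
    (hL : ∀ x ∈ B, B.subsetSum.card ≤ (B.erase x).subsetSum.card + L) :
    ∀ x ∈ B, lam B.subsetSum x ≤ L := by
  intro x hx
  have h1 := lam_subsetSum B x hx
  have h2 := hL x hx
  have h3 : (B.erase x).subsetSum.card ≤ B.subsetSum.card := by
    apply card_le_card
    exact subsetSum_mono (erase_subset x B)
  omega

/-- case (ii) -/
theorem small_doubling_ii [hp : Fact p.Prime] (h2p : p ≠ 2) {B : Finset (ZMod p)} (hB : Anti B)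
    (hj : 2 ≤ B.card)
    (hL : ∀ x ∈ B, lam B.subsetSum x ≤ B.card - 1)
    (hσ : B.card * (B.card + 1) ≤ 2 * B.subsetSum.card)
    (hp2 : 2 * B.subsetSum.card ≤ p) : (it (sym B) 2).card ≤ 4 * B.card + 3 := by
  by_contra hcon
  have hodd := it_card_odd h2p B 2
  obtain ⟨j, hjj⟩ : ∃ j, B.card = j + 2 := ⟨B.card - 2, by omega⟩
  obtain ⟨h, hh⟩ : ∃ h, 2 * h = (j + 4) * (j + 1) := by
    obtain ⟨k, hk⟩ := Nat.even_mul_succ_self (j + 2)
    refine ⟨k - 1, ?_⟩
    have : k ≥ 1 := by nlinarith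
    zify [this]
    zify at hk
    linarith
  have h3 : h + 1 ≤ B.subsetSum.card := by nlinarith
  have := growth_gen hB (by omega) hL h h3 (by omega) 2 (by omega)
  rw [hjj] at this
  have e1 : j + 2 - 1 = j + 1 := by omega
  rw [e1] at this
  have e2 : 2 * h + (j + 2) + 2 = (j + 4) * (j + 2) := by
    rw [hh]; ring
  rw [e2] at this
  have e3 : 2 * (2 * (j + 2) + 2) * h * (h + 1) = (j + 3) * (2 * h) * (2 * h + 2) := by ring
  rw [e3, hh] at this
  nlinarith [sq_nonneg j, mul_nonneg (Nat.zero_le j) (Nat.zero_le j)]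

end Pool.Agent.MP_116850_co
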