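import Pool.Agent.MP_116850_co.Growth2

set_option autoImplicit false

namespace Pool.Agent.MP_116850_co

open Finset
open scoped Pointwise

variable {p : ℕ}

/-- Cauchy-Davenport growth excludes small steps -/
theorem cd_small [hp : Fact p.Prime] {B : Finset (ZMod p)} (hB : Anti B)
    {L : ℕ} (hL : ∀ x ∈ B, B.subsetSum.card ≤ (B.erase x).subsetSum.card + L)
    (hLj : L + 2 ≤ B.card) (hσ : B.card * (B.card - 1) + 2 + 2 * L ≤ 2 * B.subsetSum.card)
    (hp2 : 2 * B.subsetSum.card ≤ p) : False := by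
  obtain ⟨j, hjj⟩ : ∃ j, B.card = j + L + 2 := ⟨B.card - L - 2, by omega⟩
  have e0 : B.card - 1 = j + L + 1 := by omega
  rw [e0, hjj] at hσ
  obtain ⟨h, hh⟩ : ∃ h, 2 * h = (j + L + 2) * (j + L + 1) + 2 * L := by
    obtain ⟨k, hk⟩ := Nat.even_mul_succ_self (j + L + 1)
    refine ⟨k + L, ?_⟩
    linarith
  have h3 : h + 1 ≤ B.subsetSum.card := by omega
  have := growth_cd hB (by omega) (lam_le_of_step hL) h h3 (by omega)
  rw [hjj] at this
  have e3 : 4 * (j + L + 2) * h * (h + 1) = (j + L + 2) * (2 * h) * (2 * h + 2) := by ring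
  have e2 : 2 * h + (j + L + 2) = (j + L + 2) ^ 2 + 2 * L := by rw [hh]; ring
  rw [e3, e2, hh] at this
  have h4 : (j + L + 2) * ((j + L + 2) * (j + L + 1) + 2 * L) *
      ((j + L + 2) * (j + L + 1) + 2 * L + 2) =
      L * ((j + L + 2) ^ 2 + 2 * L) ^ 2 + (j * ((j + L + 2) ^ 2 + 2 * L) ^ 2 +
      2 * ((j + L + 2) ^ 2 + 2 * L) * (j + 3 * L + 2) + (j + L + 2) ^ 2 * (j + L)) := by
    ring
  rw [h4] at this
  have h5 : 0 < 2 * ((j + L + 2) ^ 2 + 2 * L) * (j + 3 * L + 2) := by positivity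
  omega

/-- a step of size at least `k - 1` in a set which may have more than `p / 2` subset sums -/
theorem cd_step [hp : Fact p.Prime] {B : Finset (ZMod p)} (hB : Anti B) (hk : 2 ≤ B.card)
    (hσ : B.card * (B.card - 1) + 4 ≤ 2 * B.subsetSum.card)
    (hp2 : 2 * B.subsetSum.card + B.card * (B.card - 1) + 2 ≤ 2 * p) :
    ∃ x ∈ B, (B.erase x).subsetSum.card + (B.card - 1) ≤ B.subsetSum.card := by
  by_contra hcon
  push Not at hcon
  obtain ⟨j, hjj⟩ : ∃ j, B.card = j + 2 := ⟨B.card - 2, by omega⟩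
  have e0 : B.card - 1 = j + 1 := by omega
  rw [e0] at hcon hσ hp2
  rw [hjj] at hσ hp2
  have hL : ∀ x ∈ B, B.subsetSum.card ≤ (B.erase x).subsetSum.card + j := fun x hx => by
    have := hcon x hx; omega
  obtain ⟨h, hh⟩ : ∃ h, 2 * h = (j + 2) * (j + 1) + 2 := by
    obtain ⟨k, hk⟩ := Nat.even_mul_succ_self (j + 1)
    refine ⟨k + 1, ?_⟩
    linarith
  have h3 : h + 1 ≤ B.subsetSum.card := by omega
  have := growth_cd hB (by omega) (lam_le_of_step hL) h h3 (by omega)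
  rw [hjj] at this
  have e3 : 4 * (j + 2) * h * (h + 1) = (j + 2) * (2 * h) * (2 * h + 2) := by ring
  have e2 : 2 * h + (j + 2) = (j + 2) ^ 2 + 2 := by rw [hh]; ring
  rw [e3, e2, hh] at this
  have h4 : (j + 2) * ((j + 2) * (j + 1) + 2) * ((j + 2) * (j + 1) + 2 + 2) =
      j * ((j + 2) ^ 2 + 2) ^ 2 + (3 * (j + 2) ^ 3 + 2 * (j + 2) ^ 2 + 4 * (j + 2) + 8) := by
    ring
  rw [h4] at this
  omega

/-- case (i), large `j` -/
theorem small_doubling_i [hp : Fact p.Prime] (h2p : p ≠ 2) {B : Finset (ZMod p)} (hB : Anti B)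
    (hj : 14 ≤ B.card)
    (hL : ∀ x ∈ B, lam B.subsetSum x ≤ B.card)
    (hσ : 2 * B.subsetSum.card + 6 = B.card ^ 2 + 3 * B.card)
    (hp2 : 2 * B.subsetSum.card ≤ p) : (it (sym B) 2).card ≤ 4 * B.card + 9 := by
  by_contra hcon
  have hodd := it_card_odd h2p B 2
  obtain ⟨j, hjj⟩ : ∃ j, B.card = j + 14 := ⟨B.card - 14, by omega⟩
  obtain ⟨h, hh⟩ : ∃ h, 2 * h = (j + 14) * (j + 15) := by
    obtain ⟨k, hk⟩ := Nat.even_mul_succ_self (j + 14)
    exact ⟨k, by linarith⟩
  rw [hjj] at hσ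
  have h3 : h + 1 ≤ B.subsetSum.card := by nlinarith
  have := growth_gen hB (by omega) hL h h3 (by omega) 5 (by omega)
  rw [hjj] at this
  have e2 : 2 * h + (j + 14) + 5 = (j + 14) * (j + 15) + (j + 14) + 5 := by rw [hh]
  rw [e2] at this
  have e3 : 2 * (2 * (2 * (j + 14) + 5) * h * (h + 1)) =
    (2 * (j + 14) + 5) * (2 * h) * (2 * h + 2) := by ring
  have e4 : (2 * (j + 14) + 5) * ((j + 14) * (j + 15)) * ((j + 14) * (j + 15) + 2) =
      2 * ((j + 14) * ((j + 14) * (j + 15) + (j + 14) + 5) ^ 2) +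
      (j + 14) * (j ^ 3 + 30 * j ^ 2 + 231 * j + 58) := by ring
  rw [hh, e4] at e3
  nlinarith [mul_pos (show 0 < j + 14 by omega)
    (show 0 < j ^ 3 + 30 * j ^ 2 + 231 * j + 58 by positivity)]

/-- case (i), `8 ≤ j ≤ 13` -/
theorem small_doubling_i' [hp : Fact p.Prime] (h2p : p ≠ 2) {B : Finset (ZMod p)} (hB : Anti B)
    (hj : 8 ≤ B.card)
    (hL : ∀ x ∈ B, lam B.subsetSum x ≤ B.card)
    (hσ : 2 * B.subsetSum.card + 6 = B.card ^ 2 + 3 * B.card)
    (hp2 : 2 * B.subsetSum.card ≤ p) : (it (sym B) 2).card ≤ 4 * B.card + 9 := by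
  by_cases h14 : 14 ≤ B.card
  · exact small_doubling_i h2p hB h14 hL hσ hp2
  by_contra hcon
  have hodd := it_card_odd h2p B 2
  have hM : (4 * B.card + 10) + 1 ≤ (it (sym B) 2).card := by omega
  obtain ⟨j, hjj⟩ : ∃ j, B.card = j := ⟨_, rfl⟩
  have hj13 : j ≤ 13 := by omega
  have hj8 : 8 ≤ j := by omega
  rw [hjj] at hσ hM hL
  have main : ∀ h K : ℕ, h + 1 = B.subsetSum.card → 2 * h < gr j (4 * j + 10) K →
      j * ∑ i ∈ range K, (2 * h + 1 - gr j (4 * j + 10) i) < h * (h + 1) → False := by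
    intro h K h1 h2 h3
    exact growth_num hB (by omega) hM hL h K (by omega) (by omega) (by rw [hjj]; exact h2)
      (by rw [hjj]; exact h3)
  interval_cases j
  · exact main 40 4 (by omega) (by decide) (by decide)
  · exact main 50 5 (by omega) (by decide) (by decide)
  · exact main 61 6 (by omega) (by decide) (by decide)
  · exact main 73 6 (by omega) (by decide) (by decide)
  · exact main 86 6 (by omega) (by decide) (by decide)
  · exact main 100 7 (by omega) (by decide) (by decide)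

/-- case (i), `j = 6, 7` -/
theorem small_doubling_i67 [hp : Fact p.Prime] (h2p : p ≠ 2) {B : Finset (ZMod p)} (hB : Anti B)
    (hj : B.card = 6 ∨ B.card = 7)
    (hL : ∀ x ∈ B, lam B.subsetSum x ≤ B.card)
    (hσ : 2 * B.subsetSum.card + 6 = B.card ^ 2 + 3 * B.card)
    (hp2 : 2 * B.subsetSum.card ≤ p) : (it (sym B) 2).card ≤ 4 * B.card + 11 := by
  by_contra hcon
  have hodd := it_card_odd h2p B 2
  have hM : (4 * B.card + 12) + 1 ≤ (it (sym B) 2).card := by omega
  obtain ⟨j, hjj⟩ : ∃ j, B.card = j := ⟨_, rfl⟩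
  rw [hjj] at hσ hM hL hj
  have main : ∀ h K : ℕ, h + 1 = B.subsetSum.card → 2 * h < gr j (4 * j + 12) K →
      j * ∑ i ∈ range K, (2 * h + 1 - gr j (4 * j + 12) i) < h * (h + 1) → False := by
    intro h K h1 h2 h3
    exact growth_num hB (by omega) hM hL h K (by omega) (by omega) (by rw [hjj]; exact h2)
      (by rw [hjj]; exact h3)
  rcases hj with rfl | rfl
  · exact main 23 3 (by omega) (by decide) (by decide)
  · exact main 31 4 (by omega) (by decide) (by decide)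

/-- special case `p = 157` -/
theorem small_doubling_157 [hp : Fact p.Prime] (h2p : p ≠ 2) {B S : Finset (ZMod p)}
    (hB : Anti B) (hj : B.card = 12) (hL : ∀ x ∈ B, lam S x ≤ 11)
    (hσ : 74 ≤ S.card) (hp2 : S.card + 73 ≤ p) : (it (sym B) 2).card ≤ 53 := by
  by_contra hcon
  have hodd := it_card_odd h2p B 2
  have hM : (4 * 12 + 6) + 1 ≤ (it (sym B) 2).card := by omega
  exact growth_num hB (by omega) hM hL 73 6 (by omega) (by omega) (by rw [hj]; decide)
    (by rw [hj]; decide)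

/-- special case `p = 73` -/
theorem small_doubling_73 [hp : Fact p.Prime] (h2p : p ≠ 2) {B S : Finset (ZMod p)}
    (hB : Anti B) (hj : B.card = 8) (hL : ∀ x ∈ B, lam S x ≤ 7)
    (hσ : 34 ≤ S.card) (hp2 : S.card + 33 ≤ p) : (it (sym B) 2).card ≤ 35 := by
  by_contra hcon
  have hodd := it_card_odd h2p B 2
  have hM : (4 * 8 + 4) + 1 ≤ (it (sym B) 2).card := by omega
  exact growth_num hB (by omega) hM hL 33 4 (by omega) (by omega) (by rw [hj]; decide)
    (by rw [hj]; decide)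

end Pool.Agent.MP_116850_co
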