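import Pool.Agent.MP_116850_co.Assembly

set_option autoImplicit false

namespace Pool.Agent.MP_116850_co

open Finset
open scoped Pointwise

variable {p : ℕ}

/-- splitting a non-spanning set of `n + 1` elements -/
theorem split_of_card [hp : Fact p.Prime] (h2p : p ≠ 2) {A : Finset (ZMod p)} (n : ℕ)
    (hc : n + 1 ≤ A.card) : ∃ N X : Finset (ZMod p), N ⊆ A ∧ X ⊆ A ∧ Disjoint N X ∧
      Anti N ∧ Anti X ∧ N.card = n - n / 2 ∧ X.card = n / 2 := by
  have h1 : n ≤ (A.erase 0).card := by
    have := pred_card_le_card_erase (a := (0 : ZMod p)) (s := A)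
    omega
  obtain ⟨D, hD, hDc⟩ := exists_subset_card_eq h1
  obtain ⟨N, X, hN, hX, hd, aN, aX, cN, cX⟩ := split_anti h2p n D hDc
    (fun h => by have := hD h; simp at this)
  have hsub : D ⊆ A := hD.trans (erase_subset _ _)
  exact ⟨N, X, hN.trans hsub, hX.trans hsub, hd, aN, aX, cN, cX⟩

theorem case_even [hp : Fact p.Prime] (h2p : p ≠ 2) (k s J : ℕ) (hpk : p = k * k + k + 2 + s)
    (hs : s ≤ k) (hk : 3 ≤ k) (hJ3 : 3 ≤ J) (hJ : s + 6 < 2 * min k J)
    (hR2 : ∀ j, 2 ≤ j → j ≤ k → R2 p j) (hR1 : ∀ j, 4 ≤ j → j ≤ k → j ≤ J → R1 p j)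
    {A : Finset (ZMod p)} (hc : 2 * k + 1 ≤ A.card) (hA : ∃ c, c ∉ A.subsetSum) :
    ∃ u : ZMod p, u ≠ 0 ∧ tot u A + 2 ≤ p := by
  obtain ⟨N, X, hN, hX, hd, aN, aX, cN, cX⟩ := split_of_card h2p (2 * k) hc
  exact asm_even h2p k s J hpk hs hk hJ3 hJ hR2 hR1 hA hN hX hd aN aX (by omega) (by omega)

theorem case_drop [hp : Fact p.Prime] (h2p : p ≠ 2) (i s J : ℕ)
    (hpk : p = (i + 1) * (i + 1) + (i + 1) + 2 + s)
    (hi : 4 ≤ i) (hJ3 : 4 ≤ J) (hJ : s + 8 < 2 * min i J)
    (hnum : 5 * (i + 1) + 2 * s < (i + 1) * (i + 1) + 2)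
    (hR2 : ∀ j, 2 ≤ j → j ≤ i → R2 p j) (hR1 : ∀ j, 4 ≤ j → j ≤ i → j ≤ J → R1 p j)
    {A : Finset (ZMod p)} (hc : 2 * i + 3 ≤ A.card) (hA : ∃ c, c ∉ A.subsetSum) :
    ∃ u : ZMod p, u ≠ 0 ∧ tot u A + 2 ≤ p := by
  obtain ⟨N, X, hN, hX, hd, aN, aX, cN, cX⟩ := split_of_card h2p (2 * i + 2) hc
  exact asm_even_drop h2p i s J hpk hi hJ3 hJ hnum hR2 hR1 hA hN hX hd aN aX (by omega)
    (by omega)

theorem case_odd' [hp : Fact p.Prime] (h2p : p ≠ 2) (i s μ : ℕ)
    (hpk : p = (i + 2) * (i + 2) + 2 + s) (hi : 5 ≤ i) (hs : s ≤ i + 2) (hμ : 4 ≤ μ)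
    (hsμ : s + 8 ≤ 2 * μ)
    (hR2 : ∀ j, 2 ≤ j → j ≤ i + 1 → R2 p j)
    (hP2 : ∀ B : Finset (ZMod p), Anti B → B.card = i + 1 → 2 * B.subsetSum.card ≤ p →
      ¬ Std B → (i + 1) * (i + 2) + 2 + 2 * μ ≤ 2 * B.subsetSum.card + 6)
    {A : Finset (ZMod p)} (hc : 2 * i + 4 ≤ A.card) (hA : ∃ c, c ∉ A.subsetSum) :
    ∃ u : ZMod p, u ≠ 0 ∧ tot u A + 2 ≤ p := by
  obtain ⟨N, X, hN, hX, hd, aN, aX, cN, cX⟩ := split_of_card h2p (2 * i + 3) hc
  have cN' : N.card = i + 2 := by omega
  have cX' : X.card = i + 1 := by omega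
  exact odd_finish h2p i s hpk hi hs (p1_all h2p (i + 1) hR2) hA hN hX hd aN aX cN' cX'
    (odd_std i s μ hpk hi hμ hsμ hP2 hA hN hX hd aN aX cN' cX')

theorem case_odd [hp : Fact p.Prime] (h2p : p ≠ 2) (i s J : ℕ)
    (hpk : p = (i + 2) * (i + 2) + 2 + s) (hi : 5 ≤ i) (hs : s ≤ i + 2) (hJ4 : 4 ≤ J)
    (hsμ : s + 8 ≤ 2 * min (i + 1) J)
    (hR2 : ∀ j, 2 ≤ j → j ≤ i + 1 → R2 p j)
    (hR1 : ∀ j, 4 ≤ j → j ≤ i + 1 → j ≤ J → R1 p j)
    {A : Finset (ZMod p)} (hc : 2 * i + 4 ≤ A.card) (hA : ∃ c, c ∉ A.subsetSum) :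
    ∃ u : ZMod p, u ≠ 0 ∧ tot u A + 2 ≤ p := by
  refine case_odd' h2p i s (min (i + 1) J) hpk hi hs (by omega) hsμ hR2 ?_ hc hA
  exact fun B aB cB h2 hns => p2_all h2p J (i + 1) (by omega) hR2 hR1 (i + 1) le_rfl B aB cB h2 hns

/-- the level seven structure for `p = 71, 73` -/
theorem p2_seven [hp : Fact p.Prime] (h : p = 71 ∨ p = 73) (B : Finset (ZMod p)) (aB : Anti B)
    (cB : B.card = 7) (h2 : 2 * B.subsetSum.card ≤ p) (hns : ¬ Std B) :
    33 ≤ B.subsetSum.card := by
  have h2p : p ≠ 2 := by omega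
  by_contra hcon
  apply hns
  refine std_seven h ?_ B aB cB (by omega)
  intro C aC h4 h7 hs
  have hR2 : ∀ j, 2 ≤ j → j ≤ 7 → R2 p j := by
    intro j h1 h2
    unfold R2
    omega
  have hC2 : 2 * C.subsetSum.card ≤ p := by
    have : C.card = 4 ∨ C.card = 5 ∨ C.card = 6 ∨ C.card = 7 := by omega
    rcases this with h | h | h | h <;> rw [h] at hs <;> norm_num at hs <;> omega
  have hP := p1_all h2p 7 hR2 C.card h7 C aC rfl hC2
  exact step_ii h2p aC (by omega) (hR2 _ (by omega) h7) (by omega) hC2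

theorem special71 [hp : Fact (Nat.Prime 71)] {A : Finset (ZMod 71)} (hc : 16 ≤ A.card)
    (hA : ∃ c, c ∉ A.subsetSum) : ∃ u : ZMod 71, u ≠ 0 ∧ tot u A + 2 ≤ 71 := by
  refine case_odd' (by norm_num) 6 5 7 (by norm_num) (by norm_num) (by norm_num) (by norm_num)
    (by norm_num) ?_ ?_ hc hA
  · intro j h1 h2
    unfold R2
    omega
  · intro B aB cB h2 hns
    have := p2_seven (Or.inl rfl) B aB cB h2 hns
    omega

theorem special73 [hp : Fact (Nat.Prime 73)] {A : Finset (ZMod 73)} (hc : 16 ≤ A.card)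
    (hA : ∃ c, c ∉ A.subsetSum) : ∃ u : ZMod 73, u ≠ 0 ∧ tot u A + 2 ≤ 73 := by
  have h2p : 73 ≠ 2 := by norm_num
  have hR2 : ∀ j, 2 ≤ j → j ≤ 7 → R2 73 j := by
    intro j h1 h2
    unfold R2
    omega
  obtain ⟨N, X, hN, hX, hd, aN, aX, cN, cX⟩ := split_of_card h2p 15 hc
  norm_num at cN cX
  refine odd_finish h2p 6 7 (by norm_num) (by norm_num) (by norm_num) (p1_all h2p 7 hR2)
    hA hN hX hd aN aX cN cX ?_
  by_contra hcon
  push Not at hcon
  obtain ⟨hnX, hnN⟩ := hcon
  have h1 := cd_pair hA hN hX hd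
  have hX33 : 33 ≤ X.subsetSum.card := by
    by_contra hlt
    have := p2_seven (Or.inr rfl) X aX cX (by omega) hnX
    omega
  have hpar : ∀ x ∈ N, 33 ≤ (N.erase x).subsetSum.card := by
    intro x hx
    by_contra hlt
    have := p2_seven (Or.inr rfl) (N.erase x) (aN.erase x) (by rw [card_erase_of_mem hx, cN])
      (by omega) (hnN x hx)
    omega
  have hne : N.Nonempty := card_pos.mp (by omega)
  obtain ⟨x0, hx0⟩ := hne
  have h3' : (N.erase x0).subsetSum.card ≤ N.subsetSum.card :=
    card_le_card (subsetSum_mono (erase_subset x0 N))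
  have h3 := hpar x0 hx0
  obtain ⟨x, hx, hxs⟩ := cd_step aN (by omega) (by rw [cN]; omega) (by rw [cN]; omega)
  have h4 := hpar x hx
  rw [cN] at hxs
  have hσ : N.subsetSum.card = 40 := by omega
  have hL0 : ∀ x ∈ N, N.subsetSum.card ≤ (N.erase x).subsetSum.card + 7 := fun x hx => by
    have := hpar x hx; omega
  have hL := lam_le_of_step hL0
  have hsum := small_doubling_73 h2p aN cN hL (by omega) (by omega)
  obtain ⟨u, hu, ht⟩ := conc h2p aN 7 2 (by omega) hL (by omega) (by
    intro o ho
    rw [hσ, cN] at ho ⊢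
    norm_num at ho ⊢
    have ho3 : o ≤ 3 := by omega
    interval_cases o
    · left; refine ⟨by omega, by omega, by omega⟩
    · left; refine ⟨by omega, by omega, by omega⟩
    · left; refine ⟨by omega, by omega, by omega⟩
    · right; refine ⟨8, 5, by omega, ?_⟩; norm_num)
  obtain ⟨y, hy, h⟩ := exists_large_step u hu N aN ⟨x0, hx0⟩ ht
  have := hpar y hy
  omega

theorem special157 [hp : Fact (Nat.Prime 157)] {A : Finset (ZMod 157)} (hc : 24 ≤ A.card)
    (hA : ∃ c, c ∉ A.subsetSum) : ∃ u : ZMod 157, u ≠ 0 ∧ tot u A + 2 ≤ 157 := by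
  have h2p : 157 ≠ 2 := by norm_num
  have hR2 : ∀ j, 2 ≤ j → j ≤ 11 → R2 157 j := by
    intro j h1 h2
    unfold R2
    omega
  have hR1 : ∀ j, 4 ≤ j → j ≤ 11 → j ≤ 9 → R1 157 j := by
    intro j h1 h2 h3
    unfold R1
    omega
  obtain ⟨N, X, hN, hX, hd, aN, aX, cN, cX⟩ := split_of_card h2p 23 hc
  norm_num at cN cX
  refine odd_finish h2p 10 11 (by norm_num) (by norm_num) (by norm_num) (p1_all h2p 11 hR2)
    hA hN hX hd aN aX cN cX ?_
  by_contra hcon
  push Not at hcon
  obtain ⟨hnX, hnN⟩ := hcon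
  have h1 := cd_pair hA hN hX hd
  have hP2 := p2_all h2p 9 11 (by norm_num) hR2 hR1 11 le_rfl
  have hX33 : 73 ≤ X.subsetSum.card := by
    by_contra hlt
    have := hP2 X aX cX (by omega) hnX
    omega
  have hpar : ∀ x ∈ N, 73 ≤ (N.erase x).subsetSum.card := by
    intro x hx
    by_contra hlt
    have := hP2 (N.erase x) (aN.erase x) (by rw [card_erase_of_mem hx, cN])
      (by omega) (hnN x hx)
    omega
  have hne : N.Nonempty := card_pos.mp (by omega)
  obtain ⟨x0, hx0⟩ := hne
  have h3' : (N.erase x0).subsetSum.card ≤ N.subsetSum.card :=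
    card_le_card (subsetSum_mono (erase_subset x0 N))
  have h3 := hpar x0 hx0
  obtain ⟨x, hx, hxs⟩ := cd_step aN (by omega) (by rw [cN]; omega) (by rw [cN]; omega)
  have h4 := hpar x hx
  rw [cN] at hxs
  have hσ : N.subsetSum.card = 84 := by omega
  have hL0 : ∀ x ∈ N, N.subsetSum.card ≤ (N.erase x).subsetSum.card + 11 := fun x hx => by
    have := hpar x hx; omega
  have hL := lam_le_of_step hL0
  have hsum := small_doubling_157 h2p aN cN hL (by omega) (by omega)
  obtain ⟨u, hu, ht⟩ := conc h2p aN 11 4 (by omega) hL (by omega) (by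
    intro o ho
    rw [hσ, cN] at ho ⊢
    norm_num at ho ⊢
    have ho3 : o ≤ 3 := by omega
    left
    refine ⟨by omega, by omega, by omega⟩)
  obtain ⟨y, hy, h⟩ := exists_large_step u hu N aN ⟨x0, hx0⟩ ht
  have := hpar y hy
  omega

theorem primes_list (p : ℕ) (hp : p.Prime) (h1 : 47 ≤ p) (h2 : p < 229) :
    p = 47 ∨ p = 53 ∨ p = 59 ∨ p = 61 ∨ p = 67 ∨ p = 71 ∨ p = 73 ∨ p = 79 ∨ p = 83 ∨
      p = 89 ∨ p = 97 ∨ p = 101 ∨ p = 103 ∨ p = 107 ∨ p = 109 ∨ p = 113 ∨ p = 127 ∨ p
      = 131 ∨ p = 137 ∨ p = 139 ∨ p = 149 ∨ p = 151 ∨ p = 157 ∨ p = 163 ∨ p = 167 ∨ p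
      = 173 ∨ p = 179 ∨ p = 181 ∨ p = 191 ∨ p = 193 ∨ p = 197 ∨ p = 199 ∨ p = 211 ∨ p
      = 223 ∨ p = 227 := by
  interval_cases p <;> first | omega | (exfalso; revert hp; norm_num)

theorem sq_card_unique (a m x : ℕ) (h1 : a ^ 2 ≤ x) (h2 : x < (a + 1) ^ 2) (h3 : m ^ 2 ≤ x)
    (h4 : x < (m + 1) ^ 2) : a = m := by
  have h5 : a < m + 1 := lt_of_pow_lt_pow_left₀ 2 (by omega) (lt_of_le_of_lt h1 h4)
  have h6 : m < a + 1 := lt_of_pow_lt_pow_left₀ 2 (by omega) (lt_of_le_of_lt h3 h2)
  omega

theorem main_mid (p : ℕ) [hp : Fact p.Prime] (h1 : 47 ≤ p) (h2 : p < 229)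
    {A : Finset (ZMod p)} (ha : A.card ^ 2 ≤ 4 * (p - 2)) (hb : 4 * (p - 2) < (A.card + 1) ^ 2)
    (hA : ∃ c, c ∉ A.subsetSum) : ∃ u : ZMod p, u ≠ 0 ∧ tot u A + 2 ≤ p := by
  rcases primes_list p hp.out h1 h2 with rfl | rfl | rfl | rfl | rfl | rfl | rfl |
      rfl | rfl | rfl | rfl | rfl | rfl | rfl |
      rfl | rfl | rfl | rfl | rfl | rfl | rfl |
      rfl | rfl | rfl | rfl | rfl | rfl | rfl |
      rfl | rfl | rfl | rfl | rfl | rfl | rfl
  · have hc : A.card = 13 := sq_card_unique _ _ _ ha hb (by norm_num) (by norm_num)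
    exact case_even (by norm_num) 6 3 5 (by norm_num) (by norm_num) (by norm_num)
      (by norm_num) (by norm_num) (by intro j h1 h2; unfold R2; omega)
      (by intro j h1 h2 h3; unfold R1; omega) (by omega) hA
  · have hc : A.card = 14 := sq_card_unique _ _ _ ha hb (by norm_num) (by norm_num)
    exact case_odd (by norm_num) 5 2 6 (by norm_num) (by norm_num) (by norm_num)
      (by norm_num) (by norm_num) (by intro j h1 h2; unfold R2; omega)
      (by intro j h1 h2 h3; unfold R1; omega) (by omega) hA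
  · have hc : A.card = 15 := sq_card_unique _ _ _ ha hb (by norm_num) (by norm_num)
    exact case_drop (by norm_num) 6 1 6 (by norm_num) (by norm_num) (by norm_num)
      (by norm_num) (by norm_num) (by intro j h1 h2; unfold R2; omega)
      (by intro j h1 h2 h3; unfold R1; omega) (by omega) hA
  · have hc : A.card = 15 := sq_card_unique _ _ _ ha hb (by norm_num) (by norm_num)
    exact case_drop (by norm_num) 6 3 6 (by norm_num) (by norm_num) (by norm_num)
      (by norm_num) (by norm_num) (by intro j h1 h2; unfold R2; omega)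
      (by intro j h1 h2 h3; unfold R1; omega) (by omega) hA
  · have hc : A.card = 16 := sq_card_unique _ _ _ ha hb (by norm_num) (by norm_num)
    exact case_odd (by norm_num) 6 1 6 (by norm_num) (by norm_num) (by norm_num)
      (by norm_num) (by norm_num) (by intro j h1 h2; unfold R2; omega)
      (by intro j h1 h2 h3; unfold R1; omega) (by omega) hA
  · have hc : A.card = 16 := sq_card_unique _ _ _ ha hb (by norm_num) (by norm_num)
    exact special71 (by omega) hA
  · have hc : A.card = 16 := sq_card_unique _ _ _ ha hb (by norm_num) (by norm_num)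
    exact special73 (by omega) hA
  · have hc : A.card = 17 := sq_card_unique _ _ _ ha hb (by norm_num) (by norm_num)
    exact case_even (by norm_num) 8 5 6 (by norm_num) (by norm_num) (by norm_num)
      (by norm_num) (by norm_num) (by intro j h1 h2; unfold R2; omega)
      (by intro j h1 h2 h3; unfold R1; omega) (by omega) hA
  · have hc : A.card = 18 := sq_card_unique _ _ _ ha hb (by norm_num) (by norm_num)
    exact case_odd (by norm_num) 7 0 7 (by norm_num) (by norm_num) (by norm_num)
      (by norm_num) (by norm_num) (by intro j h1 h2; unfold R2; omega)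
      (by intro j h1 h2 h3; unfold R1; omega) (by omega) hA
  · have hc : A.card = 18 := sq_card_unique _ _ _ ha hb (by norm_num) (by norm_num)
    exact case_odd (by norm_num) 7 6 7 (by norm_num) (by norm_num) (by norm_num)
      (by norm_num) (by norm_num) (by intro j h1 h2; unfold R2; omega)
      (by intro j h1 h2 h3; unfold R1; omega) (by omega) hA
  · have hc : A.card = 19 := sq_card_unique _ _ _ ha hb (by norm_num) (by norm_num)
    exact case_even (by norm_num) 9 5 7 (by norm_num) (by norm_num) (by norm_num)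
      (by norm_num) (by norm_num) (by intro j h1 h2; unfold R2; omega)
      (by intro j h1 h2 h3; unfold R1; omega) (by omega) hA
  · have hc : A.card = 19 := sq_card_unique _ _ _ ha hb (by norm_num) (by norm_num)
    exact case_even (by norm_num) 9 9 8 (by norm_num) (by norm_num) (by norm_num)
      (by norm_num) (by norm_num) (by intro j h1 h2; unfold R2; omega)
      (by intro j h1 h2 h3; unfold R1; omega) (by omega) hA
  · have hc : A.card = 20 := sq_card_unique _ _ _ ha hb (by norm_num) (by norm_num)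
    exact case_odd (by norm_num) 8 1 8 (by norm_num) (by norm_num) (by norm_num)
      (by norm_num) (by norm_num) (by intro j h1 h2; unfold R2; omega)
      (by intro j h1 h2 h3; unfold R1; omega) (by omega) hA
  · have hc : A.card = 20 := sq_card_unique _ _ _ ha hb (by norm_num) (by norm_num)
    exact case_odd (by norm_num) 8 5 8 (by norm_num) (by norm_num) (by norm_num)
      (by norm_num) (by norm_num) (by intro j h1 h2; unfold R2; omega)
      (by intro j h1 h2 h3; unfold R1; omega) (by omega) hA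
  · have hc : A.card = 20 := sq_card_unique _ _ _ ha hb (by norm_num) (by norm_num)
    exact case_odd (by norm_num) 8 7 8 (by norm_num) (by norm_num) (by norm_num)
      (by norm_num) (by norm_num) (by intro j h1 h2; unfold R2; omega)
      (by intro j h1 h2 h3; unfold R1; omega) (by omega) hA
  · have hc : A.card = 21 := sq_card_unique _ _ _ ha hb (by norm_num) (by norm_num)
    exact case_drop (by norm_num) 9 1 8 (by norm_num) (by norm_num) (by norm_num)
      (by norm_num) (by norm_num) (by intro j h1 h2; unfold R2; omega)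
      (by intro j h1 h2 h3; unfold R1; omega) (by omega) hA
  · have hc : A.card = 22 := sq_card_unique _ _ _ ha hb (by norm_num) (by norm_num)
    exact case_odd (by norm_num) 9 4 8 (by norm_num) (by norm_num) (by norm_num)
      (by norm_num) (by norm_num) (by intro j h1 h2; unfold R2; omega)
      (by intro j h1 h2 h3; unfold R1; omega) (by omega) hA
  · have hc : A.card = 22 := sq_card_unique _ _ _ ha hb (by norm_num) (by norm_num)
    exact case_odd (by norm_num) 9 8 8 (by norm_num) (by norm_num) (by norm_num)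
      (by norm_num) (by norm_num) (by intro j h1 h2; unfold R2; omega)
      (by intro j h1 h2 h3; unfold R1; omega) (by omega) hA
  · have hc : A.card = 23 := sq_card_unique _ _ _ ha hb (by norm_num) (by norm_num)
    exact case_even (by norm_num) 11 3 9 (by norm_num) (by norm_num) (by norm_num)
      (by norm_num) (by norm_num) (by intro j h1 h2; unfold R2; omega)
      (by intro j h1 h2 h3; unfold R1; omega) (by omega) hA
  · have hc : A.card = 23 := sq_card_unique _ _ _ ha hb (by norm_num) (by norm_num)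
    exact case_even (by norm_num) 11 5 9 (by norm_num) (by norm_num) (by norm_num)
      (by norm_num) (by norm_num) (by intro j h1 h2; unfold R2; omega)
      (by intro j h1 h2 h3; unfold R1; omega) (by omega) hA
  · have hc : A.card = 24 := sq_card_unique _ _ _ ha hb (by norm_num) (by norm_num)
    exact case_odd (by norm_num) 10 3 9 (by norm_num) (by norm_num) (by norm_num)
      (by norm_num) (by norm_num) (by intro j h1 h2; unfold R2; omega)
      (by intro j h1 h2 h3; unfold R1; omega) (by omega) hA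
  · have hc : A.card = 24 := sq_card_unique _ _ _ ha hb (by norm_num) (by norm_num)
    exact case_odd (by norm_num) 10 5 9 (by norm_num) (by norm_num) (by norm_num)
      (by norm_num) (by norm_num) (by intro j h1 h2; unfold R2; omega)
      (by intro j h1 h2 h3; unfold R1; omega) (by omega) hA
  · have hc : A.card = 24 := sq_card_unique _ _ _ ha hb (by norm_num) (by norm_num)
    exact special157 (by omega) hA
  · have hc : A.card = 25 := sq_card_unique _ _ _ ha hb (by norm_num) (by norm_num)
    exact case_even (by norm_num) 12 5 9 (by norm_num) (by norm_num) (by norm_num)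
      (by norm_num) (by norm_num) (by intro j h1 h2; unfold R2; omega)
      (by intro j h1 h2 h3; unfold R1; omega) (by omega) hA
  · have hc : A.card = 25 := sq_card_unique _ _ _ ha hb (by norm_num) (by norm_num)
    exact case_even (by norm_num) 12 9 9 (by norm_num) (by norm_num) (by norm_num)
      (by norm_num) (by norm_num) (by intro j h1 h2; unfold R2; omega)
      (by intro j h1 h2 h3; unfold R1; omega) (by omega) hA
  · have hc : A.card = 26 := sq_card_unique _ _ _ ha hb (by norm_num) (by norm_num)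
    exact case_odd (by norm_num) 11 2 9 (by norm_num) (by norm_num) (by norm_num)
      (by norm_num) (by norm_num) (by intro j h1 h2; unfold R2; omega)
      (by intro j h1 h2 h3; unfold R1; omega) (by omega) hA
  · have hc : A.card = 26 := sq_card_unique _ _ _ ha hb (by norm_num) (by norm_num)
    exact case_odd (by norm_num) 11 8 11 (by norm_num) (by norm_num) (by norm_num)
      (by norm_num) (by norm_num) (by intro j h1 h2; unfold R2; omega)
      (by intro j h1 h2 h3; unfold R1; omega) (by omega) hA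
  · have hc : A.card = 26 := sq_card_unique _ _ _ ha hb (by norm_num) (by norm_num)
    exact case_odd (by norm_num) 11 10 11 (by norm_num) (by norm_num) (by norm_num)
      (by norm_num) (by norm_num) (by intro j h1 h2; unfold R2; omega)
      (by intro j h1 h2 h3; unfold R1; omega) (by omega) hA
  · have hc : A.card = 27 := sq_card_unique _ _ _ ha hb (by norm_num) (by norm_num)
    exact case_even (by norm_num) 13 7 11 (by norm_num) (by norm_num) (by norm_num)
      (by norm_num) (by norm_num) (by intro j h1 h2; unfold R2; omega)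
      (by intro j h1 h2 h3; unfold R1; omega) (by omega) hA
  · have hc : A.card = 27 := sq_card_unique _ _ _ ha hb (by norm_num) (by norm_num)
    exact case_even (by norm_num) 13 9 11 (by norm_num) (by norm_num) (by norm_num)
      (by norm_num) (by norm_num) (by intro j h1 h2; unfold R2; omega)
      (by intro j h1 h2 h3; unfold R1; omega) (by omega) hA
  · have hc : A.card = 27 := sq_card_unique _ _ _ ha hb (by norm_num) (by norm_num)
    exact case_even (by norm_num) 13 13 12 (by norm_num) (by norm_num) (by norm_num)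
      (by norm_num) (by norm_num) (by intro j h1 h2; unfold R2; omega)
      (by intro j h1 h2 h3; unfold R1; omega) (by omega) hA
  · have hc : A.card = 28 := sq_card_unique _ _ _ ha hb (by norm_num) (by norm_num)
    exact case_odd (by norm_num) 12 1 12 (by norm_num) (by norm_num) (by norm_num)
      (by norm_num) (by norm_num) (by intro j h1 h2; unfold R2; omega)
      (by intro j h1 h2 h3; unfold R1; omega) (by omega) hA
  · have hc : A.card = 28 := sq_card_unique _ _ _ ha hb (by norm_num) (by norm_num)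
    exact case_odd (by norm_num) 12 13 12 (by norm_num) (by norm_num) (by norm_num)
      (by norm_num) (by norm_num) (by intro j h1 h2; unfold R2; omega)
      (by intro j h1 h2 h3; unfold R1; omega) (by omega) hA
  · have hc : A.card = 29 := sq_card_unique _ _ _ ha hb (by norm_num) (by norm_num)
    exact case_even (by norm_num) 14 11 12 (by norm_num) (by norm_num) (by norm_num)
      (by norm_num) (by norm_num) (by intro j h1 h2; unfold R2; omega)
      (by intro j h1 h2 h3; unfold R1; omega) (by omega) hA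
  · have hc : A.card = 30 := sq_card_unique _ _ _ ha hb (by norm_num) (by norm_num)
    exact case_odd (by norm_num) 13 0 12 (by norm_num) (by norm_num) (by norm_num)
      (by norm_num) (by norm_num) (by intro j h1 h2; unfold R2; omega)
      (by intro j h1 h2 h3; unfold R1; omega) (by omega) hA

end Pool.Agent.MP_116850_co
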