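import Pool.Agent.MP_116850_co.Basic
import Pool.Agent.MP_116850_co.Spec
import Pool.Agent.MP_116850_co.Defs2

set_option autoImplicit false

namespace Pool.Agent.MP_116850_co

open Finset
open scoped Pointwise

variable {p : ℕ}

/-- iterated sumsets -/
def it (A : Finset (ZMod p)) : ℕ → Finset (ZMod p)
  | 0 => {0}
  | n + 1 => it A n + A

lemma zero_mem_sym (B : Finset (ZMod p)) : (0 : ZMod p) ∈ sym B := by simp [sym]

lemma neg_mem_sym {B : Finset (ZMod p)} {x : ZMod p} (hx : x ∈ sym B) : -x ∈ sym B := by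
  simp only [sym, mem_insert, mem_union, mem_image] at hx ⊢
  rcases hx with rfl | hx | ⟨y, hy, rfl⟩
  · simp
  · right; right; exact ⟨x, hx, rfl⟩
  · right; left; simpa using hy

lemma card_sym {B : Finset (ZMod p)} (hB : Anti B) : (sym B).card = 2 * B.card + 1 := by
  unfold sym
  rw [card_insert_of_notMem, card_union_of_disjoint, card_image_of_injective _ neg_injective]
  · ring
  · rw [disjoint_left]
    intro x hx hx'
    rw [mem_image] at hx'
    obtain ⟨y, hy, rfl⟩ := hx'
    exact hB y hy hx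
  · rw [mem_union, mem_image]
    rintro (h | ⟨y, hy, h⟩)
    · exact hB.ne_zero h rfl
    · exact hB.ne_zero hy (by simpa using h)

lemma it_zero (A : Finset (ZMod p)) : it A 0 = {0} := rfl
lemma it_succ (A : Finset (ZMod p)) (n : ℕ) : it A (n + 1) = it A n + A := rfl

lemma it_one (A : Finset (ZMod p)) : it A 1 = A := by
  rw [it_succ, it_zero, Finset.singleton_zero, zero_add]

lemma it_add (A : Finset (ZMod p)) (i k : ℕ) : it A (i + k) = it A i + it A k := by
  induction k with
  | zero => rw [it_zero, Finset.singleton_zero, add_zero, add_zero]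
  | succ k ih => rw [← add_assoc, it_succ, ih, it_succ, add_assoc]

lemma it_subset_succ {A : Finset (ZMod p)} (h0 : (0 : ZMod p) ∈ A) (i : ℕ) :
    it A i ⊆ it A (i + 1) := by
  intro x hx
  rw [it_succ, mem_add]
  exact ⟨x, hx, 0, h0, by simp⟩

lemma it_mono {A : Finset (ZMod p)} (h0 : (0 : ZMod p) ∈ A) {i k : ℕ} (h : i ≤ k) :
    it A i ⊆ it A k := by
  induction k, h using Nat.le_induction with
  | base => exact subset_rfl
  | succ k _ ih => exact ih.trans (it_subset_succ h0 k)

lemma it_nonempty {A : Finset (ZMod p)} (h0 : (0 : ZMod p) ∈ A) (i : ℕ) : (it A i).Nonempty :=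
  ⟨0, it_mono h0 (Nat.zero_le i) (by simp [it])⟩

lemma it_cd [hp : Fact p.Prime] {A : Finset (ZMod p)} (h0 : (0 : ZMod p) ∈ A) (i k : ℕ) :
    min p ((it A i).card + (it A k).card - 1) ≤ (it A (i + k)).card := by
  rw [it_add]
  exact ZMod.cauchy_davenport hp.out (it_nonempty h0 i) (it_nonempty h0 k)

lemma lam_it {B S : Finset (ZMod p)} {L : ℕ} (hL : ∀ x ∈ B, lam S x ≤ L) (i : ℕ) :
    ∀ y ∈ it (sym B) i, lam S y ≤ i * L := by
  induction i with
  | zero => intro y hy; simp [it] at hy; subst hy; simp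
  | succ i ih =>
    intro y hy
    rw [it_succ, mem_add] at hy
    obtain ⟨a, ha, b, hb, rfl⟩ := hy
    have h1 := ih a ha
    have h2 : lam S b ≤ L := by
      simp only [sym, mem_insert, mem_union, mem_image] at hb
      rcases hb with rfl | hb | ⟨y, hy, rfl⟩
      · simp
      · exact hL b hb
      · rw [lam_neg]; exact hL y hy
    calc _ ≤ lam S a + lam S b := lam_add S a b
      _ ≤ i * L + L := by omega
      _ = _ := by ring

/-- Olson's inequality -/
theorem olson [hp : Fact p.Prime] {B S : Finset (ZMod p)} {L : ℕ} (hL : ∀ x ∈ B, lam S x ≤ L)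
    (h : ℕ) (h1 : h + 1 ≤ S.card) (h2 : S.card + h ≤ p) (K : ℕ)
    (hK : 2 * h + 1 ≤ (it (sym B) K).card) :
    ∃ J, (∀ i < J, (it (sym B) i).card ≤ 2 * h) ∧
      h * (h + 1) ≤ L * ∑ i ∈ range J, (2 * h + 1 - (it (sym B) i).card) := by
  classical
  set A := sym B with hA
  have h0 : (0 : ZMod p) ∈ A := zero_mem_sym B
  have hex : ∃ J, 2 * h + 1 ≤ (it A J).card := ⟨K, hK⟩
  set J := Nat.find hex with hJ
  have hJ1 : 2 * h + 1 ≤ (it A J).card := Nat.find_spec hex
  have hJ2 : ∀ i < J, (it A i).card ≤ 2 * h := fun i hi => by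
    have := Nat.find_min hex hi; omega
  refine ⟨J, hJ2, ?_⟩
  -- choose Y
  obtain ⟨Y, hYl, hYu, hYc⟩ : ∃ Y : Finset (ZMod p), (∀ i < J, it A i ⊆ Y) ∧ Y ⊆ it A J ∧
      Y.card = 2 * h + 1 := by
    rcases Nat.eq_zero_or_pos J with hz | hz
    · obtain ⟨Y, hY1, hY2⟩ := exists_subset_card_eq hJ1
      exact ⟨Y, fun i hi => by omega, hY1, hY2⟩
    · have h3 : (it A (J - 1)).card ≤ 2 * h + 1 := by
        have := hJ2 (J - 1) (by omega); omega
      obtain ⟨Y, hY1, hY2, hY3⟩ := exists_subsuperset_card_eq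
        (it_mono h0 (Nat.sub_le J 1)) h3 hJ1
      exact ⟨Y, fun i hi => (it_mono h0 (by omega)).trans hY1, hY2, hY3⟩
  have hmain := sum_lam S Y h hYc h1 h2
  -- level of y
  have hlev : ∀ y ∈ Y, lam S y ≤ L * ∑ i ∈ range J, (if y ∈ it A i then 0 else 1) := by
    intro y hy
    have hy' : ∃ i, y ∈ it A i := ⟨J, hYu hy⟩
    set m := Nat.find hy' with hm
    have hm1 : y ∈ it A m := Nat.find_spec hy'
    have hmJ : m ≤ J := Nat.find_min' hy' (hYu hy)
    have hm2 : ∀ i < m, y ∉ it A i := fun i hi => Nat.find_min hy' hi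
    have h3 := lam_it hL m y hm1
    have h4 : m ≤ ∑ i ∈ range J, (if y ∈ it A i then 0 else 1) := by
      calc m = ∑ i ∈ range m, (if y ∈ it A i then 0 else 1) := by
            rw [sum_congr rfl (g := fun _ => 1)]
            · simp
            · intro i hi
              rw [if_neg (hm2 i (mem_range.mp hi))]
        _ ≤ _ := sum_le_sum_of_subset (range_subset_range.mpr hmJ)
    calc _ ≤ m * L := h3
      _ = L * m := by ring
      _ ≤ _ := Nat.mul_le_mul_left L h4
  calc h * (h + 1) ≤ ∑ y ∈ Y, lam S y := hmain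
    _ ≤ ∑ y ∈ Y, L * ∑ i ∈ range J, (if y ∈ it A i then 0 else 1) := sum_le_sum hlev
    _ = L * ∑ i ∈ range J, ∑ y ∈ Y, (if y ∈ it A i then 0 else 1) := by
        rw [← mul_sum, sum_comm]
    _ = L * ∑ i ∈ range J, (2 * h + 1 - (it A i).card) := by
        congr 1
        apply sum_congr rfl
        intro i hi
        have h5 : ∑ y ∈ Y, (if y ∈ it A i then 0 else 1) = (Y \ it A i).card := by
          rw [sdiff_eq_filter, card_filter]
          apply sum_congr rfl
          intro y _
          by_cases hy : y ∈ it A i <;> simp [hy]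
        rw [h5, card_sdiff_of_subset (hYl i (mem_range.mp hi)), hYc]

end Pool.Agent.MP_116850_co
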