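import Pool.Agent.MP_116850_co.Conc

set_option autoImplicit false

namespace Pool.Agent.MP_116850_co

open Finset
open scoped Pointwise

variable {p : ℕ}

/-- range in which case (ii) is available -/
def R2 (p j : ℕ) : Prop :=
  47 ≤ p ∧ (j ≤ 6 ∨ (j = 7 ∧ 67 ≤ p) ∨ (j = 8 ∧ 79 ≤ p) ∨ (j = 9 ∧ 97 ≤ p) ∨
    (j = 10 ∧ 127 ≤ p) ∨ 11 ≤ j)

/-- range in which case (i) is available -/
def R1 (p j : ℕ) : Prop :=
  4 ≤ j ∧ ((j ≤ 5 ∧ 47 ≤ p) ∨ (j = 6 ∧ 53 ≤ p) ∨ (j = 7 ∧ 83 ≤ p) ∨ (j = 8 ∧ 101 ≤ p) ∨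
    (j = 9 ∧ 134 ≤ p) ∨ (j = 10 ∧ 175 ≤ p) ∨ (j = 11 ∧ 163 ≤ p) ∨ (j = 12 ∧ 195 ≤ p) ∨
    (j = 13 ∧ 229 ≤ p) ∨ 14 ≤ j)

lemma D_ge (s σ p : ℕ) (h1 : s ≤ 2 * σ) (h2 : 2 * σ ≤ p) :
    s * (2 * p - s) ≤ 4 * (σ * (p - σ)) := by
  obtain ⟨q, rfl⟩ := Nat.exists_eq_add_of_le h2
  obtain ⟨k, hk⟩ := Nat.exists_eq_add_of_le h1
  have e1 : 2 * (2 * σ + q) - s = 2 * σ + 2 * q + k := by omega
  have e2 : 2 * σ + q - σ = σ + q := by omega
  rw [e1, e2]
  have : s * (2 * σ + 2 * q + k) + (k * k + 2 * k * q) = 4 * (σ * (σ + q)) := by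
    have h3 : s + k = 2 * σ := by omega
    calc s * (2 * σ + 2 * q + k) + (k * k + 2 * k * q)
        = (s + k) * (s + k) + 2 * (s + k) * q + s * (2 * σ - (s + k)) := by rw [hk]; simp; ring
      _ = _ := by rw [h3]; simp; ring
  omega

theorem crit_ii (p j D o : ℕ) (hj : 2 ≤ j) (hR : R2 p j) (hp : j * (j + 1) ≤ p)
    (hD : j * (j + 1) * (2 * p - j * (j + 1)) ≤ 4 * D)
    (ho : o * D ≤ j * (j - 1) * p) : Crit j (j - 1) 2 p D o := by
  have hp47 : 47 ≤ p := hR.1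
  have ho3 : o ≤ 3 := by
    by_contra hcon
    have h1 : 4 * D ≤ o * D := Nat.mul_le_mul_right D (by omega)
    have h2 : j * (j + 1) * p ≤ j * (j + 1) * (2 * p - j * (j + 1)) :=
      Nat.mul_le_mul_left _ (by omega)
    have h3 : j * (j + 1) * p ≤ j * (j - 1) * p := by omega
    have h4 : j * (j - 1) < j * (j + 1) := by
      apply Nat.mul_lt_mul_of_pos_left <;> omega
    have h5 : j * (j - 1) * p < j * (j + 1) * p := Nat.mul_lt_mul_of_pos_right h4 (by omega)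
    omega
  by_cases h11 : 11 ≤ j
  · left
    refine ⟨by omega, Or.inr ⟨?_, ?_⟩, ?_⟩
    · nlinarith
    · nlinarith
    · nlinarith
  have hj10 : j ≤ 10 := by omega
  obtain ⟨_, hR⟩ := hR
  interval_cases j <;> norm_num at hD ho hR hp ⊢ <;> interval_cases o <;>
    first
    | (left; refine ⟨by omega, by omega, by omega⟩)
    | (right; refine ⟨0, 1, by omega, ?_⟩; push_cast; omega)
    | (right; refine ⟨1, 1, by omega, ?_⟩; push_cast; omega)
    | (right; refine ⟨2, 1, by omega, ?_⟩; push_cast; omega)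
    | (right; refine ⟨4, 1, by omega, ?_⟩; push_cast; omega)

theorem crit_i (p j D o : ℕ) (hR : R1 p j) (hp : j ^ 2 + 3 * j ≤ p + 6)
    (hD : (j ^ 2 + 3 * j - 6) * (2 * p - (j ^ 2 + 3 * j - 6)) ≤ 4 * D)
    (ho : o * D ≤ j * j * p) : Crit j j (if j ≤ 7 then 10 else 8) p D o := by
  obtain ⟨h4, hR⟩ := hR
  have hp22 : 22 ≤ p := by nlinarith
  have ho3 : o ≤ 3 := by
    by_contra hcon
    obtain ⟨i, rfl⟩ : ∃ i, j = i + 4 := ⟨j - 4, by omega⟩
    have e1 : (i + 4) ^ 2 + 3 * (i + 4) - 6 = (i + 4) * (i + 4) + (3 * i + 6) := by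
      have : (i + 4) ^ 2 + 3 * (i + 4) = (i + 4) * (i + 4) + (3 * i + 6) + 6 := by ring
      omega
    rw [e1] at hD
    have h1 : 4 * D ≤ o * D := Nat.mul_le_mul_right D (by omega)
    have h0 : (i + 4) * (i + 4) + (3 * i + 6) ≤ p := by nlinarith
    have h2 : ((i + 4) * (i + 4) + (3 * i + 6)) * p ≤
      ((i + 4) * (i + 4) + (3 * i + 6)) * (2 * p - ((i + 4) * (i + 4) + (3 * i + 6))) :=
      Nat.mul_le_mul_left _ (by omega)
    have h3 : ((i + 4) * (i + 4) + (3 * i + 6)) * p ≤ (i + 4) * (i + 4) * p := by omega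
    have h4 : (i + 4) * (i + 4) * p < ((i + 4) * (i + 4) + (3 * i + 6)) * p :=
      Nat.mul_lt_mul_of_pos_right (by omega) (by omega)
    omega
  by_cases h14 : 14 ≤ j
  · rw [if_neg (by omega)]
    left
    refine ⟨by omega, Or.inr ⟨?_, ?_⟩, ?_⟩
    · nlinarith
    · nlinarith
    · nlinarith
  have hj13 : j ≤ 13 := by omega
  interval_cases j <;> norm_num at hD ho hR hp ⊢ <;> interval_cases o <;>
    first
    | (left; refine ⟨by omega, by omega, by omega⟩)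
    | (right; refine ⟨0, 1, by omega, ?_⟩; push_cast; omega)
    | (right; refine ⟨1, 1, by omega, ?_⟩; push_cast; omega)
    | (right; refine ⟨2, 1, by omega, ?_⟩; push_cast; omega)
    | (right; refine ⟨3, 1, by omega, ?_⟩; push_cast; omega)
    | (right; refine ⟨4, 1, by omega, ?_⟩; push_cast; omega)
    | (right; refine ⟨5, 2, by omega, ?_⟩; push_cast; omega)

end Pool.Agent.MP_116850_co
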