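import Pool.Agent.MP_116850_co.Steps

set_option autoImplicit false

namespace Pool.Agent.MP_116850_co

open Finset
open scoped Pointwise

variable {p : ℕ}

/-- case (ii): there is a step of size at least `j` -/
theorem step_ii [hp : Fact p.Prime] (h2p : p ≠ 2) {B : Finset (ZMod p)} (hB : Anti B)
    (hj : 2 ≤ B.card) (hR : R2 p B.card)
    (hσ : B.card * (B.card + 1) ≤ 2 * B.subsetSum.card)
    (hp2 : 2 * B.subsetSum.card ≤ p) :
    ∃ x ∈ B, (B.erase x).subsetSum.card + B.card ≤ B.subsetSum.card := by
  by_contra hcon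
  push Not at hcon
  have hL0 : ∀ x ∈ B, B.subsetSum.card ≤ (B.erase x).subsetSum.card + (B.card - 1) :=
    fun x hx => by have := hcon x hx; omega
  have hL := lam_le_of_step hL0
  have hsum := small_doubling_ii h2p hB hj hL hσ hp2
  have hpos := hp.out.pos
  have hlt : B.subsetSum.card < p := by
    have := subsetSum_card_pos B
    omega
  obtain ⟨u, hu, ht⟩ := conc h2p hB (B.card - 1) 2 hlt hL (by omega) (fun o ho =>
    crit_ii p B.card _ o hj hR (by omega) (D_ge _ _ _ hσ hp2) ho)
  obtain ⟨x, hx, h⟩ := exists_large_step u hu B hB (card_pos.mp (by omega)) ht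
  exact absurd h (not_le.mpr (hcon x hx))

/-- case (i): a saturated set is standard -/
theorem step_i [hp : Fact p.Prime] (h2p : p ≠ 2) {B : Finset (ZMod p)} (hB : Anti B)
    (hR : R1 p B.card)
    (hσ : 2 * B.subsetSum.card + 6 = B.card ^ 2 + 3 * B.card)
    (hp2 : 2 * B.subsetSum.card ≤ p)
    (hL0 : ∀ x ∈ B, B.subsetSum.card ≤ (B.erase x).subsetSum.card + B.card) : Std B := by
  have hL := lam_le_of_step hL0
  have h4 : 4 ≤ B.card := hR.1
  have hlt : B.subsetSum.card < p := by
    have := subsetSum_card_pos B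
    omega
  have key : ∃ u : ZMod p, u ≠ 0 ∧ tot u B < p := by
    have hcrit := fun o ho => crit_i p B.card (B.subsetSum.card * (p - B.subsetSum.card)) o hR
      (by omega) (D_ge _ _ _ (by omega) hp2) ho
    by_cases h8 : 8 ≤ B.card
    · have hsum := small_doubling_i' h2p hB h8 hL hσ hp2
      rw [if_neg (by omega)] at hcrit
      exact conc h2p hB B.card 8 hlt hL (by omega) hcrit
    · rw [if_pos (by omega)] at hcrit
      by_cases h6 : 6 ≤ B.card
      · have hsum := small_doubling_i67 h2p hB (by omega) hL hσ hp2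
        exact conc h2p hB B.card 10 hlt hL (by omega) hcrit
      · -- `j = 4, 5`: no doubling information is needed
        obtain ⟨r, hr, hC⟩ := fourier B.subsetSum B B.card subsetSum_nonempty hlt hL
        have ho : (out r B).card * (B.subsetSum.card * (p - B.subsetSum.card)) ≤
            B.card * B.card * p := by
          have h1 := Nat.mul_le_mul_right (B.subsetSum.card * (p - B.subsetSum.card))
            (out_cost r B)
          have h2 := h1.trans hC
          have h3 : p ^ 2 * ((out r B).card * (B.subsetSum.card * (p - B.subsetSum.card))) ≤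
              p ^ 2 * (B.card * B.card * p) := by
            calc _ = (out r B).card * p ^ 2 * (B.subsetSum.card * (p - B.subsetSum.card)) := by
                  ring
              _ ≤ B.card * B.card * p ^ 3 := h2
              _ = _ := by ring
          have := hp.out.pos
          exact Nat.le_of_mul_le_mul_left h3 (by positivity)
        rcases hcrit _ ho with ⟨c1, _⟩ | ⟨a, b, hab, hn⟩
        · omega
        · exact ⟨r, hr, special B r hp.out.pos B.card _ a b hC hab hn⟩
  obtain ⟨u, hu, ht⟩ := key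
  exact std_of_saturated u hu B hB h4 ht hL0

/-- lower bound at level `j` -/
def P1 (p j : ℕ) : Prop := ∀ B : Finset (ZMod p), Anti B → B.card = j →
  2 * B.subsetSum.card ≤ p → j * (j + 1) + 2 ≤ 2 * B.subsetSum.card

/-- structure at level `j` -/
def P2 (p J j : ℕ) : Prop := ∀ B : Finset (ZMod p), Anti B → B.card = j →
  2 * B.subsetSum.card ≤ p → ¬ Std B →
  j * (j + 1) + 2 + 2 * min j J ≤ 2 * B.subsetSum.card + 6

theorem p1_one [hp : Fact p.Prime] : P1 p 1 := by
  intro B hB hc _
  obtain ⟨x, rfl⟩ := card_eq_one.mp hc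
  have hx : x ≠ 0 := hB.ne_zero (mem_singleton_self x)
  have : ({0, x} : Finset (ZMod p)) ⊆ ({x} : Finset (ZMod p)).subsetSum := by
    intro a ha
    rw [mem_subsetSum_iff]
    rcases mem_insert.mp ha with rfl | ha
    · exact ⟨∅, empty_subset _, by simp⟩
    · rw [mem_singleton] at ha
      subst ha
      exact ⟨{a}, subset_rfl, by simp⟩
  have h2 := card_le_card this
  rw [card_pair hx.symm] at h2
  omega

theorem p1_zero : P1 p 0 := by
  intro B hB hc _
  have := subsetSum_card_pos B
  omega

theorem p1_step [hp : Fact p.Prime] (h2p : p ≠ 2) (j : ℕ) (hj : 1 ≤ j) (hR : R2 p (j + 1))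
    (h : P1 p j) : P1 p (j + 1) := by
  intro B hB hc h2
  by_contra hcon
  -- all parents
  have hpar : ∀ x ∈ B, j * (j + 1) + 2 ≤ 2 * (B.erase x).subsetSum.card := by
    intro x hx
    apply h _ (hB.erase x)
    · rw [card_erase_of_mem hx, hc]; rfl
    · have : (B.erase x).subsetSum.card ≤ B.subsetSum.card :=
        card_le_card (subsetSum_mono (erase_subset x B))
      omega
  have hne : B.Nonempty := card_pos.mp (by omega)
  obtain ⟨x0, hx0⟩ := hne
  have hx0' := hpar x0 hx0
  have hmono : (B.erase x0).subsetSum.card ≤ B.subsetSum.card :=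
    card_le_card (subsetSum_mono (erase_subset x0 B))
  have e1 : (j + 1) * (j + 1 + 1) = j * (j + 1) + 2 * (j + 1) := by ring
  rw [e1] at hcon
  by_cases hcase : j * (j + 1) + 2 * (j + 1) ≤ 2 * B.subsetSum.card
  · -- case (ii)
    obtain ⟨x, hx, hxs⟩ := step_ii h2p hB (by omega) (by rw [hc]; exact hR)
      (by rw [hc, e1]; exact hcase) h2
    have := hpar x hx
    rw [hc] at hxs
    omega
  · -- Cauchy-Davenport
    obtain ⟨k, hk⟩ := Nat.even_mul_succ_self j
    have hL : ∀ x ∈ B, B.subsetSum.card ≤ (B.erase x).subsetSum.card +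
        (B.subsetSum.card - (k + 1)) := by
      intro x hx
      have := hpar x hx
      omega
    refine cd_small hB hL (by omega) ?_ h2
    rw [hc, show j + 1 - 1 = j by omega, mul_comm (j + 1) j]
    omega

theorem p1_all [hp : Fact p.Prime] (h2p : p ≠ 2) (b : ℕ) (hb : ∀ j, 2 ≤ j → j ≤ b → R2 p j) :
    ∀ j ≤ b, P1 p j := by
  intro j
  induction j with
  | zero => intro _; exact p1_zero
  | succ j ih =>
    intro hj
    rcases Nat.eq_zero_or_pos j with rfl | hpos
    · exact p1_one
    · exact p1_step h2p j hpos (hb _ (by omega) hj) (ih (by omega))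

theorem p2_step [hp : Fact p.Prime] (h2p : p ≠ 2) (J j : ℕ) (hj : 3 ≤ j) (hJ : 3 ≤ J)
    (hR : R2 p (j + 1)) (hR1 : j + 1 ≤ J → R1 p (j + 1))
    (h1 : P1 p j) (h1' : P1 p (j + 1)) (h : P2 p J j) : P2 p J (j + 1) := by
  intro B hB hc h2 hns
  by_contra hcon
  have e1 : (j + 1) * (j + 1 + 1) = j * (j + 1) + 2 * (j + 1) := by ring
  have hσ := h1' B hB hc h2
  rw [e1] at hcon hσ
  have hmono : ∀ x, (B.erase x).subsetSum.card ≤ B.subsetSum.card := fun x =>
    card_le_card (subsetSum_mono (erase_subset x B))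
  have hcard : ∀ x ∈ B, (B.erase x).card = j := fun x hx => by
    rw [card_erase_of_mem hx, hc]; rfl
  have hpar : ∀ x ∈ B, j * (j + 1) + 2 ≤ 2 * (B.erase x).subsetSum.card := by
    intro x hx
    have := hmono x
    exact h1 _ (hB.erase x) (hcard x hx) (by omega)
  -- a step of size at least `j + 1` forces equality
  have key : ∀ x ∈ B, (B.erase x).subsetSum.card + (j + 1) ≤ B.subsetSum.card →
      j + 1 ≤ J ∧ (B.erase x).subsetSum.card + (j + 1) = B.subsetSum.card ∧
      2 * B.subsetSum.card + 6 = j * (j + 1) + 2 * (j + 1) + 2 + 2 * (j + 1) - 2 := by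
    intro x hx hxs
    have hm := hmono x
    by_cases hstd : Std (B.erase x)
    · exfalso
      rcases std_extend h2p B x hx hstd (by omega) with h3 | h3
      · exact hns h3
      · have h4 := hpar x hx
        have h5 : j * (j + 1) + 2 * (j + 1) + 2 + 2 * min (j + 1) J ≤
            j * (j + 1) + 2 * (j + 1) + 2 + 2 * (j + 1) := by omega
        nlinarith
    · have h3 := h _ (hB.erase x) (hcard x hx) (by omega) hstd
      obtain ⟨k, hk⟩ := Nat.even_mul_succ_self j
      omega
  obtain ⟨x, hx, hxs⟩ := step_ii h2p hB (by omega) (by rw [hc]; exact hR)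
    (by rw [hc, e1]; omega) h2
  rw [hc] at hxs
  obtain ⟨k1, k2, k3⟩ := key x hx hxs
  apply hns
  refine step_i h2p hB (by rw [hc]; exact hR1 k1) ?_ h2 ?_
  · rw [hc, k3]
    have : (j + 1) ^ 2 + 3 * (j + 1) = j * (j + 1) + 2 * (j + 1) + 2 * (j + 1) := by ring
    omega
  · intro y hy
    rw [hc]
    by_contra hcon2
    push Not at hcon2
    obtain ⟨_, k4, _⟩ := key y hy (by omega)
    omega

theorem p2_all [hp : Fact p.Prime] (h2p : p ≠ 2) (J b : ℕ) (hJ : 3 ≤ J)
    (hb : ∀ j, 2 ≤ j → j ≤ b → R2 p j) (hJb : ∀ j, 4 ≤ j → j ≤ b → j ≤ J → R1 p j) :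
    ∀ j ≤ b, P2 p J j := by
  have hP1 := p1_all h2p b hb
  intro j
  induction j with
  | zero =>
    intro hj B hB hc h2 _
    have := hP1 0 hj B hB hc h2
    omega
  | succ j ih =>
    intro hj
    by_cases h3 : j ≤ 2
    · intro B hB hc h2 _
      have := hP1 (j + 1) hj B hB hc h2
      omega
    · exact p2_step h2p J j (by omega) hJ (hb _ (by omega) hj) (fun h => hJb _ (by omega) hj h)
        (hP1 j (by omega)) (hP1 (j + 1) hj) (ih (by omega))

end Pool.Agent.MP_116850_co
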